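import Mathlib
import Pool.Agent.R366.NF.Final
import Pool.Agent.N733.TG.M
import Pool.Agent.N733.TG.I

set_option autoImplicit false

/-!
The truncated counting function at integral vectors over a number field whose coordinates are near
the values of multiplicative functions (helper74). The sparse sets are the ones of `R366/NF`, the
theorem about multiplicative functions is `keep_tuples2` of `N733/TG`.
-/

namespace Pool.Agent.J4.H74.VojLM

open MvPolynomial NumberField IsDedekindDomain Pool.Agent.TH910.Voj Pool.Agent.H813R3.Voj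
  Pool.Agent.R366.NF

open scoped Classical

variable {K : Type} [Field K] [NumberField K] {n N q : ℕ}

/-- the content of most integral vectors is small -/
theorem sparse_content (hn : 1 ≤ n) (e : Fin (n + 1) × Idx K ≃ Fin (N + 1)) {ε : ℝ} (hε : 0 < ε) :
    Sparse (N + 1) (fun B u => ¬ ∃ m : ℕ, 0 < m ∧ (m : ℝ) ≤ (B : ℝ) ^ ε ∧
      (m : 𝓞 K) ∈ Ideal.span (Set.range (vec e u))) := by
  obtain ⟨a, ha⟩ : ∃ a : Fin (n + 1), (a : ℕ) = 0 := ⟨⟨0, by omega⟩, rfl⟩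
  obtain ⟨b, hb⟩ : ∃ b : Fin (n + 1), (b : ℕ) = 1 := ⟨⟨1, by omega⟩, rfl⟩
  have hab : a ≠ b := fun h => by rw [h, hb] at ha; exact one_ne_zero ha
  have hX : ∀ i : Fin (n + 1), toK (K := K) (X i) = X i := fun i => map_X _ _
  have hirr : Irreducible (toK (K := K) (X a : MvPolynomial (Fin (n + 1)) (𝓞 K))) := by
    rw [hX]; exact X_prime.irreducible
  set f := weil e (X a) with hf
  set g := weil e (X b) with hg
  have hfirr : Irreducible (toK f) := weil_irreducible e hirr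
  have hfhom : f.IsHomogeneous 1 := weil_hom e (isHomogeneous_X _ _)
  have hfg : ¬ toK f ∣ toK g := fun h => by
    have h1 := weil_dvd e h
    rw [hX, hX, X_dvd_X] at h1
    exact hab h1
  obtain ⟨P, k', hPhom, hPirr, A, hPA⟩ := exists_below f hfhom hfirr
  obtain ⟨G₀, hG1, U, V, hUV⟩ := exists_int_elim f g hfirr hfg
  have hPG : ¬ toQ P ∣ toQ G₀ := by
    intro h2
    apply hG1
    have h3 : toK f ∣ toK (ofZ K P) := by
      rw [hPA, map_mul]; exact dvd_mul_left _ _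
    refine h3.trans ?_
    rw [toK_ofZ, toK_ofZ]
    exact map_dvd _ h2
  have hP0 : P ≠ 0 := by
    intro h0
    exact hPirr.ne_zero (by rw [h0, map_zero])
  refine ((sparse_zeros _ hP0).or
    (Pool.Agent.R366.TC.sparse_full_gcd P G₀ hPhom hPirr hPG hε)).mono ?_
  intro B u _ _ hbad
  by_contra hcon
  rw [not_or] at hcon
  obtain ⟨h3, h4⟩ := hcon
  push Not at h4
  apply hbad
  refine ⟨Int.gcd (eval u P) (eval u G₀), Int.gcd_pos_of_ne_zero_left _ h3, h4 h3, ?_⟩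
  have ea : vec e u a ∈ Ideal.span (Set.range (vec e u)) := Ideal.subset_span ⟨a, rfl⟩
  have eb : vec e u b ∈ Ideal.span (Set.range (vec e u)) := Ideal.subset_span ⟨b, rfl⟩
  have e1 : ((eval u P : ℤ) : 𝓞 K) ∈ Ideal.span (Set.range (vec e u)) := by
    rw [← val_ofZ, hPA, val_mul, hf, val_weil, eval_X]
    exact Ideal.mul_mem_left _ _ ea
  have e2 : ((eval u G₀ : ℤ) : 𝓞 K) ∈ Ideal.span (Set.range (vec e u)) := by
    rw [← val_ofZ, hUV, val_add, val_mul, val_mul, hf, hg, val_weil, val_weil, eval_X, eval_X]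
    exact Ideal.add_mem _ (Ideal.mul_mem_left _ _ ea) (Ideal.mul_mem_left _ _ eb)
  have e3 : (((Int.gcd (eval u P) (eval u G₀) : ℕ) : ℤ) : 𝓞 K) ∈
      Ideal.span (Set.range (vec e u)) := by
    rw [Int.gcd_eq_gcd_ab]
    push_cast
    exact Ideal.add_mem _ (Ideal.mul_mem_right _ _ e1) (Ideal.mul_mem_right _ _ e2)
  simpa using e3

/-- the height of an integral vector -/
lemma logHeight_le (y : Fin (n + 1) → 𝓞 K) {X : ℝ} (hX1 : 1 ≤ X)
    (hX : ∀ (w : InfinitePlace K) i, w (y i : K) ≤ X) :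
    Height.logHeight (fun i => (y i : K)) ≤ Module.finrank ℚ K * Real.log X := by
  set x : Fin (n + 1) → K := fun i => (y i : K) with hx
  by_cases h0 : x = 0
  · rw [h0, Height.logHeight_zero]
    have := Real.log_nonneg hX1
    positivity
  rw [Height.logHeight_eq_log_mulHeight, ← Real.log_pow]
  refine Real.log_le_log (Height.mulHeight_pos _) ?_
  rw [NumberField.mulHeight_eq h0]
  have h1 : ∏ v : InfinitePlace K, (⨆ i, v (x i)) ^ v.mult ≤ X ^ Module.finrank ℚ K := by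
    rw [← InfinitePlace.sum_mult_eq (K := K), ← Finset.prod_pow_eq_pow_sum]
    refine Finset.prod_le_prod (fun v _ => pow_nonneg (Real.iSup_nonneg fun i => apply_nonneg _ _) _)
      fun v _ => ?_
    exact pow_le_pow_left₀ (Real.iSup_nonneg fun i => apply_nonneg _ _) (ciSup_le fun i => hX v i) _
  have hsupx : (Function.mulSupport fun v : FinitePlace K => ⨆ i, v (x i)).Finite :=
    Pool.Agent.H57R3.VJ.sv_fin h0
  have h2 : ∏ᶠ v : FinitePlace K, ⨆ i, v (x i) ≤ 1 := by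
    rw [finprod_eq_prod_of_mulSupport_subset (s := hsupx.toFinset) _ (by
      rw [Set.Finite.coe_toFinset])]
    refine Finset.prod_le_one (fun v _ => Real.iSup_nonneg fun i => apply_nonneg _ _) fun v _ => ?_
    exact ciSup_le fun i => fp_le_one v (y i)
  have h3 : 0 ≤ ∏ᶠ v : FinitePlace K, ⨆ i, v (x i) :=
    finprod_nonneg fun v => Real.iSup_nonneg fun i => apply_nonneg _ _
  calc _ ≤ X ^ Module.finrank ℚ K * 1 :=
        mul_le_mul h1 h2 h3 (pow_nonneg (by linarith) _)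
    _ = _ := mul_one _

/-- the inequality at the point with integral coordinates `y` -/
def Good (S : Finset ℕ) (F : Fin q → MvPolynomial (Fin (n + 1)) (𝓞 K)) (k : Fin q → ℕ)
    {t : ℕ} (F' G' : Fin t → MvPolynomial (Fin (n + 1)) (𝓞 K)) (k' e' : Fin t → ℕ) (Λ θ : ℝ)
    (y : Fin (n + 1) → 𝓞 K) : Prop :=
  (∀ j, eval y (F j) ≠ 0) ∧
    θ * Height.logHeight (fun i => (y i : K)) +
      Λ * ∑ l, idealHeight (F' l) (G' l) (k' l) (e' l) (fun i => (y i : K)) ≤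
    truncatedCount S F k (fun i => (y i : K))

/-- **almost all integral vectors** -/
theorem sparse_vojta (hn : 1 ≤ n) (e : Fin (n + 1) × Idx K ≃ Fin (N + 1))
    (F : Fin q → MvPolynomial (Fin (n + 1)) (𝓞 K)) (k m : Fin q → ℕ)
    (hhom : ∀ j, (F j).IsHomogeneous (k j)) (hirr : ∀ j, Irreducible (toK (F j)))
    (hdist : ∀ i j, i ≠ j → ¬ Associated (toK (F i)) (toK (F j)))
    (hm : ∀ j, m j ≤ 1 ∨ (m j ≤ k j ∧ k j ≤ 2) ∨ IsNormForm (F j) (m j))
    (S : Finset ℕ) (hS : ∀ p ∈ S, p.Prime)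
    {t : ℕ} (F' G' : Fin t → MvPolynomial (Fin (n + 1)) (𝓞 K)) (k' e' : Fin t → ℕ)
    (hF' : ∀ l, (F' l).IsHomogeneous (k' l))
    (hirr' : ∀ l, Irreducible (toK (F' l))) (hcop : ∀ l, ¬ toK (F' l) ∣ toK (G' l))
    (Λ : ℝ) (hΛ : 0 ≤ Λ) (θ : ℝ) (hθ0 : 0 ≤ θ) (hθ : θ < ∑ j, (m j : ℝ)) :
    Sparse (N + 1) (fun _ u => ¬ Good S F k F' G' k' e' Λ θ (vec e u)) := by
  set d : ℕ := Module.finrank ℚ K with hd
  have hd1 : 1 ≤ d := Module.finrank_pos (R := ℚ) (M := K)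
  have hd0 : (0 : ℝ) < d := by exact_mod_cast hd1
  have hfew : ∀ j, FewCoincidences (normPoly (weil e (F j))) (d * m j) := by
    intro j
    have h1 : m j ≤ 1 → FewCoincidences (normPoly (weil e (F j))) (d * m j) := fun h =>
      few_norm ((few_any_nf e (F j) (hirr j)).mono (by nlinarith))
    rcases hm j with h | h | h
    · exact h1 h
    · by_cases h2 : m j ≤ 1
      · exact h1 h2
      · have h3 : m j = 2 := by omega
        have h4 : k j = 2 := by omega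
        rw [h3]
        exact few_norm (few_two_nf e (F j) (h4 ▸ hhom j) (hirr j))
    · exact few_normform e (F j) (m j) h
  set Δ : ℝ := (∑ j, (m j : ℝ)) - θ with hΔ
  have hΔ0 : 0 < Δ := by rw [hΔ]; linarith
  set θ₁ : ℝ := θ + Δ / 2 with hθ₁
  set η : ℝ := d * Δ / (8 * (t + 1) * (Λ + 1)) with hη
  have hη0 : 0 < η := by positivity
  have hηd : Λ * (t * η) ≤ d * (Δ / 8) := by
    have h1 : Λ * (t * η) ≤ (Λ + 1) * ((t + 1) * η) := by
      apply mul_le_mul (by linarith) _ (by positivity) (by linarith)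
      apply mul_le_mul_of_nonneg_right (by linarith) hη0.le
    refine h1.trans (le_of_eq ?_)
    rw [hη]
    field_simp
  have hspT := sparse_trunc (fun j => weil e (F j)) k (fun j => d * m j)
    (fun j => weil_hom e (hhom j)) (fun j => weil_irreducible e (hirr j))
    (fun i j hij h => hdist i j hij (by
      have h1 : toK (F i) ∣ toK (F j) := weil_dvd e h.dvd
      exact (hirr i).associated_of_dvd (hirr j) h1)) hfew S hS (d * θ₁) (by
      push_cast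
      rw [← Finset.mul_sum]
      refine mul_lt_mul_of_pos_left ?_ hd0
      rw [hθ₁, hΔ]
      linarith)
  have hspI := fun l => sparse_ideal e (F' l) (G' l) (hF' l) (hirr' l) (hcop l) (e' l) hη0
  have hspC := sparse_content (K := K) hn e (ε := Δ / 8) (by positivity)
  obtain ⟨A₀, hA₀, hsize⟩ := exists_size K
  have hLA : 0 ≤ Real.log A₀ := Real.log_nonneg hA₀
  obtain ⟨B₀, hB₀⟩ : ∃ B₀ : ℕ, ∀ B : ℕ, B₀ ≤ B →
      θ * (d * Real.log A₀) ≤ d * (Δ / 4) * Real.log B := by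
    have h1 : Filter.Tendsto (fun B : ℕ => d * (Δ / 4) * Real.log B) Filter.atTop Filter.atTop :=
      (Real.tendsto_log_atTop.comp tendsto_natCast_atTop_atTop).const_mul_atTop (by positivity)
    exact Filter.eventually_atTop.mp (h1.eventually_ge_atTop (θ * (d * Real.log A₀)))
  refine ((hspT.or (Sparse.exists_fin hspI)).or hspC).of_eventually B₀ ?_
  intro B u hBB hB hu hbad
  by_contra hgood
  rw [not_or, not_or] at hgood
  obtain ⟨⟨⟨hg1, hg2⟩, hg3⟩, hg4⟩ : ((_ ∧ _) ∧ _) ∧ _ := by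
    obtain ⟨⟨h1, h2⟩, h3⟩ := hgood
    exact ⟨⟨not_or.1 h1, h2⟩, h3⟩
  push Not at hg1 hg2 hg3 hg4
  obtain ⟨c, hc0, hcB, hcm⟩ := hg4
  simp only [val_weil] at hg1 hg2
  apply hbad
  refine ⟨hg1, ?_⟩
  have hB1 : (1 : ℝ) ≤ B := by exact_mod_cast hB
  have hBpos : (0 : ℝ) < B := by linarith
  have hlogB : 0 ≤ Real.log B := Real.log_nonneg hB1
  have hT := trunc_transfer S F k (vec e u) hg1 c hc0 hcm
  have hlogc : Real.log c ≤ Δ / 8 * Real.log B := by
    rw [← Real.log_rpow hBpos]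
    exact Real.log_le_log (by exact_mod_cast hc0) hcB
  have hIs : Λ * ∑ l, idealHeight (F' l) (G' l) (k' l) (e' l) (fun i => (vec e u i : K)) ≤
      Λ * (t * η) * Real.log B := by
    have h1 : ∑ l, idealHeight (F' l) (G' l) (k' l) (e' l) (fun i => (vec e u i : K)) ≤
        t * (η * Real.log B) := by
      refine (Finset.sum_le_sum fun l _ => (hg3 l).2).trans (le_of_eq ?_)
      rw [Finset.sum_const, Finset.card_univ, Fintype.card_fin, nsmul_eq_mul]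
    calc _ ≤ Λ * (t * (η * Real.log B)) := mul_le_mul_of_nonneg_left h1 hΛ
      _ = _ := by ring
  have hIs2 : Λ * (t * η) * Real.log B ≤ d * (Δ / 8) * Real.log B :=
    mul_le_mul_of_nonneg_right hηd hlogB
  have hH := logHeight_le (vec e u) (X := A₀ * B) (one_le_mul_of_one_le_of_one_le hA₀ hB1)
    (fun w i => hsize B hB _ (mem_sbox.1 (vec_mem e hu) i) w)
  rw [Real.log_mul (by linarith) hBpos.ne'] at hH
  have hH2 := mul_le_mul_of_nonneg_left hH hθ0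
  have hB2 := hB₀ B hBB
  have h9 : (d : ℝ) * Real.log c ≤ d * (Δ / 8 * Real.log B) := mul_le_mul_of_nonneg_left hlogc hd0.le
  have h10 : (d : ℝ) * θ₁ * Real.log B = θ * (d * Real.log B) + d * (Δ / 2) * Real.log B := by
    rw [hθ₁]; ring
  have h11 : θ * (d * (Real.log A₀ + Real.log B)) = θ * (d * Real.log A₀) + θ * (d * Real.log B) := by
    ring
  rw [← hd] at hH2 hT
  rw [h11] at hH2
  have h12 : (d : ℝ) * (Δ / 8 * Real.log B) = d * (Δ / 8) * Real.log B := by ring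
  have h13 : (d : ℝ) * (Δ / 2) * Real.log B = d * (Δ / 8) * Real.log B + d * (Δ / 8) * Real.log B +
      d * (Δ / 4) * Real.log B := by ring
  linarith

/-- few integers in a window -/
lemma window_nat (T : ℕ) (hT : 1 ≤ T) (x κ : ℝ) (hκ : 0 ≤ κ) (P : Finset ℕ)
    (hP : ∀ v ∈ P, 1 ≤ v ∧ v ≤ T ∧ |x - v| ≤ (v : ℝ) ^ κ) : (P.card : ℝ) ≤ 3 * (T : ℝ) ^ κ := by
  have hT1 : (1 : ℝ) ≤ T := by exact_mod_cast hT
  have hTκ : (1 : ℝ) ≤ (T : ℝ) ^ κ := Real.one_le_rpow hT1 hκ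
  rcases P.eq_empty_or_nonempty with he | he
  · rw [he, Finset.card_empty, Nat.cast_zero]
    positivity
  · obtain ⟨v0, hv0⟩ : ∃ v0, v0 = P.min' he := ⟨_, rfl⟩
    have hv0m : v0 ∈ P := by rw [hv0]; exact Finset.min'_mem _ _
    obtain ⟨g1, g2, g3⟩ := hP v0 hv0m
    have hle : ∀ v : ℕ, 1 ≤ v → v ≤ T → (v : ℝ) ^ κ ≤ (T : ℝ) ^ κ := by
      intro v h1 h2
      apply Real.rpow_le_rpow (Nat.cast_nonneg _) (by exact_mod_cast h2) hκ
    have hs : P ⊆ Finset.Icc v0 (v0 + ⌊2 * (T : ℝ) ^ κ⌋₊) := by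
      intro v hv
      have h1 : v0 ≤ v := by rw [hv0]; exact Finset.min'_le _ _ hv
      rw [Finset.mem_Icc]
      refine ⟨h1, ?_⟩
      obtain ⟨k1, k2, k3⟩ := hP v hv
      have h2 := abs_le.1 (k3.trans (hle v k1 k2))
      have h3 := abs_le.1 (g3.trans (hle v0 g1 g2))
      have h4 : ((v - v0 : ℕ) : ℝ) ≤ 2 * (T : ℝ) ^ κ := by
        rw [Nat.cast_sub h1]
        linarith [h2.1, h3.2]
      have := Nat.le_floor h4
      omega
    have h5 := Finset.card_le_card hs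
    rw [Nat.card_Icc] at h5
    have h6 : (P.card : ℝ) ≤ (⌊2 * (T : ℝ) ^ κ⌋₊ : ℝ) + 1 := by
      have : P.card ≤ ⌊2 * (T : ℝ) ^ κ⌋₊ + 1 := by omega
      exact_mod_cast this
    have h7 := Nat.floor_le (by positivity : (0 : ℝ) ≤ 2 * (T : ℝ) ^ κ)
    linarith

open Pool.Agent.N733.TG (LM keep_tuples2)

/-- vectors near the values of multiplicative functions avoid a sparse set -/
theorem keep_sparse {M : ℕ} {bad : (Fin (M + 1) → ℤ) → Prop} (hbad : Sparse (M + 1) (fun _ u => bad u)) :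
    ∃ κ : ℝ, 0 < κ ∧ ∀ f : Fin (M + 1) → ℕ → ℕ, (∀ z, LM (f z)) → ∀ U : ℕ, ∃ N₀ : ℕ, ∀ N : ℕ, N₀ ≤ N →
      ({m : Fin (M + 1) → ℕ | (∀ z, 1 ≤ m z ∧ m z ≤ N) ∧ ¬ ∀ u : Fin (M + 1) → ℤ,
        (∀ z, |(u z : ℝ) - f z (m z)| ≤ (f z (m z) : ℝ) ^ κ) → ¬ bad u}.ncard : ℝ) ≤
          (N : ℝ) ^ (M + 1) / Real.log N ^ U := by
  obtain ⟨c', hc', C, hC, hcount'⟩ := hbad
  obtain ⟨c, hc⟩ : ∃ c : ℝ, c = min c' 1 := ⟨_, rfl⟩
  have hc0 : 0 < c := by rw [hc]; exact lt_min hc' one_pos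
  have hc1 : c ≤ 1 := by rw [hc]; exact min_le_right _ _
  have hcc : c ≤ c' := by rw [hc]; exact min_le_left _ _
  have hcount : ∀ B : ℕ, 1 ≤ B → (Set.ncard {x | x ∈ box (M + 1) B ∧ bad x} : ℝ) ≤
      C * (B : ℝ) ^ (((M + 1 : ℕ) : ℝ) - c) := fun B hB => by
    have hB1 : (1 : ℝ) ≤ B := by exact_mod_cast hB
    refine (hcount' B hB).trans (mul_le_mul_of_nonneg_left ?_ hC.le)
    exact Real.rpow_le_rpow_of_exponent_le hB1 (by linarith)
  have hM1 : (1 : ℝ) ≤ ((M + 1 : ℕ) : ℝ) := by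
    push_cast
    have : (0 : ℝ) ≤ M := Nat.cast_nonneg M
    linarith
  obtain ⟨κ, hκ⟩ : ∃ κ : ℝ, κ = c / (2 * ((M + 1 : ℕ) : ℝ)) := ⟨_, rfl⟩
  have hκ0 : 0 < κ := by rw [hκ]; positivity
  have hκ1 : κ ≤ 1 := by
    rw [hκ, div_le_one (by positivity)]
    linarith
  have hκM : κ * ((M + 1 : ℕ) : ℝ) = c / 2 := by
    rw [hκ]
    field_simp
  refine ⟨κ, hκ0, fun f hf U => ?_⟩
  obtain ⟨N₀, hN₀⟩ := keep_tuples2 (k := M + 1) (by omega) hf (c := c / 2) (by positivity) U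
    (C * 2 ^ (((M + 1 : ℕ) : ℝ) - c) * 3 ^ (M + 1))
  refine ⟨N₀, fun N hN => ?_⟩
  obtain ⟨W, hW⟩ : ∃ W : Set (Fin (M + 1) → ℕ), W = {w | ∃ u : Fin (M + 1) → ℤ,
    (∀ z, |(u z : ℝ) - w z| ≤ (w z : ℝ) ^ κ) ∧ bad u} := ⟨_, rfl⟩
  have h1 := hN₀ N hN W (fun X hX => ?_)
  · refine le_trans ?_ h1
    have hfin : {m : Fin (M + 1) → ℕ | (∀ i, 1 ≤ m i ∧ m i ≤ N) ∧
        ¬ ((∀ i, 2 ≤ f i (m i)) ∧ (fun i => f i (m i)) ∉ W)}.Finite := by
      refine (Set.Finite.pi' (fun _ : Fin (M + 1) => Set.finite_Icc 1 N)).subset ?_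
      intro m hm i
      exact hm.1 i
    have hsub : {m : Fin (M + 1) → ℕ | (∀ z, 1 ≤ m z ∧ m z ≤ N) ∧ ¬ ∀ u : Fin (M + 1) → ℤ,
        (∀ z, |(u z : ℝ) - f z (m z)| ≤ (f z (m z) : ℝ) ^ κ) → ¬ bad u} ⊆
        {m : Fin (M + 1) → ℕ | (∀ i, 1 ≤ m i ∧ m i ≤ N) ∧
        ¬ ((∀ i, 2 ≤ f i (m i)) ∧ (fun i => f i (m i)) ∉ W)} := by
      rintro m ⟨h2, h3⟩
      push Not at h3
      obtain ⟨u, hu1, hu2⟩ := h3
      refine ⟨h2, fun h6 => h6.2 ?_⟩
      rw [hW]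
      exact ⟨u, hu1, hu2⟩
    exact_mod_cast Set.ncard_le_ncard hsub hfin
  · have hX1 : (1 : ℝ) ≤ X := by exact_mod_cast hX
    have hXκ : (1 : ℝ) ≤ (X : ℝ) ^ κ := Real.one_le_rpow hX1 hκ0.le
    have hfinB : {x | x ∈ box (M + 1) (2 * X) ∧ bad x}.Finite := finite_sub (M + 1) (2 * X) bad
    obtain ⟨V, hV⟩ : ∃ V : (Fin (M + 1) → ℤ) → Finset (Fin (M + 1) → ℕ),
        V = fun u => (Fintype.piFinset fun z : Fin (M + 1) =>
          (Finset.Icc 1 X).filter (fun v : ℕ => |(u z : ℝ) - v| ≤ (v : ℝ) ^ κ)) := ⟨_, rfl⟩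
    have hsub : {w : Fin (M + 1) → ℕ | (∀ i, 2 ≤ w i ∧ w i ≤ X) ∧ w ∈ W} ⊆
        ((hfinB.toFinset.biUnion V : Finset (Fin (M + 1) → ℕ)) : Set (Fin (M + 1) → ℕ)) := by
      rintro w ⟨hw1, hw2⟩
      rw [hW] at hw2
      obtain ⟨u, hu1, hu2⟩ := hw2
      rw [Finset.mem_coe, Finset.mem_biUnion]
      refine ⟨u, ?_, ?_⟩
      · rw [Set.Finite.mem_toFinset]
        refine ⟨mem_box.2 fun z => ?_, hu2⟩
        have hwr : (1 : ℝ) ≤ w z := by exact_mod_cast (by have := (hw1 z).1; omega : 1 ≤ w z)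
        have hwX : (w z : ℝ) ≤ X := by exact_mod_cast (hw1 z).2
        have e1 : (w z : ℝ) ^ κ ≤ w z := by
          calc (w z : ℝ) ^ κ ≤ (w z : ℝ) ^ (1 : ℝ) := Real.rpow_le_rpow_of_exponent_le hwr hκ1
            _ = w z := Real.rpow_one _
        have e2 := hu1 z
        have e3 : |(u z : ℝ)| ≤ 2 * X := by
          calc |(u z : ℝ)| = |((u z : ℝ) - w z) + w z| := by ring_nf
            _ ≤ |(u z : ℝ) - w z| + |(w z : ℝ)| := abs_add_le _ _
            _ ≤ w z + w z := by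
              rw [abs_of_nonneg (by linarith : (0 : ℝ) ≤ w z)]
              linarith
            _ ≤ _ := by linarith
        have e4 : ((|u z| : ℤ) : ℝ) ≤ (((2 * X : ℕ) : ℤ) : ℝ) := by
          push_cast
          exact e3
        exact_mod_cast e4
      · rw [hV, Fintype.mem_piFinset]
        intro z
        rw [Finset.mem_filter, Finset.mem_Icc]
        exact ⟨⟨by have := (hw1 z).1; omega, (hw1 z).2⟩, hu1 z⟩
    have hVc : ∀ u, ((V u).card : ℝ) ≤ 3 ^ (M + 1) * (X : ℝ) ^ (c / 2) := by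
      intro u
      rw [hV]
      simp only [Fintype.card_piFinset]
      push_cast
      calc ∏ z : Fin (M + 1), (((Finset.Icc 1 X).filter
            (fun v : ℕ => |(u z : ℝ) - v| ≤ (v : ℝ) ^ κ)).card : ℝ)
          ≤ ∏ _z : Fin (M + 1), (3 * (X : ℝ) ^ κ) := by
            refine Finset.prod_le_prod (fun _ _ => Nat.cast_nonneg _) fun z _ => ?_
            exact Pool.Agent.J4.H74.VojLM.window_nat X hX (u z) κ hκ0.le _ (fun v hv => by
              rw [Finset.mem_filter, Finset.mem_Icc] at hv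
              exact ⟨hv.1.1, hv.1.2, hv.2⟩)
        _ = (3 * (X : ℝ) ^ κ) ^ (M + 1) := by
            rw [Finset.prod_const, Finset.card_univ, Fintype.card_fin]
        _ = 3 ^ (M + 1) * (X : ℝ) ^ (c / 2) := by
            rw [mul_pow, ← hκM, Real.rpow_mul (by linarith), Real.rpow_natCast]
    have h2 := Set.ncard_le_ncard hsub (Finset.finite_toSet _)
    rw [Set.ncard_coe_finset] at h2
    have h3 : ((hfinB.toFinset.biUnion V).card : ℝ) ≤ ∑ u ∈ hfinB.toFinset, ((V u).card : ℝ) := by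
      exact_mod_cast Finset.card_biUnion_le
    have h4 : ({w : Fin (M + 1) → ℕ | (∀ i, 2 ≤ w i ∧ w i ≤ X) ∧ w ∈ W}.ncard : ℝ) ≤
        ∑ u ∈ hfinB.toFinset, 3 ^ (M + 1) * (X : ℝ) ^ (c / 2) :=
      le_trans (by exact_mod_cast h2) (h3.trans (Finset.sum_le_sum fun u _ => hVc u))
    rw [Finset.sum_const, nsmul_eq_mul, ← Set.ncard_eq_toFinset_card _ hfinB] at h4
    refine h4.trans ?_
    have h5 := hcount (2 * X) (by omega)
    push_cast at h5
    calc (Set.ncard {x | x ∈ box (M + 1) (2 * X) ∧ bad x} : ℝ) * (3 ^ (M + 1) * (X : ℝ) ^ (c / 2))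
        ≤ (C * (2 * (X : ℝ)) ^ ((M : ℝ) + 1 - c)) * (3 ^ (M + 1) * (X : ℝ) ^ (c / 2)) :=
          mul_le_mul_of_nonneg_right h5 (by positivity)
      _ = C * 2 ^ ((M : ℝ) + 1 - c) * 3 ^ (M + 1) * ((X : ℝ) ^ ((M : ℝ) + 1 - c) * (X : ℝ) ^ (c / 2)) := by
          rw [Real.mul_rpow (by norm_num) (by linarith)]
          ring
      _ = C * 2 ^ (((M + 1 : ℕ) : ℝ) - c) * 3 ^ (M + 1) * (X : ℝ) ^ (((M + 1 : ℕ) : ℝ) - c / 2) := by
          rw [← Real.rpow_add (by linarith)]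
          push_cast
          congr 2
          ring

/-- **Vectors near the values of multiplicative functions.** -/
theorem vojta_lm (hn : 1 ≤ n)
    (F : Fin q → MvPolynomial (Fin (n + 1)) (𝓞 K)) (k m : Fin q → ℕ)
    (hhom : ∀ j, (F j).IsHomogeneous (k j)) (hirr : ∀ j, Irreducible (toK (F j)))
    (hdist : ∀ i j, i ≠ j → ¬ Associated (toK (F i)) (toK (F j)))
    (hm : ∀ j, m j ≤ 1 ∨ (m j ≤ k j ∧ k j ≤ 2) ∨ IsNormForm (F j) (m j))
    (S : Finset ℕ) (hS : ∀ p ∈ S, p.Prime)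
    {t : ℕ} (F' G' : Fin t → MvPolynomial (Fin (n + 1)) (𝓞 K)) (k' e' : Fin t → ℕ)
    (hF' : ∀ l, (F' l).IsHomogeneous (k' l))
    (hirr' : ∀ l, Irreducible (toK (F' l))) (hcop : ∀ l, ¬ toK (F' l) ∣ toK (G' l))
    (Λ : ℝ) (hΛ : 0 ≤ Λ) (θ : ℝ) (hθ0 : 0 ≤ θ) (hθ : θ < ∑ j, (m j : ℝ)) :
    ∃ κ : ℝ, 0 < κ ∧ ∀ f : Fin (n + 1) × Idx K → ℕ → ℕ, (∀ z, LM (f z)) → ∀ U : ℕ,
      ∃ N₀ : ℕ, ∀ N : ℕ, N₀ ≤ N →
        ({a : Fin (n + 1) × Idx K → ℕ | (∀ z, 1 ≤ a z ∧ a z ≤ N) ∧ ¬ ∀ y : Fin (n + 1) → 𝓞 K,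
          (∀ i l, |(((RingOfIntegers.basis K).repr (y i) l : ℤ) : ℝ) - f (i, l) (a (i, l))| ≤
            (f (i, l) (a (i, l)) : ℝ) ^ κ) →
          Good S F k F' G' k' e' Λ θ y}.ncard : ℝ) ≤
            (N : ℝ) ^ ((n + 1) * Module.finrank ℚ K) / Real.log N ^ U := by
  have hd1 : 1 ≤ Module.finrank ℚ K := Module.finrank_pos (R := ℚ) (M := K)
  obtain ⟨M, hM⟩ : ∃ M, (n + 1) * Module.finrank ℚ K = M + 1 := by
    have : 0 < (n + 1) * Module.finrank ℚ K := Nat.mul_pos (Nat.succ_pos n) hd1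
    exact ⟨(n + 1) * Module.finrank ℚ K - 1, by omega⟩
  have hcardE : Fintype.card (Fin (n + 1) × Idx K) = M + 1 := by
    rw [Fintype.card_prod, Fintype.card_fin, card_idx, ← hM]
  let e : Fin (n + 1) × Idx K ≃ Fin (M + 1) := Fintype.equivFinOfCardEq hcardE
  obtain ⟨κ, hκ, h⟩ := keep_sparse (sparse_vojta hn e F k m hhom hirr hdist hm S hS F' G' k' e' hF' hirr' hcop
    Λ hΛ θ hθ0 hθ)
  refine ⟨κ, hκ, fun f hf U => ?_⟩
  obtain ⟨N₀, hN₀⟩ := h (fun z => f (e.symm z)) (fun z => hf _) U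
  refine ⟨N₀, fun N hN => ?_⟩
  rw [hM]
  refine le_trans ?_ (hN₀ N hN)
  have hfin : {m : Fin (M + 1) → ℕ | (∀ z, 1 ≤ m z ∧ m z ≤ N) ∧ ¬ ∀ u : Fin (M + 1) → ℤ,
      (∀ z, |(u z : ℝ) - f (e.symm z) (m z)| ≤ (f (e.symm z) (m z) : ℝ) ^ κ) →
        ¬ ¬ Good S F k F' G' k' e' Λ θ (vec e u)}.Finite := by
    refine (Set.Finite.pi' (fun _ : Fin (M + 1) => Set.finite_Icc 1 N)).subset ?_
    intro m hm i
    exact hm.1 i
  have hle := Set.ncard_le_ncard_of_injOn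
    (s := {a : Fin (n + 1) × Idx K → ℕ | (∀ z, 1 ≤ a z ∧ a z ≤ N) ∧ ¬ ∀ y : Fin (n + 1) → 𝓞 K,
          (∀ i l, |(((RingOfIntegers.basis K).repr (y i) l : ℤ) : ℝ) - f (i, l) (a (i, l))| ≤
            (f (i, l) (a (i, l)) : ℝ) ^ κ) →
          Good S F k F' G' k' e' Λ θ y}) (fun a z => a (e.symm z)) ?_ ?_ hfin
  · exact_mod_cast hle
  · rintro a ⟨h1, h2⟩
    refine ⟨fun z => h1 _, fun h3 => h2 fun y hy => ?_⟩
    set u : Fin (M + 1) → ℤ := fun z =>
      (RingOfIntegers.basis K).repr (y (e.symm z).1) (e.symm z).2 with hu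
    have hvec : vec e u = y := by
      funext i
      rw [vec, hu]
      simp only [Equiv.symm_apply_apply]
      have h4 := (RingOfIntegers.basis K).sum_repr (y i)
      conv_rhs => rw [← h4]
      exact Finset.sum_congr rfl fun l _ => by rw [zsmul_eq_mul]
    have h5 := h3 u (fun z => by
      have h6 := hy (e.symm z).1 (e.symm z).2
      exact h6)
    rw [not_not, hvec] at h5
    exact h5
  · intro a _ b _ hab
    funext z
    have := congrFun hab (e z)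
    simpa using this

end Pool.Agent.J4.H74.VojLM
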