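import Mathlib
import Pool.Agent.J4.H74.VojLM
import Pool.Agent.TH905.VF.Prox

set_option autoImplicit false

/-!
Algebraic points of the covers `y_0 ^ m : … : y_{q-1} ^ m = F_0(x) : … : F_{q-1}(x)` above the integral
vectors `x` near the values of multiplicative functions (helper74).
-/

namespace Pool.Agent.J4.H74.FermLM

open MvPolynomial NumberField IsDedekindDomain Pool.Agent.TH910.Voj Pool.Agent.H813R3.Voj
  Pool.Agent.R366.NF Pool.Agent.J4.H74.VojLM Pool.Agent.TH905.VF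
open Pool.Agent.H691R3 (fv fv_na fv_apply fv_support_finite)

open scoped Classical

variable {K : Type} [Field K] [NumberField K] {n N q : ℕ}

/-- the inequality at the point with integral coordinates `y`, with a constant -/
def GoodC (S : Finset ℕ) (F : Fin q → MvPolynomial (Fin (n + 1)) (𝓞 K)) (k : Fin q → ℕ) (θ C₀ : ℝ)
    (y : Fin (n + 1) → 𝓞 K) : Prop :=
  (∀ j, eval y (F j) ≠ 0) ∧
    θ * Height.logHeight (fun i => (y i : K)) + C₀ ≤ truncatedCount S F k (fun i => (y i : K))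

/-- **almost all integral vectors** -/
theorem sparse_vojtaC (hn : 1 ≤ n) (e : Fin (n + 1) × Idx K ≃ Fin (N + 1))
    (F : Fin q → MvPolynomial (Fin (n + 1)) (𝓞 K)) (k m : Fin q → ℕ)
    (hhom : ∀ j, (F j).IsHomogeneous (k j)) (hirr : ∀ j, Irreducible (toK (F j)))
    (hdist : ∀ i j, i ≠ j → ¬ Associated (toK (F i)) (toK (F j)))
    (hm : ∀ j, m j ≤ 1 ∨ (m j ≤ k j ∧ k j ≤ 2) ∨ IsNormForm (F j) (m j))
    (S : Finset ℕ) (hS : ∀ p ∈ S, p.Prime)
    (θ C₀ : ℝ) (hθ0 : 0 ≤ θ) (hθ : θ < ∑ j, (m j : ℝ)) :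
    Sparse (N + 1) (fun _ u => ¬ GoodC S F k θ C₀ (vec e u)) := by
  set d : ℕ := Module.finrank ℚ K with hd
  have hd1 : 1 ≤ d := Module.finrank_pos (R := ℚ) (M := K)
  have hd0 : (0 : ℝ) < d := by exact_mod_cast hd1
  have hfew : ∀ j, FewCoincidences (normPoly (weil e (F j))) (d * m j) := by
    intro j
    have h1 : m j ≤ 1 → FewCoincidences (normPoly (weil e (F j))) (d * m j) := fun h =>
      few_norm ((few_any_nf e (F j) (hirr j)).mono (by nlinarith))
    rcases hm j with h | h | h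
    · exact h1 h
    · by_cases h2 : m j ≤ 1
      · exact h1 h2
      · have h3 : m j = 2 := by omega
        have h4 : k j = 2 := by omega
        rw [h3]
        exact few_norm (few_two_nf e (F j) (h4 ▸ hhom j) (hirr j))
    · exact few_normform e (F j) (m j) h
  set Δ : ℝ := (∑ j, (m j : ℝ)) - θ with hΔ
  have hΔ0 : 0 < Δ := by rw [hΔ]; linarith
  set θ₁ : ℝ := θ + Δ / 2 with hθ₁
  have hspT := sparse_trunc (fun j => weil e (F j)) k (fun j => d * m j)
    (fun j => weil_hom e (hhom j)) (fun j => weil_irreducible e (hirr j))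
    (fun i j hij h => hdist i j hij (by
      have h1 : toK (F i) ∣ toK (F j) := weil_dvd e h.dvd
      exact (hirr i).associated_of_dvd (hirr j) h1)) hfew S hS (d * θ₁) (by
      push_cast
      rw [← Finset.mul_sum]
      refine mul_lt_mul_of_pos_left ?_ hd0
      rw [hθ₁, hΔ]
      linarith)
  have hspC := sparse_content (K := K) hn e (ε := Δ / 8) (by positivity)
  obtain ⟨A₀, hA₀, hsize⟩ := exists_size K
  have hLA : 0 ≤ Real.log A₀ := Real.log_nonneg hA₀
  obtain ⟨B₀, hB₀⟩ : ∃ B₀ : ℕ, ∀ B : ℕ, B₀ ≤ B →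
      θ * (d * Real.log A₀) + C₀ ≤ d * (Δ / 4) * Real.log B := by
    have h1 : Filter.Tendsto (fun B : ℕ => d * (Δ / 4) * Real.log B) Filter.atTop Filter.atTop :=
      (Real.tendsto_log_atTop.comp tendsto_natCast_atTop_atTop).const_mul_atTop (by positivity)
    exact Filter.eventually_atTop.mp (h1.eventually_ge_atTop (θ * (d * Real.log A₀) + C₀))
  refine (hspT.or hspC).of_eventually B₀ ?_
  intro B u hBB hB hu hbad
  by_contra hgood
  rw [not_or] at hgood
  obtain ⟨hg12, hg4⟩ := hgood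
  obtain ⟨hg1, hg2⟩ := not_or.1 hg12
  push Not at hg1 hg2 hg4
  obtain ⟨c, hc0, hcB, hcm⟩ := hg4
  simp only [val_weil] at hg1 hg2
  apply hbad
  refine ⟨hg1, ?_⟩
  have hB1 : (1 : ℝ) ≤ B := by exact_mod_cast hB
  have hBpos : (0 : ℝ) < B := by linarith
  have hlogB : 0 ≤ Real.log B := Real.log_nonneg hB1
  have hT := trunc_transfer S F k (vec e u) hg1 c hc0 hcm
  have hlogc : Real.log c ≤ Δ / 8 * Real.log B := by
    rw [← Real.log_rpow hBpos]
    exact Real.log_le_log (by exact_mod_cast hc0) hcB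
  have hH := logHeight_le (vec e u) (X := A₀ * B) (one_le_mul_of_one_le_of_one_le hA₀ hB1)
    (fun w i => hsize B hB _ (mem_sbox.1 (vec_mem e hu) i) w)
  rw [Real.log_mul (by linarith) hBpos.ne'] at hH
  have hH2 := mul_le_mul_of_nonneg_left hH hθ0
  have hB2 := hB₀ B hBB
  have h9 : (d : ℝ) * Real.log c ≤ d * (Δ / 8 * Real.log B) := mul_le_mul_of_nonneg_left hlogc hd0.le
  have h10 : (d : ℝ) * θ₁ * Real.log B = θ * (d * Real.log B) + d * (Δ / 2) * Real.log B := by
    rw [hθ₁]; ring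
  have h11 : θ * (d * (Real.log A₀ + Real.log B)) = θ * (d * Real.log A₀) + θ * (d * Real.log B) := by
    ring
  rw [← hd] at hH2 hT
  rw [h11] at hH2
  have h12 : (d : ℝ) * (Δ / 8 * Real.log B) = d * (Δ / 8) * Real.log B := by ring
  have h13 : (d : ℝ) * (Δ / 2) * Real.log B = d * (Δ / 8) * Real.log B + d * (Δ / 8) * Real.log B +
      d * (Δ / 4) * Real.log B := by ring
  have h14 : 0 ≤ d * (Δ / 8) * Real.log B := by positivity
  linarith

/-- a sum of `v`-integers -/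
lemma fv_sum_le_one (v : HeightOneSpectrum (𝓞 K)) {ι : Type*} (s : Finset ι) (g : ι → K)
    (h : ∀ i ∈ s, fv v (g i) ≤ 1) : fv v (∑ i ∈ s, g i) ≤ 1 := by
  induction s using Finset.induction_on with
  | empty => simp
  | insert a s ha ih =>
    rw [Finset.sum_insert ha]
    refine (fv_na v _ _).trans (max_le (h a (Finset.mem_insert_self _ _)) (ih fun i hi =>
      h i (Finset.mem_insert_of_mem hi)))

/-- a sum is at most the largest summand -/
lemma fv_sum_exists (v : HeightOneSpectrum (𝓞 K)) {ι : Type*} (s : Finset ι) (g : ι → K) (c : ℝ)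
    (hc : 0 < c) (h : c ≤ fv v (∑ i ∈ s, g i)) : ∃ i ∈ s, c ≤ fv v (g i) := by
  by_contra hcon
  push Not at hcon
  have h2 : fv v (∑ i ∈ s, g i) < c := by
    clear h
    induction s using Finset.induction_on with
    | empty => simpa using hc
    | insert a s ha ih =>
      rw [Finset.sum_insert ha]
      refine (fv_na v _ _).trans_lt (max_lt (hcon a (Finset.mem_insert_self _ _)) (ih fun i hi =>
        hcon i (Finset.mem_insert_of_mem hi)))
  linarith

lemma fv_eval_le_one (v : HeightOneSpectrum (𝓞 K)) (p : MvPolynomial (Fin (n + 1)) K)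
    (hp : ∀ s ∈ p.support, fv v (coeff s p) ≤ 1) (x : Fin (n + 1) → K) (hx : ∀ i, fv v (x i) ≤ 1) :
    fv v (eval x p) ≤ 1 := by
  rw [eval_eq]
  refine fv_sum_le_one v _ _ fun s hs => ?_
  rw [map_mul, map_prod]
  refine mul_le_one₀ (hp s hs) (Finset.prod_nonneg fun i _ => (fv v).nonneg _) ?_
  refine Finset.prod_le_one (fun i _ => (fv v).nonneg _) fun i _ => ?_
  rw [map_pow]
  exact pow_le_one₀ ((fv v).nonneg _) (hx i)

/-- the forms have no common zero modulo almost all primes -/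
lemma exists_bad (F : Fin q → MvPolynomial (Fin (n + 1)) (𝓞 K)) (k : ℕ)
    (hhom : ∀ j, (F j).IsHomogeneous k)
    (hnull : ∀ i, (X i : MvPolynomial (Fin (n + 1)) K) ∈
      (Ideal.span (Set.range fun j => toK (F j))).radical) :
    ∃ T : Finset (HeightOneSpectrum (𝓞 K)), ∀ v ∉ T, ∀ x : Fin (n + 1) → K, x ≠ 0 →
      ∃ j, (⨆ i, FinitePlace.mk v (x i)) ^ k ≤ fv v (aeval x (F j)) := by
  have h1 : ∀ i : Fin (n + 1), ∃ (r : ℕ) (A : Fin q → MvPolynomial (Fin (n + 1)) K),
      ∑ j, A j * toK (F j) = X i ^ r := by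
    intro i
    obtain ⟨r, hr⟩ := hnull i
    obtain ⟨A, hA⟩ := (Ideal.mem_span_range_iff_exists_fun).1 hr
    exact ⟨r, A, hA⟩
  choose r A hA using h1
  have hfin : (⋃ i : Fin (n + 1), ⋃ j : Fin q, ⋃ s ∈ (A i j).support,
      {v : HeightOneSpectrum (𝓞 K) | fv v (coeff s (A i j)) ≠ 1}).Finite := by
    refine Set.finite_iUnion fun i => Set.finite_iUnion fun j => Set.Finite.biUnion
      (Finset.finite_toSet _) fun s hs => fv_support_finite ?_
    exact mem_support_iff.1 hs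
  refine ⟨hfin.toFinset, fun v hv x hx => ?_⟩
  rw [Set.Finite.mem_toFinset] at hv
  have hcoef : ∀ i j, ∀ s ∈ (A i j).support, fv v (coeff s (A i j)) ≤ 1 := by
    intro i j s hs
    by_contra hc
    apply hv
    simp only [Set.mem_iUnion]
    exact ⟨i, j, s, hs, fun h => hc h.le⟩
  -- the largest coordinate
  obtain ⟨i0, hi0⟩ : ∃ i0, (⨆ i, FinitePlace.mk v (x i)) = fv v (x i0) := by
    obtain ⟨i0, hi0⟩ := exists_eq_ciSup_of_finite (f := fun i => FinitePlace.mk v (x i))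
    exact ⟨i0, hi0.symm⟩
  have hle : ∀ i, fv v (x i) ≤ fv v (x i0) := by
    intro i
    rw [← hi0]
    exact Finite.le_ciSup (fun i => FinitePlace.mk v (x i)) i
  have hx0 : x i0 ≠ 0 := by
    intro h0
    apply hx
    funext i
    have h2 := hle i
    rw [h0, map_zero] at h2
    exact (fv v).eq_zero.1 (le_antisymm h2 ((fv v).nonneg _))
  have hpos : 0 < fv v (x i0) := (fv v).pos hx0
  have h2 := congrArg (eval ((x i0)⁻¹ • x)) (hA i0)
  rw [map_sum, map_pow, eval_X] at h2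
  have h3 : ((x i0)⁻¹ • x) i0 = 1 := by
    rw [Pi.smul_apply, smul_eq_mul, inv_mul_cancel₀ hx0]
  rw [h3, one_pow] at h2
  have h4 : (1 : ℝ) ≤ fv v (∑ j, eval ((x i0)⁻¹ • x) (A i0 j * toK (F j))) := by
    rw [h2, map_one]
  obtain ⟨j, -, hj⟩ := fv_sum_exists v _ _ 1 one_pos h4
  rw [map_mul, map_mul] at hj
  have h5 : fv v (eval ((x i0)⁻¹ • x) (A i0 j)) ≤ 1 := by
    refine fv_eval_le_one v _ (hcoef i0 j) _ fun i => ?_
    rw [Pi.smul_apply, smul_eq_mul, map_mul, map_inv₀, inv_mul_le_iff₀ hpos, mul_one]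
    exact hle i
  have h6 : eval ((x i0)⁻¹ • x) (toK (F j)) = ((x i0)⁻¹) ^ k * aeval x (F j) := by
    rw [← aeval_smul (F j) (hhom j), toK, eval_map, aeval_def]
  refine ⟨j, ?_⟩
  rw [hi0]
  rw [h6, map_mul, map_pow, map_inv₀] at hj
  have h7 : (1 : ℝ) ≤ (fv v (x i0))⁻¹ ^ k * fv v (aeval x (F j)) := by
    refine hj.trans (mul_le_of_le_one_left ?_ h5)
    exact mul_nonneg (pow_nonneg (inv_nonneg.2 hpos.le) _) ((fv v).nonneg _)
  rw [inv_pow, ← div_eq_inv_mul, le_div_iff₀ (pow_pos hpos k), one_mul] at h7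
  exact h7

/-- a rational prime below a prime -/
lemma exists_below_prime (v : HeightOneSpectrum (𝓞 K)) : ∃ p : ℕ, p.Prime ∧ (p : 𝓞 K) ∈ v.asIdeal := by
  have h1 : ((Ideal.absNorm v.asIdeal : ℕ) : 𝓞 K) ∈ v.asIdeal := Ideal.absNorm_mem _
  have h0 : Ideal.absNorm v.asIdeal ≠ 0 := by
    rw [Ne, Ideal.absNorm_eq_zero_iff]
    exact v.ne_bot
  have hp := v.isPrime
  rw [← Nat.prod_primeFactorsList h0, Nat.cast_list_prod, ← Multiset.prod_coe] at h1
  obtain ⟨a, ha, ha2⟩ := (hp.multiset_prod_mem_iff_exists_mem _).1 h1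
  obtain ⟨p, hp1, rfl⟩ := List.mem_map.1 (Multiset.mem_coe.1 ha)
  exact ⟨p, Nat.prime_of_mem_primeFactorsList hp1, ha2⟩

/-- the violation of the inequality above a point with the values `x` -/
def Viol (S : Finset (HeightOneSpectrum (𝓞 K))) (θ c : ℝ) (x : Fin q → K) : Prop :=
  ∃ (m : ℕ) (L : Type) (_ : Field L) (_ : NumberField L) (_ : Algebra K L) (y : Fin q → L) (t : L),
    1 ≤ m ∧ t ≠ 0 ∧ (∀ i, y i ^ m = t * algebraMap K L (x i)) ∧
      ld K L + c < (θ * m - q) * ht K y + prox S y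

/-- **almost all integral vectors, all algebraic points above them** -/
theorem sparse_ferm (hn : 1 ≤ n) (e : Fin (n + 1) × Idx K ≃ Fin (N + 1))
    (F : Fin q → MvPolynomial (Fin (n + 1)) (𝓞 K)) (k : ℕ) (m : Fin q → ℕ)
    (hhom : ∀ j, (F j).IsHomogeneous k) (hirr : ∀ j, Irreducible (toK (F j)))
    (hdist : ∀ i j, i ≠ j → ¬ Associated (toK (F i)) (toK (F j)))
    (hm : ∀ j, m j ≤ 1 ∨ (m j ≤ k ∧ k ≤ 2) ∨ IsNormForm (F j) (m j))
    (hnull : ∀ i, (X i : MvPolynomial (Fin (n + 1)) K) ∈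
      (Ideal.span (Set.range fun j => toK (F j))).radical)
    (S : Finset (HeightOneSpectrum (𝓞 K)))
    (θ c : ℝ) (hθ0 : 0 ≤ θ) (hθ : θ * k < ∑ j, (m j : ℝ)) :
    Sparse (N + 1) (fun _ u => ¬ ((∀ j, eval (vec e u) (F j) ≠ 0) ∧
      ¬ Viol S θ c (fun j => ((eval (vec e u) (F j) : 𝓞 K) : K)))) := by
  have hq : 0 < q := by
    rcases Nat.eq_zero_or_pos q with h | h
    · subst h
      exfalso
      obtain ⟨r, hr⟩ := hnull 0
      rw [Set.range_eq_empty, Ideal.span_empty, Ideal.mem_bot] at hr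
      exact pow_ne_zero r (X_ne_zero (R := K) (0 : Fin (n + 1))) hr
    · exact h
  obtain ⟨T, hT⟩ := exists_bad F k hhom hnull
  choose pr hpr1 hpr2 using fun v : HeightOneSpectrum (𝓞 K) => exists_below_prime v
  obtain ⟨C, hC⟩ := Height.logHeight_eval_le' (K := K) (p := fun j => toK (F j)) (N := k)
    (fun j => (hhom j).map _)
  have hsp := sparse_vojtaC hn e F (fun _ => k) m hhom hirr hdist hm ((S ∪ T).image pr)
    (by
      intro p hp
      obtain ⟨v, -, rfl⟩ := Finset.mem_image.1 hp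
      exact hpr1 v) (θ * k) (θ * C - c) (by positivity) hθ
  refine hsp.mono ?_
  intro B u _ _ hbad hgood
  apply hbad
  obtain ⟨hg1, hg2⟩ := hgood
  refine ⟨hg1, ?_⟩
  set x : Fin (n + 1) → K := fun i => (vec e u i : K) with hx
  have hFx : ∀ j, aeval x (F j) = ((eval (vec e u) (F j) : 𝓞 K) : K) := fun j => aeval_coe _ _
  have hFx0 : ∀ j, ((eval (vec e u) (F j) : 𝓞 K) : K) ≠ 0 := by
    intro j h
    exact hg1 j (by exact_mod_cast h)
  have hk0 : k ≠ 0 := by
    rintro rfl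
    have h1 : (toK (F ⟨0, hq⟩)).IsHomogeneous 0 := (hhom ⟨0, hq⟩).map _
    have h2 := totalDegree_eq_zero_iff_eq_C.1 ((totalDegree_zero_iff_isHomogeneous _).2 h1)
    have h3 := hirr ⟨0, hq⟩
    rw [h2] at h3
    by_cases h4 : coeff 0 (toK (F ⟨0, hq⟩)) = 0
    · rw [h4, C_0] at h3
      exact h3.ne_zero rfl
    · exact h3.not_isUnit ((isUnit_iff_ne_zero.2 h4).map MvPolynomial.C)
  have hx0 : x ≠ 0 := by
    intro h1
    obtain ⟨j⟩ : Nonempty (Fin q) := ⟨⟨0, hq⟩⟩
    apply hFx0 j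
    have h3 := aeval_smul (F j) (hhom j) (0 : K) x
    rw [zero_smul, zero_pow hk0, zero_mul] at h3
    rw [← hFx j, h1]
    exact h3
  rintro ⟨m', L, _, _, _, y, t, hm', ht', hy, hv⟩
  have hyne : ∀ i, y i ≠ 0 := by
    intro i h0
    have h3 := hy i
    rw [h0, zero_pow (by omega)] at h3
    have h4 : algebraMap K L ((eval (vec e u) (F i) : 𝓞 K) : K) ≠ 0 := by
      rw [Ne, map_eq_zero]
      exact hFx0 i
    exact mul_ne_zero ht' h4 h3.symm
  -- the truncated counting function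
  have h1 : truncatedCount ((S ∪ T).image pr) F (fun _ => k) x ≤
      ld K L + q * ht K y - prox S y := by
    have hkey : ∀ R : Finset (HeightOneSpectrum (𝓞 K)),
        (∀ v ∈ R, (∀ p ∈ (S ∪ T).image pr, (p : 𝓞 K) ∉ v.asIdeal) ∧
          ∃ j, FinitePlace.mk v (aeval x (F j)) < (⨆ i, FinitePlace.mk v (x i)) ^ k) →
        ∑ v ∈ R, Real.log (Ideal.absNorm v.asIdeal) ≤ ld K L + q * ht K y - prox S y := by
      intro R hR
      have h2 := key' (k := K) hq m' (by omega) (fun j => ((eval (vec e u) (F j) : 𝓞 K) : K)) y hyne t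
        ht' hy S R (by
          intro v hvR
          obtain ⟨h3, j, hj⟩ := hR v hvR
          have hvn : v ∉ S ∪ T := by
            intro hvm
            exact h3 (pr v) (Finset.mem_image_of_mem _ hvm) (hpr2 v)
          rw [Finset.mem_union, not_or] at hvn
          refine ⟨hvn.1, ?_⟩
          obtain ⟨j', hj'⟩ := hT v hvn.2 x hx0
          refine ⟨j, j', ?_⟩
          rw [← hFx, ← hFx]
          exact lt_of_lt_of_le hj hj')
      linarith
    unfold truncatedCount
    by_cases hfin : (Function.support fun v : HeightOneSpectrum (𝓞 K) =>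
        if (∀ p ∈ (S ∪ T).image pr, (p : 𝓞 K) ∉ v.asIdeal) ∧
          ∃ j, FinitePlace.mk v (aeval x (F j)) < (⨆ i, FinitePlace.mk v (x i)) ^ k
        then Real.log (Ideal.absNorm v.asIdeal) else 0).Finite
    · rw [finsum_eq_sum _ hfin]
      refine le_trans (le_of_eq ?_) (hkey hfin.toFinset ?_)
      · refine Finset.sum_congr rfl fun v hv' => ?_
        rw [Set.Finite.mem_toFinset, Function.mem_support] at hv'
        by_contra hc
        apply hv'
        rw [if_neg]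
        intro hcc
        exact hc (if_pos hcc)
      · intro v hv'
        rw [Set.Finite.mem_toFinset, Function.mem_support] at hv'
        by_contra hc
        exact hv' (if_neg hc)
    · rw [finsum_of_infinite_support hfin]
      have := hkey ∅ (fun v hv' => absurd hv' (Finset.notMem_empty v))
      simpa using this
  have h4 := ht_pow (k := K) m' (fun j => ((eval (vec e u) (F j) : 𝓞 K) : K)) y t ht' hy
  have h5 := hC x
  have h6 : (fun j => eval x (toK (F j))) = fun j => ((eval (vec e u) (F j) : 𝓞 K) : K) := by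
    funext j
    rw [← hFx j, toK, eval_map, aeval_def]
  rw [h6, ← h4] at h5
  have h7 := mul_le_mul_of_nonneg_left h5 hθ0
  nlinarith

open Pool.Agent.N733.TG (LM)

/-- **Vectors near the values of multiplicative functions** and a property of almost all vectors. -/
theorem lm_of_sparse (P : (Fin (n + 1) → 𝓞 K) → Prop)
    (hP : ∀ (N : ℕ) (e : Fin (n + 1) × Idx K ≃ Fin (N + 1)),
      Sparse (N + 1) (fun _ u => ¬ P (vec e u))) :
    ∃ κ : ℝ, 0 < κ ∧ ∀ f : Fin (n + 1) × Idx K → ℕ → ℕ, (∀ z, LM (f z)) → ∀ U : ℕ,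
      ∃ N₀ : ℕ, ∀ N : ℕ, N₀ ≤ N →
        ({a : Fin (n + 1) × Idx K → ℕ | (∀ z, 1 ≤ a z ∧ a z ≤ N) ∧ ¬ ∀ y : Fin (n + 1) → 𝓞 K,
          (∀ i l, |(((RingOfIntegers.basis K).repr (y i) l : ℤ) : ℝ) - f (i, l) (a (i, l))| ≤
            (f (i, l) (a (i, l)) : ℝ) ^ κ) → P y}.ncard : ℝ) ≤
            (N : ℝ) ^ ((n + 1) * Module.finrank ℚ K) / Real.log N ^ U := by
  have hd1 : 1 ≤ Module.finrank ℚ K := Module.finrank_pos (R := ℚ) (M := K)
  obtain ⟨M, hM⟩ : ∃ M, (n + 1) * Module.finrank ℚ K = M + 1 := by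
    have : 0 < (n + 1) * Module.finrank ℚ K := Nat.mul_pos (Nat.succ_pos n) hd1
    exact ⟨(n + 1) * Module.finrank ℚ K - 1, by omega⟩
  have hcardE : Fintype.card (Fin (n + 1) × Idx K) = M + 1 := by
    rw [Fintype.card_prod, Fintype.card_fin, card_idx, ← hM]
  let e : Fin (n + 1) × Idx K ≃ Fin (M + 1) := Fintype.equivFinOfCardEq hcardE
  obtain ⟨κ, hκ, h⟩ := keep_sparse (hP M e)
  refine ⟨κ, hκ, fun f hf U => ?_⟩
  obtain ⟨N₀, hN₀⟩ := h (fun z => f (e.symm z)) (fun z => hf _) U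
  refine ⟨N₀, fun N hN => ?_⟩
  rw [hM]
  refine le_trans ?_ (hN₀ N hN)
  have hfin : {m : Fin (M + 1) → ℕ | (∀ z, 1 ≤ m z ∧ m z ≤ N) ∧ ¬ ∀ u : Fin (M + 1) → ℤ,
      (∀ z, |(u z : ℝ) - f (e.symm z) (m z)| ≤ (f (e.symm z) (m z) : ℝ) ^ κ) →
        ¬ ¬ P (vec e u)}.Finite := by
    refine (Set.Finite.pi' (fun _ : Fin (M + 1) => Set.finite_Icc 1 N)).subset ?_
    intro m hm i
    exact hm.1 i
  have hle := Set.ncard_le_ncard_of_injOn
    (s := {a : Fin (n + 1) × Idx K → ℕ | (∀ z, 1 ≤ a z ∧ a z ≤ N) ∧ ¬ ∀ y : Fin (n + 1) → 𝓞 K,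
          (∀ i l, |(((RingOfIntegers.basis K).repr (y i) l : ℤ) : ℝ) - f (i, l) (a (i, l))| ≤
            (f (i, l) (a (i, l)) : ℝ) ^ κ) → P y}) (fun a z => a (e.symm z)) ?_ ?_ hfin
  · exact_mod_cast hle
  · rintro a ⟨h1, h2⟩
    refine ⟨fun z => h1 _, fun h3 => h2 fun y hy => ?_⟩
    set u : Fin (M + 1) → ℤ := fun z =>
      (RingOfIntegers.basis K).repr (y (e.symm z).1) (e.symm z).2 with hu
    have hvec : vec e u = y := by
      funext i
      rw [vec, hu]
      simp only [Equiv.symm_apply_apply]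
      have h4 := (RingOfIntegers.basis K).sum_repr (y i)
      conv_rhs => rw [← h4]
      exact Finset.sum_congr rfl fun l _ => by rw [zsmul_eq_mul]
    have h5 := h3 u (fun z => by
      have h6 := hy (e.symm z).1 (e.symm z).2
      exact h6)
    rw [not_not, hvec] at h5
    exact h5
  · intro a _ b _ hab
    funext z
    have := congrFun hab (e z)
    simpa using this

end Pool.Agent.J4.H74.FermLM
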