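import Mathlib
import Pool.Agent.J4.H74.FermLM
import Pool.Agent.W223.AC.MasterK
import Pool.Agent.W223.AC.Split
import Pool.Agent.W976.AC.EX
import Pool.Agent.W460.AC.NORM
import Pool.Agent.W597.AC.LOC
import Pool.Agent.W193.AC.FINQ
import Pool.Agent.W398.AC.DIM
import Pool.Agent.W131.AC.GROW
import Pool.Agent.W989.AC.MULT
import Pool.Agent.W410.AC.HTG
import Pool.Agent.W803.AC.SUMN
import Pool.Agent.W756.AC.LOCP
import Pool.Agent.W223.AC.SUMP

set_option autoImplicit false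

/-!
Points of curves above the quotients of integers near the values of multiplicative functions (helper74).
The argument on curves is the one of `AllCurvesProximity` (MP_71c16a_nt) of the starting files.
-/

namespace Pool.Agent.J4.H74.CurvLM

open Polynomial IsDedekindDomain NumberField
open Pool.Agent.W223.VD (cnt)
open Pool.Agent.W223.AC (pt)
open Pool.Agent.Results.MP_f5a5f7_nt.FewExceptions (height)

section lf

open MvPolynomial Pool.Agent.TH910.Voj Pool.Agent.R366.NF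

variable {K : Type} [Field K] [NumberField K]

/-- the linear form `u X_1 - v X_0` -/
noncomputable def lf (u v : 𝓞 K) : MvPolynomial (Fin (1 + 1)) (𝓞 K) :=
  MvPolynomial.C u * MvPolynomial.X 1 - MvPolynomial.C v * MvPolynomial.X 0

lemma eval_lf (u v : 𝓞 K) (y : Fin (1 + 1) → 𝓞 K) : eval y (lf u v) = u * y 1 - v * y 0 := by
  simp [lf]

lemma toK_lf (u v : 𝓞 K) : toK (lf u v) =
    MvPolynomial.C (u : K) * MvPolynomial.X 1 - MvPolynomial.C (v : K) * MvPolynomial.X 0 := by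
  simp [lf, toK]

lemma hom_lf (u v : 𝓞 K) : (lf u v).IsHomogeneous 1 := by
  unfold lf
  have h1 : (MvPolynomial.C u * MvPolynomial.X 1 : MvPolynomial (Fin (1 + 1)) (𝓞 K)).IsHomogeneous (0 + 1) :=
    (isHomogeneous_C _ _).mul (isHomogeneous_X _ _)
  have h2 : (MvPolynomial.C v * MvPolynomial.X 0 : MvPolynomial (Fin (1 + 1)) (𝓞 K)).IsHomogeneous (0 + 1) :=
    (isHomogeneous_C _ _).mul (isHomogeneous_X _ _)
  simpa using h1.sub h2

lemma toK_lf_ne {u v : 𝓞 K} (h : u ≠ 0 ∨ v ≠ 0) : toK (lf u v) ≠ 0 := by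
  intro h0
  rw [toK_lf] at h0
  have h1 := congrArg (MvPolynomial.eval (![0, 1] : Fin (1 + 1) → K)) h0
  have h2 := congrArg (MvPolynomial.eval (![1, 0] : Fin (1 + 1) → K)) h0
  simp at h1 h2
  rcases h with h | h
  · exact h h1
  · exact h h2

lemma irr_lf {u v : 𝓞 K} (h : u ≠ 0 ∨ v ≠ 0) : Irreducible (toK (lf u v)) := by
  have h1 : (toK (lf u v)).IsHomogeneous 1 := (hom_lf u v).map _
  refine irreducible_of_totalDegree_eq_one (h1.totalDegree (toK_lf_ne h)) ?_
  intro x hx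
  refine isUnit_iff_ne_zero.2 ?_
  rintro rfl
  apply toK_lf_ne h
  ext i
  rw [MvPolynomial.coeff_zero]
  exact zero_dvd_iff.1 (hx i)

lemma dist_lf {u v u' v' : 𝓞 K} (h : u * v' ≠ u' * v) : ¬ Associated (toK (lf u v)) (toK (lf u' v')) := by
  intro hass
  obtain ⟨g, hg⟩ := hass.dvd
  have h1 := congrArg (MvPolynomial.eval (![(u : K), (v : K)] : Fin (1 + 1) → K)) hg
  rw [map_mul, toK_lf, toK_lf] at h1
  have h2 : (u' : K) * v - v' * u = ((u : K) * v - v * u) * MvPolynomial.eval (![(u : K), (v : K)]) g := by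
    simpa using h1
  apply h
  have h3 : (u : K) * v' = u' * v := by
    rw [show (u : K) * v - v * u = 0 by ring, zero_mul] at h2
    linear_combination -h2
  exact_mod_cast h3

/-- the truncated counting functions -/
lemma count_eq {q : ℕ} (S : Finset ℕ) (P : Fin q → ℤ × ℤ) (y : Fin (1 + 1) → 𝓞 K) (hy : y 1 ≠ 0) :
    truncatedCount S (fun j => lf (K := K) ((P j).1 : 𝓞 K) ((P j).2 : 𝓞 K)) (fun _ => 1)
      (fun i => (y i : K)) = cnt S P ((y 0 : K) / (y 1 : K)) := by
  unfold truncatedCount cnt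
  refine finsum_congr fun v => ?_
  have hy1 : (y 1 : K) ≠ 0 := by exact_mod_cast hy
  have hval : v.valuation K (y 1 : K) ≠ 0 := (Valuation.ne_zero_iff _).2 hy1
  have hvpos : 0 < v.valuation K (y 1 : K) := zero_lt_iff.2 hval
  have h1 : (∃ j, FinitePlace.mk v (MvPolynomial.aeval (fun i => (y i : K))
        (lf (K := K) ((P j).1 : 𝓞 K) ((P j).2 : 𝓞 K))) < (⨆ i, FinitePlace.mk v (y i : K)) ^ 1) ↔
      ∃ j, v.valuation K (((P j).1 : K) - (y 0 : K) / (y 1 : K) * ((P j).2 : K)) <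
        max (v.valuation K ((y 0 : K) / (y 1 : K))) 1 := by
    refine exists_congr fun j => ?_
    have e1 : MvPolynomial.aeval (fun i => (y i : K))
        (lf (K := K) ((P j).1 : 𝓞 K) ((P j).2 : 𝓞 K)) =
        ((P j).1 : K) * (y 1 : K) - ((P j).2 : K) * (y 0 : K) := by
      rw [aeval_coe, eval_lf]
      push_cast
      rfl
    rw [e1, pow_one]
    have e2 : (FinitePlace.mk v (((P j).1 : K) * (y 1 : K) - ((P j).2 : K) * (y 0 : K)) <
        ⨆ i, FinitePlace.mk v (y i : K)) ↔ ∃ i, FinitePlace.mk v (((P j).1 : K) * (y 1 : K) -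
          ((P j).2 : K) * (y 0 : K)) < FinitePlace.mk v (y i : K) :=
      lt_ciSup_iff (Finite.bddAbove_range _)
    have e3 : ∀ a b : K, FinitePlace.mk v a < FinitePlace.mk v b ↔ v.valuation K a < v.valuation K b :=
      fun a b => Pool.Agent.TH905.VF.fv_lt_iff v a b
    rw [e2]
    simp only [e3]
    rw [Fin.exists_fin_two, lt_max_iff]
    have e4 : ((P j).1 : K) - (y 0 : K) / (y 1 : K) * ((P j).2 : K) =
        (((P j).1 : K) * (y 1 : K) - ((P j).2 : K) * (y 0 : K)) / (y 1 : K) := by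
      field_simp
    rw [e4, map_div₀, map_div₀]
    refine or_congr ?_ ?_
    · exact (div_lt_div_iff_of_pos_right hvpos).symm
    · rw [div_lt_one₀ hvpos]
  by_cases h2 : (∀ p ∈ S, (p : 𝓞 K) ∉ v.asIdeal) ∧
      ∃ j, v.valuation K (((P j).1 : K) - (y 0 : K) / (y 1 : K) * ((P j).2 : K)) <
        max (v.valuation K ((y 0 : K) / (y 1 : K))) 1
  · rw [if_pos h2, if_pos ⟨h2.1, h1.2 h2.2⟩]
  · rw [if_neg h2, if_neg (fun h3 => h2 ⟨h3.1, h1.1 h3.2⟩)]

/-- the height of the quotient -/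
lemma height_quot (y : Fin (1 + 1) → 𝓞 K) (hy : y 1 ≠ 0) :
    Height.logHeight (fun i => (y i : K)) =
      Module.finrank ℚ K * height ((y 0 : K) / (y 1 : K)) := by
  have hy1 : (y 1 : K) ≠ 0 := by exact_mod_cast hy
  rw [← Pool.Agent.W223.AC.MK.height_eq, Height.logHeight_eq_log_mulHeight,
    Height.mulHeight₁_eq_mulHeight]
  congr 1
  have h1 : (fun i => (y i : K)) = (y 1 : K) • ![(y 0 : K) / (y 1 : K), 1] := by
    funext i
    fin_cases i
    · simp only [Pi.smul_apply, smul_eq_mul]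
      exact (mul_div_cancel₀ _ hy1).symm
    · simp
  rw [h1, Height.mulHeight_smul_eq_mulHeight _ hy1]

end lf

section curve

/-- the proximity function -/
noncomputable def prox {A : Type} [CommRing A] (S : Finset ℕ) {n : ℕ} (s : Fin n → ℕ)
    (z : ∀ l, Fin (s l + 1) → A) (L : Type) [Field L] [NumberField L] (φ : A →+* L) : ℝ :=
  (∑ l, (∑ w : InfinitePlace L, (w.mult : ℝ) * Pool.Agent.W223.AC.lamI (z l) φ w +
    Pool.Agent.W223.AC.mS S (z l) φ)) / Module.finrank ℚ L

open Classical in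
/-- the pointwise inequality on curves -/
theorem curve_point (A : Type) [CommRing A] [IsDedekindDomain A] [Algebra ℚ A] [Algebra ℚ[X] A]
    [IsScalarTower ℚ ℚ[X] A] [Module.Finite ℚ[X] A] [FaithfulSMul ℚ[X] A]
    {q : ℕ} (a : Fin q → ℚ) {n : ℕ} (j : Fin n → Fin q) (s : Fin n → ℕ)
    (z : ∀ l, Fin (s l + 1) → A)
    (hz : ∀ l, z l 0 = Pool.Agent.W223.AC.tt A - algebraMap ℚ[X] A (C (a (j l))))
    (hcov : ∀ k : Fin q, ∏ l with j l = k, Ideal.span (Set.range (z l)) ≤
      (Ideal.span {Pool.Agent.W223.AC.tt A - algebraMap ℚ[X] A (C (a k))}).radical)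
    (K : Type) [Field K] [NumberField K] (κ C₀ : ℝ) (hκ : 0 < κ) :
    ∃ (S0 : Finset ℕ) (C₁ : ℝ) (G : ℚ[X]), (∀ p ∈ S0, p.Prime) ∧ G ≠ 0 ∧ ∀ x : K, aeval x G ≠ 0 →
      (∀ k, x ≠ (a k : K)) →
      (q - κ / 2) * (Module.finrank ℚ K * height x) + C₁ ≤ cnt S0 (fun k => pt (a k)) x →
      ∀ (L : Type) [Field L] [NumberField L] [Algebra K L] (φ : A →+* L) (S : Finset ℕ),
        φ (Pool.Agent.W223.AC.tt A) = algebraMap K L x → (∀ p ∈ S, p.Prime) →
        (∀ l, {v : HeightOneSpectrum (𝓞 L) | Pool.Agent.W223.AC.lamF (z l) φ v ≠ 0}.Finite) ∧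
        prox S s z L φ + (q - κ - (∑ l, (Module.finrank ℚ (A ⧸ Ideal.span (Set.range (z l))) : ℝ)) /
          Module.finrank ℚ[X] A) * height x ≤
        Real.log |(discr L : ℝ)| / Module.finrank ℚ L + ∑ p ∈ S, Real.log p + C₀ := by
  obtain ⟨M, Ck, G, hM, hCk, hG, hkey⟩ := Pool.Agent.W223.AC.keyG
    (Pool.Agent.W223.AC.nbp (Pool.Agent.W976.AC.EX.t Pool.Agent.W398.AC.DIM.t
      Pool.Agent.W193.AC.FINQ.t Pool.Agent.W989.AC.MULT.t) Pool.Agent.W756.AC.t
      (Pool.Agent.W410.AC.t Pool.Agent.W131.AC.t) Pool.Agent.W223.AC.SUMP.t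
      Pool.Agent.W460.AC.t)
    Pool.Agent.W989.AC.MULT.t Pool.Agent.W597.AC.t A a j s z hz hcov (κ / (2 * (n + 1)))
    (by positivity)
  obtain ⟨d, hd⟩ : ∃ d : ℝ, d = (Module.finrank ℚ K : ℝ) := ⟨_, rfl⟩
  have hd0 : 0 < d := by
    rw [hd]
    exact_mod_cast Module.finrank_pos
  refine ⟨∅ ∪ M.primeFactors, d * (n * Ck - C₀), G, ?_, hG, ?_⟩
  · intro p hp
    rcases Finset.mem_union.mp hp with h | h
    · exact absurd h (Finset.notMem_empty p)
    · exact Nat.prime_of_mem_primeFactors h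
  intro x hGx hxa hcnt L _ _ _ φ S hφ hS
  rw [← hd] at hcnt
  have hne : ∀ k, φ (Pool.Agent.W223.AC.tt A) ≠ (a k : L) := by
    intro k h
    rw [hφ] at h
    apply hxa k
    apply FaithfulSMul.algebraMap_injective K L
    rw [h, map_ratCast]
  have hGL : aeval (φ (Pool.Agent.W223.AC.tt A)) G ≠ 0 := by
    rw [hφ, aeval_algebraMap_apply]
    intro h
    rw [map_eq_zero] at h
    exact hGx h
  obtain ⟨hk1, hk2⟩ := hkey L φ hGL hne
  have hz0 : ∀ l, φ (z l 0) ≠ 0 := by
    intro l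
    rw [hz l, map_sub]
    have : φ (algebraMap ℚ[X] A (Polynomial.C (a (j l)))) = (a (j l) : L) :=
      eq_ratCast (φ.comp ((algebraMap ℚ[X] A).comp Polynomial.C)) (a (j l))
    rw [this]
    exact sub_ne_zero.mpr (hne (j l))
  have hnf : ∀ l, {v : HeightOneSpectrum (𝓞 L) | Pool.Agent.W223.AC.NearP (z l) φ v}.Finite :=
    fun l => Pool.Agent.W223.AC.near_finite (z l) φ (hz0 l)
  have hk1 := (hk1 ∅).trans ((Pool.Agent.W223.AC.cc_outside Pool.Agent.W803.AC.t S hS _ (by
      refine (Set.finite_iUnion fun l => hnf l).subset ?_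
      rintro v ⟨l, -, hv⟩
      exact Set.mem_iUnion.mpr ⟨l, hv⟩)).trans
    (add_le_add_left (Pool.Agent.W223.CV.cc_exists S Finset.univ
      (fun l (v : HeightOneSpectrum (𝓞 L)) => Pool.Agent.W223.AC.NearP (z l) φ v) hnf) _))
  have hLpos : (0 : ℝ) < Module.finrank ℚ L := by exact_mod_cast Module.finrank_pos
  have htow : (Module.finrank ℚ L : ℝ) = d * Module.finrank K L := by
    rw [hd]
    exact_mod_cast (Module.finrank_mul_finrank ℚ K L).symm
  -- the height over `L`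
  have hht : Real.log (Height.mulHeight₁ (φ (Pool.Agent.W223.AC.tt A))) =
      Module.finrank ℚ L * height x := by
    have h3 : Real.log (Height.mulHeight₁ (algebraMap K L x)) =
        Module.finrank K L * Real.log (Height.mulHeight₁ x) :=
      Pool.Agent.W223.AC.MK.log_height_ext L x
    have h4 : Real.log (Height.mulHeight₁ x) = Module.finrank ℚ K * height x :=
      Pool.Agent.W223.AC.MK.height_eq x
    rw [hφ, h3, h4, ← hd, ← mul_assoc, mul_comm (Module.finrank K L : ℝ), htow]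
  -- the sum over the fibres
  have h5 : ∀ l, Pool.Agent.W223.CV.cc S (fun v : HeightOneSpectrum (𝓞 L) =>
        Pool.Agent.W223.AC.NearP (z l) φ v) +
      (∑ w : InfinitePlace L, (w.mult : ℝ) * Pool.Agent.W223.AC.lamI (z l) φ w +
        Pool.Agent.W223.AC.mS S (z l) φ) ≤
      ((Module.finrank ℚ (A ⧸ Ideal.span (Set.range (z l))) : ℝ) /
          Module.finrank ℚ[X] A + κ / (2 * (n + 1))) * (Module.finrank ℚ L * height x) +
        Module.finrank ℚ L * Ck := by
    intro l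
    obtain ⟨h6, h7⟩ := hk2 l
    have h8 := Pool.Agent.W223.AC.split_prox (z l) φ S (hz0 l) h6
    rw [hht] at h7
    linarith
  have h6 := Finset.sum_le_sum fun l (_ : l ∈ Finset.univ) => h5 l
  rw [Finset.sum_add_distrib] at h6
  set D : ℝ := (∑ l, (Module.finrank ℚ (A ⧸ Ideal.span (Set.range (z l))) : ℝ)) /
    Module.finrank ℚ[X] A with hD
  have h7 : ∑ l, (((Module.finrank ℚ (A ⧸ Ideal.span (Set.range (z l))) : ℝ) /
          Module.finrank ℚ[X] A + κ / (2 * (n + 1))) * (Module.finrank ℚ L * height x) +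
        Module.finrank ℚ L * Ck) =
      (D + n * (κ / (2 * (n + 1)))) * height x * Module.finrank ℚ L +
        n * Ck * Module.finrank ℚ L := by
    rw [Finset.sum_add_distrib, ← Finset.sum_mul, Finset.sum_add_distrib, ← Finset.sum_div,
      Finset.sum_const, Finset.sum_const, Finset.card_univ, Fintype.card_fin, nsmul_eq_mul,
      nsmul_eq_mul]
    ring
  rw [h7] at h6
  have hhx : 0 ≤ height x := by
    have h4 : Real.log (Height.mulHeight₁ x) = Module.finrank ℚ K * height x :=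
      Pool.Agent.W223.AC.MK.height_eq x
    have h5 : 0 ≤ Real.log (Height.mulHeight₁ x) := Real.log_nonneg (Height.one_le_mulHeight₁ x)
    rw [h4, ← hd] at h5
    exact nonneg_of_mul_nonneg_right h5 hd0
  have hnn : (n : ℝ) * (κ / (2 * (n + 1))) ≤ κ / 2 := by
    rw [← mul_div_assoc, div_le_div_iff₀ (by positivity) (by norm_num)]
    nlinarith
  -- base change
  have hlin : ∀ k, Pool.Agent.W223.CV.lin (pt (a k)) x ≠ 0 := by
    intro k h
    unfold Pool.Agent.W223.CV.lin pt at h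
    have h11 : ((a k : ℚ) : K) = (((a k).num : ℤ) : K) / (((a k).den : ℤ) : K) := by
      have := Rat.cast_def (K := K) (a k)
      push_cast
      exact this
    have h12 : (((a k).den : ℤ) : K) ≠ 0 := by exact_mod_cast (a k).den_nz
    apply hxa k
    rw [h11, eq_div_iff h12]
    exact (sub_eq_zero.mp h).symm
  have hrel := Pool.Agent.W469.CV.REL.t K L q (∅ ∪ M.primeFactors) (fun k => pt (a k)) x hlin
  have hdisc : 0 ≤ Real.log |(discr K : ℝ)| := by
    refine Real.log_nonneg ?_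
    have := discr_ne_zero K
    exact_mod_cast Int.one_le_abs this
  have hKLpos : (0 : ℝ) < Module.finrank K L := by exact_mod_cast Module.finrank_pos
  have h8 : Module.finrank K L * ((q - κ / 2) * (d * height x) + d * (n * Ck - C₀)) ≤
      cnt (∅ ∪ M.primeFactors) (fun k => pt (a k)) (algebraMap K L x) +
        Real.log |(discr L : ℝ)| := by
    rw [add_comm (cnt _ _ _)]
    refine le_trans (mul_le_mul_of_nonneg_left ?_ hKLpos.le) hrel
    linarith
  have h9 : Module.finrank K L * ((q - κ / 2) * (d * height x) + d * (n * Ck - C₀)) =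
      ((q - κ / 2) * height x + (n * Ck - C₀)) * Module.finrank ℚ L := by
    rw [htow]
    ring
  rw [h9] at h8
  have h10 : cnt (∅ ∪ M.primeFactors) (fun k => pt (a k)) (algebraMap K L x) ≤
      ∑ l, Pool.Agent.W223.CV.cc S (fun v : HeightOneSpectrum (𝓞 L) =>
      Pool.Agent.W223.AC.NearP (z l) φ v) +
        Module.finrank ℚ L * ∑ p ∈ S, Real.log p := by
    rw [← hφ]
    exact hk1
  have h11 : prox S s z L φ * Module.finrank ℚ L =
      ∑ l, (∑ w : InfinitePlace L, (w.mult : ℝ) * Pool.Agent.W223.AC.lamI (z l) φ w +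
        Pool.Agent.W223.AC.mS S (z l) φ) := by
    unfold prox
    exact div_mul_cancel₀ _ hLpos.ne'
  have h12 : Real.log |(discr L : ℝ)| =
      Real.log |(discr L : ℝ)| / Module.finrank ℚ L * Module.finrank ℚ L :=
    (div_mul_cancel₀ _ hLpos.ne').symm
  rw [← h11] at h6
  rw [h12] at h8
  have h13 : (prox S s z L φ + ((q - κ / 2) * height x + (n * Ck - C₀))) * Module.finrank ℚ L ≤
      ((D + n * (κ / (2 * (n + 1)))) * height x + n * Ck +
        Real.log |(discr L : ℝ)| / Module.finrank ℚ L + ∑ p ∈ S, Real.log p) *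
        Module.finrank ℚ L := by
    nlinarith
  have h14 := le_of_mul_le_mul_right h13 hLpos
  have h15 := mul_le_mul_of_nonneg_right hnn hhx
  refine ⟨fun l => (hk2 l).1, ?_⟩
  nlinarith

/-- Vojta's inequality for all the points above `y_0 / y_1` -/
def GoodCurve {A : Type} [CommRing A] [Algebra ℚ[X] A] [Algebra ℚ A] {q : ℕ} (a : Fin q → ℚ) {n : ℕ}
    (s : Fin n → ℕ)
    (z : ∀ l, Fin (s l + 1) → A) {K : Type} [Field K] [NumberField K] (κ C₀ : ℝ)
    (y : Fin (1 + 1) → 𝓞 K) : Prop :=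
  y 1 ≠ 0 ∧ (∀ k, (y 0 : K) / (y 1 : K) ≠ (a k : K)) ∧
    ∀ (L : Type) [Field L] [NumberField L] [Algebra K L] (φ : A →+* L) (S : Finset ℕ),
      φ (Pool.Agent.W223.AC.tt A) = algebraMap K L ((y 0 : K) / (y 1 : K)) → (∀ p ∈ S, p.Prime) →
      (∀ l, {v : HeightOneSpectrum (𝓞 L) | Pool.Agent.W223.AC.lamF (z l) φ v ≠ 0}.Finite) ∧
      prox S s z L φ + (q - κ - (∑ l, (Module.finrank ℚ (A ⧸ Ideal.span (Set.range (z l))) : ℝ)) /
        Module.finrank ℚ[X] A) * height ((y 0 : K) / (y 1 : K)) ≤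
      Real.log |(discr L : ℝ)| / Module.finrank ℚ L + ∑ p ∈ S, Real.log p + C₀

open Pool.Agent.TH910.Voj Pool.Agent.R366.NF Pool.Agent.J4.H74.FermLM in
open Classical in
theorem sparse_curve (A : Type) [CommRing A] [IsDedekindDomain A] [Algebra ℚ A] [Algebra ℚ[X] A]
    [IsScalarTower ℚ ℚ[X] A] [Module.Finite ℚ[X] A] [FaithfulSMul ℚ[X] A]
    {q : ℕ} (a : Fin q → ℚ) (ha : Function.Injective a) {n : ℕ} (j : Fin n → Fin q) (s : Fin n → ℕ)
    (z : ∀ l, Fin (s l + 1) → A)
    (hz : ∀ l, z l 0 = Pool.Agent.W223.AC.tt A - algebraMap ℚ[X] A (C (a (j l))))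
    (hcov : ∀ k : Fin q, ∏ l with j l = k, Ideal.span (Set.range (z l)) ≤
      (Ideal.span {Pool.Agent.W223.AC.tt A - algebraMap ℚ[X] A (C (a k))}).radical)
    (K : Type) [Field K] [NumberField K] (κ C₀ : ℝ) (hκ : 0 < κ) (hκq : κ ≤ q)
    (N : ℕ) (e : Fin (1 + 1) × Idx K ≃ Fin (N + 1)) :
    Sparse (N + 1) (fun _ u => ¬ GoodCurve a s z κ C₀ (vec (K := K) e u)) := by
  obtain ⟨S0, C₁, G, hS0, hG, hpt⟩ := curve_point A a j s z hz hcov K κ C₀ hκ
  have hden : ∀ k, ((pt (a k)).2 : 𝓞 K) ≠ 0 := by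
    intro k
    have : (pt (a k)).2 ≠ 0 := by
      change ((a k).den : ℤ) ≠ 0
      exact_mod_cast (a k).den_nz
    exact_mod_cast this
  -- one linear form
  have h1 : ∀ u v : 𝓞 K, (u ≠ 0 ∨ v ≠ 0) →
      Sparse (N + 1) (fun _ w => ¬ GoodC ∅ (fun _ : Fin 1 => lf u v) (fun _ => 1) 0 0 (vec e w)) := by
    intro u v huv
    exact sparse_vojtaC (m := fun _ => 1) le_rfl e _ _ (fun _ => hom_lf u v) (fun _ => irr_lf huv)
      (fun i j hij => absurd (Subsingleton.elim i j) hij) (fun _ => Or.inl le_rfl) ∅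
      (fun p hp => absurd hp (Finset.notMem_empty p)) 0 0 le_rfl (by simp)
  have h1' : ∀ u v : 𝓞 K, (u ≠ 0 ∨ v ≠ 0) →
      Sparse (N + 1) (fun _ w => MvPolynomial.eval (vec e w) (lf u v) = 0) := by
    intro u v huv
    refine (h1 u v huv).mono ?_
    intro B w _ _ h2 h3
    exact h3.1 0 h2
  -- the roots of `G`
  have hfinG : {x : K | aeval x G = 0}.Finite := by
    refine (Polynomial.rootSet_finite G K).subset fun x hx => ?_
    exact (Polynomial.mem_rootSet_of_ne hG).mpr hx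
  have hfrac : ∀ r : K, ∃ u v : 𝓞 K, v ≠ 0 ∧ r = (u : K) / (v : K) := by
    intro r
    obtain ⟨u, v, hv, h⟩ := IsFractionRing.div_surjective (A := 𝓞 K) r
    exact ⟨u, v, nonZeroDivisors.ne_zero hv, h.symm⟩
  choose fu fv' hfv hfr using hfrac
  obtain ⟨T, hT⟩ : ∃ T : Finset K, T = hfinG.toFinset := ⟨_, rfl⟩
  have h2 : Sparse (N + 1) (fun _ w => ∃ i : Fin T.card,
      MvPolynomial.eval (vec e w) (lf (fu (T.equivFin.symm i)) (fv' (T.equivFin.symm i))) = 0) :=
    Sparse.exists_fin fun i => h1' _ _ (Or.inr (hfv _))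
  -- the linear forms
  have h3 : Sparse (N + 1) (fun _ w => ¬ GoodC S0
      (fun k : Fin q => lf ((pt (a k)).1 : 𝓞 K) ((pt (a k)).2 : 𝓞 K)) (fun _ => 1)
      (q - κ / 2) C₁ (vec e w)) := by
    refine sparse_vojtaC (m := fun _ => 1) le_rfl e _ _ (fun _ => hom_lf _ _)
      (fun k => irr_lf (Or.inr (hden k))) (fun i i' hij => dist_lf ?_) (fun _ => Or.inl le_rfl) S0
      hS0 (q - κ / 2) C₁ (by linarith) (by simpa using by linarith)
    have h4 := Pool.Agent.W223.AC.pt_inj (ha.ne hij)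
    intro h5
    apply h4
    exact_mod_cast h5
  have h4 := h1' 1 0 (Or.inl one_ne_zero)
  refine ((h2.or h3).or h4).mono ?_
  intro B w _ _ hbad
  by_contra hcon
  rw [not_or, not_or, not_not] at hcon
  obtain ⟨⟨hg1, hg2⟩, hg3⟩ := hcon
  apply hbad
  have hy1 : vec e w 1 ≠ 0 := by
    intro h5
    apply hg3
    rw [eval_lf, h5]
    simp
  have hy1' : (vec e w 1 : K) ≠ 0 := by exact_mod_cast hy1
  have hxa : ∀ k, (vec e w 0 : K) / (vec e w 1 : K) ≠ (a k : K) := by
    intro k h5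
    apply hg2.1 k
    rw [eval_lf]
    have h11 : ((a k : ℚ) : K) = (((pt (a k)).1 : ℤ) : K) / (((pt (a k)).2 : ℤ) : K) := by
      unfold pt
      have := Rat.cast_def (K := K) (a k)
      push_cast
      exact this
    have h12 : (((pt (a k)).2 : ℤ) : K) ≠ 0 := by
      have := hden k
      exact_mod_cast this
    rw [h11, div_eq_div_iff hy1' h12] at h5
    have h13 : (((pt (a k)).1 : ℤ) : K) * (vec e w 1 : K) - (((pt (a k)).2 : ℤ) : K) * (vec e w 0 : K) = 0 := by
      linear_combination -h5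
    refine RingOfIntegers.coe_injective (Eq.trans ?_ (map_zero (algebraMap (𝓞 K) K)).symm)
    rw [map_sub, map_mul, map_mul, map_intCast, map_intCast]
    exact h13
  have hGx : aeval ((vec e w 0 : K) / (vec e w 1 : K)) G ≠ 0 := by
    intro h5
    apply hg1
    have h6 : (vec e w 0 : K) / (vec e w 1 : K) ∈ T := by
      rw [hT, Set.Finite.mem_toFinset]
      exact h5
    refine ⟨T.equivFin ⟨_, h6⟩, ?_⟩
    rw [eval_lf, Equiv.symm_apply_apply]
    have h7 := hfr ((vec e w 0 : K) / (vec e w 1 : K))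
    have h8 : (fv' ((vec e w 0 : K) / (vec e w 1 : K)) : K) ≠ 0 := by
      have := hfv ((vec e w 0 : K) / (vec e w 1 : K))
      exact_mod_cast this
    simp only
    generalize fu ((vec e w 0 : K) / (vec e w 1 : K)) = U at h7 h8 ⊢
    generalize fv' ((vec e w 0 : K) / (vec e w 1 : K)) = V at h7 h8 ⊢
    rw [div_eq_div_iff hy1' h8] at h7
    have h9 : (U : K) * (vec e w 1 : K) - (V : K) * (vec e w 0 : K) = 0 := by
      linear_combination -h7
    exact_mod_cast h9
  refine ⟨hy1, hxa, ?_⟩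
  have h5 := hg2.2
  rw [count_eq S0 (fun k => pt (a k)) (vec e w) hy1, height_quot _ hy1] at h5
  intro L _ _ _ φ S hφ hS
  exact hpt _ hGx hxa h5 L φ S hφ hS

end curve

end Pool.Agent.J4.H74.CurvLM
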