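import Mathlib
import Pool.Agent.R366.NF.Final
import Pool.Agent.R479.DB.Lim

set_option autoImplicit false

/-!
The truncated counting function at the good rational approximations of almost all real points (helper74).
-/

namespace Pool.Agent.J4.H74.VojBA

open MvPolynomial NumberField IsDedekindDomain Pool.Agent.TH910.Voj Pool.Agent.H813R3.Voj
  Pool.Agent.R366.NF MeasureTheory
open scoped NNReal ENNReal

/-- a set of small dimension is a null set -/
theorem null_of_dimH {X : Type*} [NormedAddCommGroup X] [NormedSpace ℝ X] [FiniteDimensional ℝ X]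
    [MeasurableSpace X] [BorelSpace X] (μ : Measure X) [μ.IsAddHaarMeasure] (E : Set X)
    (h : dimH E < Module.finrank ℝ X) : μ E = 0 := by
  have h1 : Measure.hausdorffMeasure (Module.finrank ℝ X : ℝ) E = 0 := by
    have := hausdorffMeasure_of_dimH_lt (s := E) (d := (Module.finrank ℝ X : ℝ≥0)) (by
      push_cast
      exact h)
    simpa using this
  exact (Measure.absolutelyContinuous_isAddHaarMeasure μ
    (Measure.hausdorffMeasure (Module.finrank ℝ X : ℝ))) h1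

/-- the limit set with constants -/
theorem dimH_approx_const {X : Type} [MetricSpace X] {K : Type} [Countable K] (σ : K → X) (P : Set K)
    (H : K → ℝ) (hH : ∀ x, 1 ≤ H x) {s τ : ℝ} (hs : 0 ≤ s) (hτ : 0 < τ)
    (hcount : ∀ ε : ℝ, 0 < ε → ∃ C : ℝ, ∀ B : ℝ, 1 ≤ B → {x | x ∈ P ∧ H x ≤ B}.Finite ∧
      (({x | x ∈ P ∧ H x ≤ B}.ncard : ℕ) : ℝ) ≤ C * B ^ (s + ε)) :
    dimH {z : X | ∃ A : ℝ, {x | x ∈ P ∧ dist z (σ x) ≤ A * H x ^ (-τ)}.Infinite} ≤
      ENNReal.ofReal (s / τ) := by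
  -- any smaller exponent
  have h1 : ∀ τ' : ℝ, 0 < τ' → τ' < τ →
      dimH {z : X | ∃ A : ℝ, {x | x ∈ P ∧ dist z (σ x) ≤ A * H x ^ (-τ)}.Infinite} ≤
        ENNReal.ofReal (s / τ') := by
    intro τ' hτ' hlt
    refine le_trans (dimH_mono ?_) (Pool.Agent.R479.DB.dimH_approx σ P H hH hs hτ' hcount)
    rintro z ⟨A, hA⟩
    simp only [Set.mem_ofPred_eq]
    -- the elements of large height
    obtain ⟨B, hB1, hB⟩ : ∃ B : ℝ, 1 ≤ B ∧ ∀ t : ℝ, B ≤ t → A * t ^ (-τ) ≤ t ^ (-τ') := by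
      have h2 : Filter.Tendsto (fun t : ℝ => t ^ (τ - τ')) Filter.atTop Filter.atTop :=
        tendsto_rpow_atTop (by linarith)
      obtain ⟨B, hB⟩ := Filter.eventually_atTop.1 (h2.eventually_ge_atTop A)
      refine ⟨max B 1, le_max_right _ _, fun t ht => ?_⟩
      have ht0 : 0 < t := lt_of_lt_of_le one_pos ((le_max_right _ _).trans ht)
      have h3 := hB t ((le_max_left _ _).trans ht)
      calc A * t ^ (-τ) ≤ t ^ (τ - τ') * t ^ (-τ) := mul_le_mul_of_nonneg_right h3 (by positivity)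
        _ = t ^ (-τ') := by rw [← Real.rpow_add ht0]; ring_nf
    obtain ⟨C, hC⟩ := hcount 1 one_pos
    have hfin := (hC B hB1).1
    have hinf : ({x | x ∈ P ∧ dist z (σ x) ≤ A * H x ^ (-τ)} \ {x | x ∈ P ∧ H x ≤ B}).Infinite :=
      hA.sdiff hfin
    refine hinf.mono ?_
    rintro x ⟨⟨hx1, hx2⟩, hx3⟩
    refine ⟨hx1, hx2.trans (hB _ ?_)⟩
    by_contra hc
    exact hx3 ⟨hx1, (not_le.1 hc).le⟩
  -- the limit
  have h2 : Filter.Tendsto (fun τ' : ℝ => ENNReal.ofReal (s / τ')) (nhdsWithin τ (Set.Iio τ))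
      (nhds (ENNReal.ofReal (s / τ))) := by
    refine (ENNReal.continuous_ofReal.tendsto _).comp ?_
    have h3 : Filter.Tendsto (fun τ' : ℝ => s / τ') (nhds τ) (nhds (s / τ)) :=
      (continuousAt_const.div continuousAt_id hτ.ne').tendsto
    exact h3.mono_left nhdsWithin_le_nhds
  refine ge_of_tendsto h2 ?_
  filter_upwards [Ioo_mem_nhdsLT (show (0 : ℝ) < τ from hτ)] with τ' hτ'
  exact h1 τ' hτ'.1 hτ'.2

variable {K : Type} [Field K] [NumberField K] {n q : ℕ}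

instance countable_nf (K : Type) [Field K] [NumberField K] : Countable K :=
  (Module.finBasis ℚ K).equivFun.injective.countable

/-- the homogeneous coordinates of an affine point -/
def hom (x : Fin n → K) : Fin (n + 1) → K := Fin.cons 1 x

lemma hom_ne (x : Fin n → K) : hom x ≠ 0 := by
  intro h
  have := congrFun h 0
  simp [hom] at this

/-- the inequality at the point with homogeneous coordinates `x` -/
def GoodP (S : Finset ℕ) (F : Fin q → MvPolynomial (Fin (n + 1)) (𝓞 K)) (k : Fin q → ℕ)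
    {t : ℕ} (F' G' : Fin t → MvPolynomial (Fin (n + 1)) (𝓞 K)) (k' e' : Fin t → ℕ) (Λ θ : ℝ)
    (x : Fin (n + 1) → K) : Prop :=
  (∀ j, aeval x (F j) ≠ 0) ∧
    θ * Height.logHeight x + Λ * ∑ l, idealHeight (F' l) (G' l) (k' l) (e' l) x ≤
      truncatedCount S F k x

theorem count_bad (F : Fin q → MvPolynomial (Fin (n + 1)) (𝓞 K)) (k m : Fin q → ℕ)
    (hhom : ∀ j, (F j).IsHomogeneous (k j)) (hirr : ∀ j, Irreducible (toK (F j)))
    (hdist : ∀ i j, i ≠ j → ¬ Associated (toK (F i)) (toK (F j)))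
    (hm : ∀ j, m j ≤ 1 ∨ (m j ≤ k j ∧ k j ≤ 2) ∨ IsNormForm (F j) (m j))
    (S : Finset ℕ) (hS : ∀ p ∈ S, p.Prime)
    {t : ℕ} (F' G' : Fin t → MvPolynomial (Fin (n + 1)) (𝓞 K)) (k' e' : Fin t → ℕ)
    (hF' : ∀ l, (F' l).IsHomogeneous (k' l)) (hG' : ∀ l, (G' l).IsHomogeneous (e' l))
    (hirr' : ∀ l, Irreducible (toK (F' l))) (hcop : ∀ l, ¬ toK (F' l) ∣ toK (G' l))
    (Λ : ℝ) (hΛ : 0 ≤ Λ) (θ : ℝ) (hθ0 : 0 ≤ θ) (hθ : θ < ∑ j, (m j : ℝ)) :
    ∃ c : ℝ, 0 < c ∧ c ≤ 1 ∧ ∃ C : ℝ, 0 ≤ C ∧ ∀ B : ℝ, 1 ≤ B →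
      {x : Fin n → K | ¬ GoodP S F k F' G' k' e' Λ θ (hom x) ∧ Height.mulHeight (hom x) ≤ B}.Finite ∧
      (({x : Fin n → K | ¬ GoodP S F k F' G' k' e' Λ θ (hom x) ∧
        Height.mulHeight (hom x) ≤ B}.ncard : ℕ) : ℝ) ≤ C * B ^ ((n : ℝ) + 1 - c) := by
  obtain ⟨c', hc', C', h⟩ := main_points F k m hhom hirr hdist hm S hS F' G' k' e' hF' hG' hirr' hcop
    Λ hΛ θ hθ
  refine ⟨min c' 1, lt_min hc' one_pos, min_le_right _ _, |C'| * 2 ^ ((n : ℝ) + 1 - min c' 1),
    by positivity, fun B hB => ?_⟩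
  obtain ⟨N, hN⟩ : ∃ N : ℕ, N = ⌈B⌉₊ := ⟨_, rfl⟩
  have hBN : B ≤ N := by rw [hN]; exact Nat.le_ceil B
  have hN1 : 1 ≤ N := by
    have : (1 : ℝ) ≤ N := hB.trans hBN
    exact_mod_cast this
  have hN2 : (N : ℝ) ≤ 2 * B := by
    have := (Nat.ceil_lt_add_one (a := B) (by linarith)).le
    rw [← hN] at this
    linarith
  obtain ⟨Z, hZ1, hZ2⟩ := h N hN1
  have hmap : ∀ x : Fin n → K, ¬ GoodP S F k F' G' k' e' Λ θ (hom x) → Height.mulHeight (hom x) ≤ B →
      Projectivization.mk K (hom x) (hom_ne x) ∈ Z := by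
    intro x hx1 hx2
    by_contra hcon
    set P := Projectivization.mk K (hom x) (hom_ne x) with hP
    have hPh : P.mulHeight ≤ N := by
      rw [hP, Projectivization.mulHeight_mk]
      exact hx2.trans hBN
    obtain ⟨h1, h2⟩ := hZ2 P hPh hcon
    obtain ⟨a, ha⟩ := Projectivization.exists_smul_eq_mk_rep K (hom x) (hom_ne x)
    have hrep : P.rep = (a : K) • hom x := by
      rw [hP, ← ha]
      rfl
    have ha0 : (a : K) ≠ 0 := a.ne_zero
    apply hx1
    rw [hrep] at h1 h2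
    refine ⟨fun j => ?_, ?_⟩
    · have h3 := h1 j
      rw [aeval_smul (F j) (hhom j)] at h3
      exact right_ne_zero_of_mul h3
    · rw [truncatedCount_smul S F k hhom ha0] at h2
      simp only [fun l => idealHeight_smul (F' l) (G' l) (hF' l) (hG' l) ha0 (hom x)] at h2
      refine le_trans ?_ h2
      have h4 : Height.logHeight (hom x) ≤ Real.log N := by
        rw [Height.logHeight_eq_log_mulHeight]
        exact Real.log_le_log (Height.mulHeight_pos _) (hx2.trans hBN)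
      have h5 := mul_le_mul_of_nonneg_left h4 hθ0
      linarith
  have hinj : Set.InjOn (fun x : Fin n → K => Projectivization.mk K (hom x) (hom_ne x))
      {x : Fin n → K | ¬ GoodP S F k F' G' k' e' Λ θ (hom x) ∧ Height.mulHeight (hom x) ≤ B} := by
    intro x _ y _ hxy
    simp only at hxy
    rw [Projectivization.mk_eq_mk_iff'] at hxy
    obtain ⟨a, ha⟩ := hxy
    have h0 := congrFun ha 0
    simp only [hom, Pi.smul_apply, Fin.cons_zero, smul_eq_mul, mul_one] at h0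
    funext i
    have h1 := congrFun ha i.succ
    simp only [hom, Pi.smul_apply, Fin.cons_succ, smul_eq_mul] at h1
    rw [← h1, h0, one_mul]
  have hmapsto : Set.MapsTo (fun x : Fin n → K => Projectivization.mk K (hom x) (hom_ne x))
      {x : Fin n → K | ¬ GoodP S F k F' G' k' e' Λ θ (hom x) ∧ Height.mulHeight (hom x) ≤ B}
      (Z : Set _) := fun x hx => hmap x hx.1 hx.2
  refine ⟨Set.Finite.of_injOn hmapsto hinj Z.finite_toSet, ?_⟩
  have h3 := Set.ncard_le_ncard_of_injOn _ hmapsto hinj Z.finite_toSet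
  rw [Set.ncard_coe_finset] at h3
  have hN1' : (1 : ℝ) ≤ N := by exact_mod_cast hN1
  have hnn : (0 : ℝ) ≤ n := Nat.cast_nonneg n
  calc (({x : Fin n → K | ¬ GoodP S F k F' G' k' e' Λ θ (hom x) ∧
        Height.mulHeight (hom x) ≤ B}.ncard : ℕ) : ℝ) ≤ (Z.card : ℝ) := by exact_mod_cast h3
    _ ≤ C' * (N : ℝ) ^ ((n : ℝ) + 1 - c') := hZ1
    _ ≤ |C'| * (N : ℝ) ^ ((n : ℝ) + 1 - c') :=
        mul_le_mul_of_nonneg_right (le_abs_self _) (by positivity)
    _ ≤ |C'| * (N : ℝ) ^ ((n : ℝ) + 1 - min c' 1) := by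
        refine mul_le_mul_of_nonneg_left ?_ (abs_nonneg _)
        exact Real.rpow_le_rpow_of_exponent_le hN1' (by linarith [min_le_left c' 1])
    _ ≤ |C'| * (2 * B) ^ ((n : ℝ) + 1 - min c' 1) := by
        refine mul_le_mul_of_nonneg_left ?_ (abs_nonneg _)
        exact Real.rpow_le_rpow (by linarith) hN2 (by linarith [min_le_right c' 1])
    _ = _ := by
        rw [Real.mul_rpow (by norm_num) (by linarith)]
        ring

open scoped Classical in
lemma bs (K : Type) [Field K] [NumberField K] (n : ℕ) :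
    @BorelSpace (Fin n → mixedEmbedding.mixedSpace K) _ MeasureSpace.toMeasurableSpace :=
  (inferInstance : @BorelSpace (Fin n → mixedEmbedding.mixedSpace K) _ MeasurableSpace.pi)

open scoped Classical in
/-- **good approximations** -/
theorem main (F : Fin q → MvPolynomial (Fin (n + 1)) (𝓞 K)) (k m : Fin q → ℕ)
    (hhom : ∀ j, (F j).IsHomogeneous (k j)) (hirr : ∀ j, Irreducible (toK (F j)))
    (hdist : ∀ i j, i ≠ j → ¬ Associated (toK (F i)) (toK (F j)))
    (hm : ∀ j, m j ≤ 1 ∨ (m j ≤ k j ∧ k j ≤ 2) ∨ IsNormForm (F j) (m j))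
    (S : Finset ℕ) (hS : ∀ p ∈ S, p.Prime)
    {t : ℕ} (F' G' : Fin t → MvPolynomial (Fin (n + 1)) (𝓞 K)) (k' e' : Fin t → ℕ)
    (hF' : ∀ l, (F' l).IsHomogeneous (k' l)) (hG' : ∀ l, (G' l).IsHomogeneous (e' l))
    (hirr' : ∀ l, Irreducible (toK (F' l))) (hcop : ∀ l, ¬ toK (F' l) ∣ toK (G' l))
    (Λ : ℝ) (hΛ : 0 ≤ Λ) (θ : ℝ) (hθ0 : 0 ≤ θ) (hθ : θ < ∑ j, (m j : ℝ)) :
    ∃ c : ℝ, 0 < c ∧ ∀ τ : ℝ, 0 < τ → ∃ E : Set (Fin n → mixedEmbedding.mixedSpace K),
      dimH E ≤ ENNReal.ofReal (((n : ℝ) + 1 - c) / τ) ∧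
      (((n : ℝ) + 1 - c) / τ < n * Module.finrank ℚ K →
        ∀ μ : Measure (Fin n → mixedEmbedding.mixedSpace K), μ.IsAddHaarMeasure → μ E = 0) ∧
      ∀ z, z ∉ E → ∀ A : ℝ, {x : Fin n → K |
        dist z (fun i => mixedEmbedding K (x i)) ≤ A * Height.mulHeight (hom x) ^ (-τ) ∧
        ¬ GoodP S F k F' G' k' e' Λ θ (hom x)}.Finite := by
  obtain ⟨c, hc, hc1, C, hC, hcount⟩ := count_bad F k m hhom hirr hdist hm S hS F' G' k' e' hF' hG'
    hirr' hcop Λ hΛ θ hθ0 hθ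
  have hnn : (0 : ℝ) ≤ n := Nat.cast_nonneg n
  refine ⟨c, hc, fun τ hτ => ?_⟩
  have hdim := dimH_approx_const (X := Fin n → mixedEmbedding.mixedSpace K)
    (fun x : Fin n → K => fun i => mixedEmbedding K (x i))
    {x : Fin n → K | ¬ GoodP S F k F' G' k' e' Λ θ (hom x)} (fun x => Height.mulHeight (hom x))
    (fun x => Height.one_le_mulHeight _) (s := (n : ℝ) + 1 - c) (by linarith) hτ (by
      intro ε hε
      refine ⟨C, fun B hB => ?_⟩
      obtain ⟨h1, h2⟩ := hcount B hB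
      refine ⟨h1, h2.trans (mul_le_mul_of_nonneg_left ?_ hC)⟩
      exact Real.rpow_le_rpow_of_exponent_le hB (by linarith))
  refine ⟨_, hdim, fun hlt μ hμ => ?_, fun z hz A => ?_⟩
  · have := bs K n
    refine null_of_dimH _ _ (hdim.trans_lt ?_)
    have h1 : Module.finrank ℝ (Fin n → mixedEmbedding.mixedSpace K) = n * Module.finrank ℚ K := by
      rw [Module.finrank_pi_fintype]
      simp only [mixedEmbedding.finrank, Finset.sum_const, Finset.card_univ, Fintype.card_fin,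
        smul_eq_mul]
    rw [h1]
    have h2 : ((n * Module.finrank ℚ K : ℕ) : ℝ≥0∞) =
        ENNReal.ofReal ((n * Module.finrank ℚ K : ℕ) : ℝ) := by
      rw [ENNReal.ofReal_natCast]
    rw [h2]
    refine (ENNReal.ofReal_lt_ofReal_iff_of_nonneg (div_nonneg (by linarith) hτ.le)).2 ?_
    push_cast
    exact hlt
  · by_contra hcon
    apply hz
    refine ⟨A, ?_⟩
    have hinf : {x : Fin n → K |
        dist z (fun i => mixedEmbedding K (x i)) ≤ A * Height.mulHeight (hom x) ^ (-τ) ∧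
        ¬ GoodP S F k F' G' k' e' Λ θ (hom x)}.Infinite := hcon
    refine hinf.mono ?_
    rintro x ⟨h1, h2⟩
    exact ⟨h2, h1⟩

end Pool.Agent.J4.H74.VojBA
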