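import Mathlib
import Pool.Agent.N220.CF.L

set_option autoImplicit false

/-!
Exceptional sets given at dyadic scales, with a logarithmic saving: the count of all exceptions (helper74).
-/

namespace Pool.Agent.J4.H74.Dyad

open Finset Filter Topology Classical

theorem dyadic_count (S : ℕ → Set ℕ) (V : Set ℕ) (U : ℕ)
    (hS : ∃ X₀ : ℕ, ∀ X : ℕ, X₀ ≤ X →
      (((Icc 1 X).filter (fun v => v ∈ S X)).card : ℝ) ≤ X / (Real.log X) ^ (U + 1))
    (hV : ∃ l₀ : ℕ, ∀ l ∈ V, l₀ ≤ l → l ∈ S (2 ^ (Nat.log 2 l + 1))) :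
    ∃ X₀ : ℕ, ∀ X : ℕ, X₀ ≤ X →
      (((Icc 1 X).filter (fun v => v ∈ V)).card : ℝ) ≤ X / (Real.log X) ^ U := by
  obtain ⟨X₀, hX₀⟩ := hS
  obtain ⟨l₀, hl₀⟩ := hV
  obtain ⟨C, hC0, hC⟩ := Pool.Agent.N220.CF.sum_shells (U + 1)
  have hl2 : 0 < Real.log 2 := Real.log_pos one_lt_two
  obtain ⟨K, hK⟩ : ∃ K : ℝ, K = 2 * C := ⟨_, rfl⟩
  have hK0 : 0 < K := by rw [hK]; positivity
  obtain ⟨j₀, hj₀⟩ : ∃ j₀ : ℕ, X₀ ≤ 2 ^ j₀ := ⟨X₀, Nat.lt_two_pow_self.le⟩
  obtain ⟨D, hD⟩ : ∃ D : ℝ, D = l₀ + 2 ^ (j₀ + 1) := ⟨_, rfl⟩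
  have e1 : ∀ᶠ X : ℕ in atTop, 2 * K ≤ Real.log X :=
    (Real.tendsto_log_atTop.comp tendsto_natCast_atTop_atTop).eventually_ge_atTop _
  have e2 : ∀ᶠ X : ℕ in atTop, 2 * D * Real.log X ^ U ≤ X := by
    have h3 := (Real.isLittleO_pow_log_id_atTop (n := U)).bound (show (0 : ℝ) < 1 / (2 * |D| + 1) by positivity)
    have h4 := tendsto_natCast_atTop_atTop (R := ℝ).eventually h3
    filter_upwards [h4, eventually_ge_atTop 1] with X hX hX1
    have hX1' : (1 : ℝ) ≤ X := by exact_mod_cast hX1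
    rw [id, Real.norm_of_nonneg (by linarith : (0 : ℝ) ≤ X),
      Real.norm_of_nonneg (pow_nonneg (Real.log_nonneg hX1') U), div_mul_eq_mul_div, one_mul,
      le_div_iff₀ (by positivity)] at hX
    have h5 : 0 ≤ Real.log (X : ℝ) ^ U := pow_nonneg (Real.log_nonneg hX1') U
    have h6 : D ≤ |D| := le_abs_self D
    nlinarith
  obtain ⟨X₁, hX₁⟩ := eventually_atTop.1 e1
  obtain ⟨X₂, hX₂⟩ := eventually_atTop.1 e2
  refine ⟨max (max X₁ X₂) 3, fun X hX => ?_⟩
  have hXa : X₁ ≤ X := (le_max_left _ _).trans ((le_max_left _ _).trans hX)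
  have hXb : X₂ ≤ X := (le_max_right _ _).trans ((le_max_left _ _).trans hX)
  have hX3 : 3 ≤ X := (le_max_right _ _).trans hX
  have hX3' : (3 : ℝ) ≤ X := by exact_mod_cast hX3
  have hX0 : (0 : ℝ) < X := by linarith
  have hlog : 0 < Real.log X := Real.log_pos (by linarith)
  obtain ⟨J, hJ⟩ : ∃ J, J = Nat.log 2 X := ⟨_, rfl⟩
  have hJ1 : (2 : ℝ) ^ J ≤ X := by
    have : 2 ^ J ≤ X := by rw [hJ]; exact Nat.pow_log_le_self 2 (by omega)
    exact_mod_cast this
  have hJ2 : Real.log X ≤ ((J : ℝ) + 1) * Real.log 2 := by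
    have h3 : X < 2 ^ (J + 1) := by rw [hJ]; exact Nat.lt_pow_succ_log_self (by norm_num) X
    have h4 : (X : ℝ) ≤ 2 ^ (J + 1) := by exact_mod_cast h3.le
    have h5 := Real.log_le_log hX0 h4
    rw [Real.log_pow] at h5
    push_cast at h5
    exact h5
  -- the decomposition
  have hsub : (Icc 1 X).filter (fun v => v ∈ V) ⊆ (range l₀ ∪ range (2 ^ (j₀ + 1))) ∪
      (range (J + 1)).biUnion (fun j => if j₀ ≤ j + 1 then
        (Icc 1 (2 ^ (j + 1))).filter (fun v => v ∈ S (2 ^ (j + 1))) else ∅) := by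
    intro l hl
    rw [mem_filter, mem_Icc] at hl
    obtain ⟨⟨h1, h2⟩, h3⟩ := hl
    rw [mem_union, mem_union, mem_range, mem_range, mem_biUnion]
    by_cases h4 : l < l₀
    · exact Or.inl (Or.inl h4)
    · by_cases h5 : l < 2 ^ (j₀ + 1)
      · exact Or.inl (Or.inr h5)
      · right
        have h6 : j₀ + 1 ≤ Nat.log 2 l := Nat.le_log_of_pow_le (by norm_num) (by omega)
        refine ⟨Nat.log 2 l, ?_, ?_⟩
        · rw [mem_range, hJ]
          exact Nat.lt_succ_of_le (Nat.log_mono_right h2)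
        · rw [if_pos (by omega), mem_filter, mem_Icc]
          exact ⟨⟨h1, (Nat.lt_pow_succ_log_self (by norm_num) l).le⟩, hl₀ l h3 (by omega)⟩
  have h1 : (((Icc 1 X).filter (fun v => v ∈ V)).card : ℝ) ≤ D + ∑ j ∈ range (J + 1),
      2 / Real.log 2 ^ (U + 1) * ((2 : ℝ) ^ j / ((j : ℝ) + 1) ^ (U + 1)) := by
    have h2 := card_le_card hsub
    have h3 := h2.trans ((card_union_le _ _).trans (add_le_add (card_union_le _ _) card_biUnion_le))
    rw [card_range, card_range] at h3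
    have h4 : (((Icc 1 X).filter (fun v => v ∈ V)).card : ℝ) ≤ (l₀ : ℝ) + 2 ^ (j₀ + 1) +
        ∑ j ∈ range (J + 1), (((if j₀ ≤ j + 1 then
        (Icc 1 (2 ^ (j + 1))).filter (fun v => v ∈ S (2 ^ (j + 1))) else ∅) : Finset ℕ).card : ℝ) := by
      exact_mod_cast h3
    rw [hD]
    refine h4.trans ?_
    refine add_le_add le_rfl (sum_le_sum fun j _ => ?_)
    split_ifs with hj
    · have h5 := hX₀ (2 ^ (j + 1)) (hj₀.trans (Nat.pow_le_pow_right (by norm_num) hj))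
      refine h5.trans (le_of_eq ?_)
      push_cast
      rw [Real.log_pow, mul_pow, pow_succ]
      push_cast
      field_simp
    · rw [card_empty, Nat.cast_zero]
      positivity
  have h2 : ∑ j ∈ range (J + 1), 2 / Real.log 2 ^ (U + 1) * ((2 : ℝ) ^ j / ((j : ℝ) + 1) ^ (U + 1)) ≤
      K * X / Real.log X ^ (U + 1) := by
    rw [← mul_sum]
    have h3 := mul_le_mul_of_nonneg_left (hC J) (show (0 : ℝ) ≤ 2 / Real.log 2 ^ (U + 1) by positivity)
    refine h3.trans ?_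
    have h4 : (Real.log X) ^ (U + 1) ≤ ((J : ℝ) + 1) ^ (U + 1) * Real.log 2 ^ (U + 1) := by
      rw [← mul_pow]
      exact pow_le_pow_left₀ hlog.le hJ2 _
    have h5 : 2 / Real.log 2 ^ (U + 1) * (C * (2 ^ J / ((J : ℝ) + 1) ^ (U + 1))) =
        K * 2 ^ J / (((J : ℝ) + 1) ^ (U + 1) * Real.log 2 ^ (U + 1)) := by
      rw [hK]
      field_simp
    rw [h5]
    exact div_le_div₀ (by positivity) (mul_le_mul_of_nonneg_left hJ1 hK0.le) (by positivity) h4
  have h3 := hX₁ X hXa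
  have h4 := hX₂ X hXb
  have hLU : 0 < Real.log X ^ U := by positivity
  have h5 : D ≤ X / Real.log X ^ U / 2 := by
    rw [div_div, le_div_iff₀ (by positivity)]
    linarith
  have h6 : K * X / Real.log X ^ (U + 1) ≤ X / Real.log X ^ U / 2 := by
    rw [div_div, div_le_div_iff₀ (by positivity) (by positivity), pow_succ]
    have h7 : 0 ≤ (X : ℝ) * Real.log X ^ U := by positivity
    calc K * X * (Real.log X ^ U * 2) = (2 * K) * (X * Real.log X ^ U) := by ring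
      _ ≤ Real.log X * (X * Real.log X ^ U) := mul_le_mul_of_nonneg_right h3 h7
      _ = X * (Real.log X ^ U * Real.log X) := by ring
  linarith

end Pool.Agent.J4.H74.Dyad
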