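import Mathlib
import Pool.Agent.Helper475.Miranda

/-!
# A fixed-point free flow all of whose finite entropy factors identify two given points
-/

set_option autoImplicit false

open Set Filter Topology Function

namespace Pool.Agent.J4.H74.FlowEnt

/-- The `1`-Lipschitz functions from `ℝ` to `[0,1]`; as a space it carries the topology of pointwise
convergence. -/
def Lip : Set (ℝ → ℝ) := {g | (∀ s, 0 ≤ g s ∧ g s ≤ 1) ∧ ∀ s t, |g s - g t| ≤ |s - t|}

lemma Lip_isClosed : IsClosed Lip := by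
  have h1 : IsClosed {g : ℝ → ℝ | ∀ s, 0 ≤ g s ∧ g s ≤ 1} := by
    simp only [ofPred_forall, ofPred_and]
    exact isClosed_iInter fun s => (isClosed_le continuous_const (continuous_apply s)).inter
      (isClosed_le (continuous_apply s) continuous_const)
  have h2 : IsClosed {g : ℝ → ℝ | ∀ s t, |g s - g t| ≤ |s - t|} := by
    simp only [ofPred_forall]
    exact isClosed_iInter fun s => isClosed_iInter fun t =>
      isClosed_le ((continuous_apply s).sub (continuous_apply t)).abs continuous_const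
  exact h1.inter h2

lemma Lip_isCompact : IsCompact Lip := by
  refine (isCompact_univ_pi (s := fun _ : ℝ => Icc (0 : ℝ) 1) fun _ => isCompact_Icc).of_isClosed_subset
    Lip_isClosed ?_
  intro g hg s _
  exact hg.1 s

instance : CompactSpace Lip := isCompact_iff_compactSpace.1 Lip_isCompact

/-- Restriction to the rationals. -/
def restr (g : Lip) : ℚ → ℝ := fun q => g.1 q

lemma restr_cont : Continuous restr :=
  continuous_pi fun q => (continuous_apply (q : ℝ)).comp continuous_subtype_val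

lemma Lip_cont (g : Lip) : Continuous g.1 := by
  refine LipschitzWith.continuous (K := 1) (LipschitzWith.of_dist_le_mul fun s t => ?_)
  rw [Real.dist_eq, Real.dist_eq]
  simpa using g.2.2 s t

lemma restr_inj : Injective restr := by
  intro g h hgh
  apply Subtype.ext
  refine Continuous.ext_on Rat.isDenseEmbedding_coe_real.dense (Lip_cont g) (Lip_cont h) ?_
  rintro _ ⟨q, rfl⟩
  exact congrFun hgh q

instance : TopologicalSpace.MetrizableSpace Lip :=
  (restr_cont.isClosedEmbedding restr_inj).isEmbedding.metrizableSpace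

/-- Translation of a function. -/
def shift (τ : ℝ) (g : Lip) : Lip :=
  ⟨fun s => g.1 (s + τ), fun s => g.2.1 (s + τ), fun s t => by simpa using g.2.2 (s + τ) (t + τ)⟩

lemma shift_cont : Continuous (uncurry shift) := by
  refine Continuous.subtype_mk (continuous_pi fun s => ?_) _
  rw [continuous_iff_continuousAt]
  rintro ⟨τ₀, g₀⟩
  show ContinuousAt (fun p : ℝ × Lip => p.2.1 (s + p.1)) (τ₀, g₀)
  unfold ContinuousAt
  rw [tendsto_iff_dist_tendsto_zero]
  have hb : Tendsto (fun p : ℝ × Lip => |p.1 - τ₀| + |p.2.1 (s + τ₀) - g₀.1 (s + τ₀)|) (𝓝 (τ₀, g₀))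
      (𝓝 0) := by
    have hc : Continuous (fun p : ℝ × Lip => |p.1 - τ₀| + |p.2.1 (s + τ₀) - g₀.1 (s + τ₀)|) := by
      refine ((continuous_fst.sub continuous_const).abs).add ((Continuous.sub ?_ continuous_const).abs)
      exact (continuous_apply (s + τ₀)).comp (continuous_subtype_val.comp continuous_snd)
    have := hc.tendsto (τ₀, g₀)
    simpa using this
  refine squeeze_zero (fun _ => dist_nonneg) (fun p => ?_) hb
  rw [Real.dist_eq]
  calc |p.2.1 (s + p.1) - g₀.1 (s + τ₀)|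
      ≤ |p.2.1 (s + p.1) - p.2.1 (s + τ₀)| + |p.2.1 (s + τ₀) - g₀.1 (s + τ₀)| := abs_sub_le _ _ _
    _ ≤ |p.1 - τ₀| + |p.2.1 (s + τ₀) - g₀.1 (s + τ₀)| := by
        have := p.2.2.2 (s + p.1) (s + τ₀)
        have e : s + p.1 - (s + τ₀) = p.1 - τ₀ := by ring
        rw [e] at this
        linarith

/-- The phase space: a Lipschitz function and a point of the circle `ℝ/ℤ`. -/
abbrev X : Type := Lip × AddCircle (1 : ℝ)

/-- The flow: translation of the function, rotation of the circle. -/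
def φ : Flow ℝ X where
  toFun τ p := (shift τ p.1, p.2 + (τ : AddCircle (1 : ℝ)))
  cont' := by
    refine Continuous.prodMk ?_ ?_
    · exact shift_cont.comp (continuous_fst.prodMk (continuous_fst.comp continuous_snd))
    · exact (continuous_snd.comp continuous_snd).add
        ((AddCircle.continuous_mk' (1 : ℝ)).comp continuous_fst)
  map_add' t₁ t₂ p := by
    refine Prod.ext ?_ ?_
    · apply Subtype.ext
      funext s
      show p.1.1 (s + (t₁ + t₂)) = p.1.1 (s + t₁ + t₂)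
      rw [add_assoc]
    · show p.2 + ((t₁ + t₂ : ℝ) : AddCircle (1 : ℝ)) = p.2 + (t₂ : AddCircle (1 : ℝ)) + (t₁ : AddCircle (1 : ℝ))
      rw [AddCircle.coe_add]
      abel
  map_zero' p := by
    refine Prod.ext ?_ ?_
    · apply Subtype.ext
      funext s
      show p.1.1 (s + 0) = p.1.1 s
      rw [add_zero]
    · show p.2 + ((0 : ℝ) : AddCircle (1 : ℝ)) = p.2
      rw [AddCircle.coe_zero, add_zero]

lemma φ_apply (τ : ℝ) (p : X) : φ τ p = (shift τ p.1, p.2 + (τ : AddCircle (1 : ℝ))) := rfl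

lemma φ_free : ¬ ∃ x : X, ∀ t : ℝ, φ t x = x := by
  rintro ⟨x, hx⟩
  have h := congrArg Prod.snd (hx (1 / 2))
  rw [φ_apply] at h
  have h1 : ((1 / 2 : ℝ) : AddCircle (1 : ℝ)) = 0 := by simpa using h
  rw [AddCircle.coe_eq_zero_iff] at h1
  obtain ⟨n, hn⟩ := h1
  rw [zsmul_one] at hn
  have h2 : (2 * n : ℝ) = 1 := by rw [hn]; norm_num
  have h3 : 2 * n = 1 := by exact_mod_cast h2
  omega

/-- The constant functions `c ∈ {0, 1}`. -/
def cst (c : ℝ) (hc : 0 ≤ c ∧ c ≤ 1) : Lip := ⟨fun _ => c, fun _ => hc, fun s t => by simp⟩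

/-- The trapezoidal bump: `1` on `[-k,k]`, `0` outside `[-k-1,k+1]`. -/
noncomputable def trap (k : ℕ) (s : ℝ) : ℝ := max 0 (min 1 (k + 1 - |s|))

lemma trap_nonneg (k : ℕ) (s : ℝ) : 0 ≤ trap k s := le_max_left _ _

lemma trap_le_one (k : ℕ) (s : ℝ) : trap k s ≤ 1 := max_le zero_le_one (min_le_left _ _)

lemma trap_one {k : ℕ} {s : ℝ} (h : |s| ≤ k) : trap k s = 1 := by
  unfold trap
  rw [min_eq_left (by linarith), max_eq_right zero_le_one]

lemma trap_zero {k : ℕ} {s : ℝ} (h : (k : ℝ) + 1 ≤ |s|) : trap k s = 0 := by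
  unfold trap
  rw [max_eq_left]
  exact (min_le_right _ _).trans (by linarith)

lemma trap_lip (k : ℕ) (s t : ℝ) : |trap k s - trap k t| ≤ |s - t| := by
  unfold trap
  have h1 : |max 0 (min 1 ((k : ℝ) + 1 - |s|)) - max 0 (min 1 ((k : ℝ) + 1 - |t|))| ≤
      |min 1 ((k : ℝ) + 1 - |s|) - min 1 ((k : ℝ) + 1 - |t|)| := by
    have := abs_max_sub_max_le_max 0 (min 1 ((k : ℝ) + 1 - |s|)) 0 (min 1 ((k : ℝ) + 1 - |t|))
    simpa using this
  have h2 : |min 1 ((k : ℝ) + 1 - |s|) - min 1 ((k : ℝ) + 1 - |t|)| ≤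
      |((k : ℝ) + 1 - |s|) - ((k : ℝ) + 1 - |t|)| := by
    have := abs_min_sub_min_le_max 1 ((k : ℝ) + 1 - |s|) 1 ((k : ℝ) + 1 - |t|)
    simpa using this
  have h3 : |((k : ℝ) + 1 - |s|) - ((k : ℝ) + 1 - |t|)| ≤ |s - t| := by
    have e : ((k : ℝ) + 1 - |s|) - ((k : ℝ) + 1 - |t|) = -(|s| - |t|) := by ring
    rw [e, abs_neg]
    exact abs_abs_sub_abs_le _ _
  exact h1.trans (h2.trans h3)

/-- Clip a real number to `[0,1]`. -/
noncomputable def clip (r : ℝ) : ℝ := max 0 (min 1 r)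

lemma clip_nonneg (r : ℝ) : 0 ≤ clip r := le_max_left _ _
lemma clip_le_one (r : ℝ) : clip r ≤ 1 := max_le zero_le_one (min_le_left _ _)
lemma clip_cont : Continuous clip := continuous_const.max (continuous_const.min continuous_id)
lemma clip_zero : clip 0 = 0 := by simp [clip]
lemma clip_one : clip 1 = 1 := by simp [clip]

/-- The function with value `t_j` on `[jL - k, jL + k]`, where `L = 2k+2`. -/
noncomputable def fn (k M : ℕ) (t : Fin (M + 1) → ℝ) (s : ℝ) : ℝ :=
  Finset.univ.sup' ⟨0, Finset.mem_univ _⟩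
    (fun j : Fin (M + 1) => clip (t j) * trap k (s - (j : ℕ) * ((2 * k + 2 : ℕ) : ℝ)))

lemma fn_nonneg (k M : ℕ) (t : Fin (M + 1) → ℝ) (s : ℝ) : 0 ≤ fn k M t s :=
  (mul_nonneg (clip_nonneg (t 0)) (trap_nonneg k _)).trans
    (Finset.le_sup' (fun j : Fin (M + 1) => clip (t j) * trap k (s - (j : ℕ) * ((2 * k + 2 : ℕ) : ℝ)))
      (Finset.mem_univ 0))

lemma fn_le_one (k M : ℕ) (t : Fin (M + 1) → ℝ) (s : ℝ) : fn k M t s ≤ 1 := by
  refine Finset.sup'_le _ _ fun j _ => ?_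
  exact mul_le_one₀ (clip_le_one _) (trap_nonneg _ _) (trap_le_one _ _)

lemma fn_le_add (k M : ℕ) (t : Fin (M + 1) → ℝ) (s s' : ℝ) : fn k M t s ≤ fn k M t s' + |s - s'| := by
  refine Finset.sup'_le _ _ fun j _ => ?_
  have h1 := Finset.le_sup' (fun j : Fin (M + 1) =>
    clip (t j) * trap k (s' - (j : ℕ) * ((2 * k + 2 : ℕ) : ℝ))) (Finset.mem_univ j)
  have h2 : clip (t j) * trap k (s - (j : ℕ) * ((2 * k + 2 : ℕ) : ℝ)) ≤
      clip (t j) * trap k (s' - (j : ℕ) * ((2 * k + 2 : ℕ) : ℝ)) + |s - s'| := by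
    have h3 := trap_lip k (s - (j : ℕ) * ((2 * k + 2 : ℕ) : ℝ)) (s' - (j : ℕ) * ((2 * k + 2 : ℕ) : ℝ))
    have e : s - (j : ℕ) * ((2 * k + 2 : ℕ) : ℝ) - (s' - (j : ℕ) * ((2 * k + 2 : ℕ) : ℝ)) = s - s' := by
      ring
    rw [e] at h3
    have h4 := (le_abs_self _).trans h3
    have h5 := clip_nonneg (t j)
    have h6 := clip_le_one (t j)
    have h7 := abs_nonneg (s - s')
    nlinarith
  exact h2.trans (by unfold fn; linarith)

lemma fn_at (k M : ℕ) (t : Fin (M + 1) → ℝ) (j : Fin (M + 1)) {s : ℝ} (hs : |s| ≤ k) :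
    fn k M t (s + (j : ℕ) * ((2 * k + 2 : ℕ) : ℝ)) = clip (t j) := by
  apply le_antisymm
  · refine Finset.sup'_le _ _ fun i _ => ?_
    by_cases hij : i = j
    · subst hij
      have := trap_le_one k (s + (i : ℕ) * ((2 * k + 2 : ℕ) : ℝ) - (i : ℕ) * ((2 * k + 2 : ℕ) : ℝ))
      have h5 := clip_nonneg (t i)
      nlinarith
    · rw [trap_zero, mul_zero]
      · exact clip_nonneg _
      · have h1 : (1 : ℝ) ≤ |((j : ℕ) : ℝ) - ((i : ℕ) : ℝ)| := by
          have h2 : ((j : ℕ) : ℤ) - ((i : ℕ) : ℤ) ≠ 0 := by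
            intro h
            apply hij
            apply Fin.ext
            omega
          have h3 : (1 : ℤ) ≤ |((j : ℕ) : ℤ) - ((i : ℕ) : ℤ)| := Int.one_le_abs h2
          exact_mod_cast h3
        have e : s + (j : ℕ) * ((2 * k + 2 : ℕ) : ℝ) - (i : ℕ) * ((2 * k + 2 : ℕ) : ℝ) =
            (((j : ℕ) : ℝ) - ((i : ℕ) : ℝ)) * ((2 * k + 2 : ℕ) : ℝ) + s := by ring
        rw [e]
        have h4 : |(((j : ℕ) : ℝ) - ((i : ℕ) : ℝ)) * ((2 * k + 2 : ℕ) : ℝ)| - |s| ≤
            |(((j : ℕ) : ℝ) - ((i : ℕ) : ℝ)) * ((2 * k + 2 : ℕ) : ℝ) + s| := by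
          have := abs_sub_abs_le_abs_sub ((((j : ℕ) : ℝ) - ((i : ℕ) : ℝ)) * ((2 * k + 2 : ℕ) : ℝ)) (-s)
          rwa [abs_neg, sub_neg_eq_add] at this
        rw [abs_mul, Nat.abs_cast] at h4
        have h5 : ((2 * k + 2 : ℕ) : ℝ) = 2 * k + 2 := by push_cast; ring
        have h6 : (2 * (k : ℝ) + 2) ≤ |((j : ℕ) : ℝ) - ((i : ℕ) : ℝ)| * ((2 * k + 2 : ℕ) : ℝ) := by
          rw [h5]
          have : (0 : ℝ) ≤ 2 * k + 2 := by positivity
          nlinarith
        linarith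
  · have h1 := Finset.le_sup' (fun i : Fin (M + 1) =>
      clip (t i) * trap k (s + (j : ℕ) * ((2 * k + 2 : ℕ) : ℝ) - (i : ℕ) * ((2 * k + 2 : ℕ) : ℝ)))
      (Finset.mem_univ j)
    refine le_trans (le_of_eq ?_) h1
    rw [add_sub_cancel_right, trap_one hs, mul_one]

/-- `fn` as a point of `Lip`. -/
noncomputable def pt (k M : ℕ) (t : Fin (M + 1) → ℝ) : Lip :=
  ⟨fn k M t, fun s => ⟨fn_nonneg k M t s, fn_le_one k M t s⟩, fun s s' => by
    rw [abs_sub_le_iff]
    have h1 := fn_le_add k M t s s'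
    have h2 := fn_le_add k M t s' s
    rw [abs_sub_comm s' s] at h2
    constructor <;> linarith⟩

lemma pt_cont (k M : ℕ) : Continuous (pt k M) := by
  refine Continuous.subtype_mk (continuous_pi fun s => ?_) _
  unfold fn
  exact Continuous.finset_sup'_apply _ fun j _ =>
    (clip_cont.comp (continuous_apply j)).mul continuous_const

lemma shift_pt (k M : ℕ) (t : Fin (M + 1) → ℝ) (j : Fin (M + 1)) {s : ℝ} (hs : |s| ≤ k) :
    (shift ((j : ℕ) * ((2 * k + 2 : ℕ) : ℝ)) (pt k M t)).1 s = clip (t j) := fn_at k M t j hs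

end Pool.Agent.J4.H74.FlowEnt
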