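import Mathlib
import Pool.Agent.N733.TG.K
import Pool.Agent.N671.DA.Nat

set_option autoImplicit false

/-!
Properties of all integers near `G(q)`, `q` a denominator of a Diophantine approximation, for all points
outside a set of small Hausdorff dimension (helper74).
-/

namespace Pool.Agent.J4.H74.GDim

open Finset Classical
open Pool.Agent.N733.TG Pool.Agent.N671.DA

/-- the number of the `q ≤ X` such that some bad `x` is near `G(q)` -/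
theorem near_count (Good : ℕ → Prop) {G : ℕ → ℝ} {d : ℝ} (hG : Expanding G d) {s κ : ℝ} (hs : 0 ≤ s)
    (hκ : 0 ≤ κ) (hκ1 : κ ≤ 1)
    (hP : ∀ ε : ℝ, 0 < ε → ∃ C : ℝ, ∀ X : ℕ, 1 ≤ X →
      (((Ioc 0 X).filter (fun t => ¬ Good t)).card : ℝ) ≤ C * (X : ℝ) ^ (s + ε)) :
    ∀ ε : ℝ, 0 < ε → ∃ C : ℝ, ∀ X : ℕ, 1 ≤ X →
      (((Icc 1 X).filter (fun q => q ∈ {q : ℕ | ∃ x : ℕ, 1 ≤ x ∧ |(x : ℝ) - G q| ≤ (q : ℝ) ^ κ ∧
        ¬ Good x})).card : ℝ) ≤ C * (X : ℝ) ^ ((d * s + κ) + ε) := by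
  intro ε hε
  have hd0 : 0 < d := by linarith [hG.one_le]
  obtain ⟨K, hK⟩ := nearG_count {x : ℕ | 1 ≤ x ∧ ¬ Good x} (fun x : ℕ => (x : ℝ)) hG (s := s + ε / d)
    (κ := κ) (by positivity) hκ hκ1 (by
      obtain ⟨C, hC⟩ := hP (ε / d) (by positivity)
      refine ⟨|C|, fun X hX => ?_⟩
      have hX1 : 1 ≤ ⌊X⌋₊ := Nat.le_floor (by exact_mod_cast hX)
      have hsub : {t : ℕ | t ∈ {x : ℕ | 1 ≤ x ∧ ¬ Good x} ∧ (t : ℝ) ≤ X} ⊆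
          (((Ioc 0 ⌊X⌋₊).filter (fun t => ¬ Good t) : Finset ℕ) : Set ℕ) := by
        rintro t ⟨⟨ht1, ht⟩, htX⟩
        rw [mem_coe, mem_filter, mem_Ioc]
        exact ⟨⟨ht1, Nat.le_floor htX⟩, ht⟩
      refine ⟨(finite_toSet _).subset hsub, ?_⟩
      have h2 := Set.ncard_le_ncard hsub (finite_toSet _)
      rw [Set.ncard_coe_finset] at h2
      have h6 : ((⌊X⌋₊ : ℕ) : ℝ) ^ (s + ε / d) ≤ X ^ (s + ε / d) :=
        Real.rpow_le_rpow (Nat.cast_nonneg _) (Nat.floor_le (by linarith)) (by positivity)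
      calc _ ≤ (((Ioc 0 ⌊X⌋₊).filter (fun t => ¬ Good t)).card : ℝ) := by exact_mod_cast h2
        _ ≤ C * ((⌊X⌋₊ : ℕ) : ℝ) ^ (s + ε / d) := hC _ hX1
        _ ≤ |C| * X ^ (s + ε / d) :=
          (mul_le_mul_of_nonneg_right (le_abs_self _) (by positivity)).trans
            (mul_le_mul_of_nonneg_left h6 (abs_nonneg _)))
  refine ⟨K, fun X hX => ?_⟩
  have h1 := hK X hX
  have h2 : d * (s + ε / d) + κ = (d * s + κ) + ε := by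
    rw [mul_add, mul_div_cancel₀ _ hd0.ne']
    ring
  rw [h2] at h1
  refine le_trans ?_ h1
  refine Nat.cast_le.2 (card_le_card ?_)
  intro q hq
  rw [mem_filter] at hq ⊢
  obtain ⟨a1, x, a2, a3, a4⟩ := hq
  exact ⟨a1, x, ⟨a2, a4⟩, a3⟩

/-- **All integers near `G(q)`, `q` a denominator of an approximation.** -/
theorem dim_near {m : ℕ} (Good : ℕ → Prop) {G : ℕ → ℝ} {d : ℝ} (hG : Expanding G d) {s κ τ : ℝ}
    (hs : 0 ≤ s) (hκ : 0 ≤ κ) (hκ1 : κ ≤ 1) (hτ : 0 < τ)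
    (hP : ∀ ε : ℝ, 0 < ε → ∃ C : ℝ, ∀ X : ℕ, 1 ≤ X →
      (((Ioc 0 X).filter (fun t => ¬ Good t)).card : ℝ) ≤ C * (X : ℝ) ^ (s + ε))
    (β : Fin m → ℝ) :
    ∃ E : Set (Fin m → ℝ), dimH E ≤ ENNReal.ofReal ((m + (d * s + κ)) / (1 + τ)) ∧
      ∀ α, α ∉ E → ∀ c : ℝ, ∃ Q : ℕ, ∀ q : ℕ, Q ≤ q →
        (∀ j, ∃ p : ℤ, |(q : ℝ) * α j - β j - p| ≤ c * (q : ℝ) ^ (-τ)) →
        ∀ x : ℕ, 1 ≤ x → |(x : ℝ) - G q| ≤ (q : ℝ) ^ κ → Good x := by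
  have hd0 : 0 < d := by linarith [hG.one_le]
  obtain ⟨E, hE, hE2⟩ := dim_nat (m := m) {q : ℕ | ∃ x : ℕ, 1 ≤ x ∧ |(x : ℝ) - G q| ≤ (q : ℝ) ^ κ ∧ ¬ Good x}
    (σ := d * s + κ) (τ := τ) (by positivity) hτ (near_count Good hG hs hκ hκ1 hP) β
  refine ⟨E, hE, fun α hα c => ?_⟩
  obtain ⟨Q, hQ⟩ := (hE2 α hα c).bddAbove
  refine ⟨Q + 1, fun q hq hsol x hx1 hx => ?_⟩
  by_contra hcon
  have := hQ (show q ∈ _ from ⟨⟨x, hx1, hx, hcon⟩, hsol⟩)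
  omega

end Pool.Agent.J4.H74.GDim
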