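import Mathlib

/-!
# Definitions: compact Kähler manifolds, Hartogs figures, equicontinuity
-/

set_option autoImplicit false

open scoped Manifold ContDiff
open Set Filter Topology

namespace Pool.Agent.J4.H74

section Kahler

variable {E : Type} [NormedAddCommGroup E] [NormedSpace ℂ E]

/-- The Levi form of the real function `u` at the point `z` in the direction `v`: the Laplacian at
`t = 0` of the function `t ↦ u (z + t v)` of the complex variable `t`, that is,
`4 ∑ (∂²u/∂z_a∂z̄_b) v_a v̄_b`. -/
noncomputable def levi (u : E → ℝ) (z v : E) : ℝ :=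
  iteratedDeriv 2 (fun s : ℝ => u (z + (s : ℂ) • v)) 0 +
    iteratedDeriv 2 (fun s : ℝ => u (z + ((s : ℂ) * Complex.I) • v)) 0

variable (E) (X : Type) [TopologicalSpace X] [ChartedSpace E X]

/-- A Kähler form on the complex manifold `X` modelled on `E`: a real closed positive `(1,1)`-form
given by local potentials. The manifold is covered by the domains of holomorphic charts `e j`; in the
chart `e j` the form is `i ∂∂̄ (u j)` with a smooth real function `u j` on the range of the chart; it
is positive definite, and on the overlap of two charts the two forms agree. -/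
structure KahlerForm where
  /-- the index set -/
  J : Type
  /-- the charts -/
  e : J → OpenPartialHomeomorph X E
  /-- the potentials -/
  u : J → E → ℝ
  holomorphic : ∀ j, e j ∈ IsManifold.maximalAtlas 𝓘(ℂ, E) ω X
  cover : ∀ x : X, ∃ j, x ∈ (e j).source
  smooth : ∀ j, ContDiffOn ℝ ∞ (u j) (e j).target
  pos : ∀ j, ∀ z ∈ (e j).target, ∀ v : E, v ≠ 0 → 0 < levi (u j) z v
  agree : ∀ j k, ∀ z ∈ (e j).target, (e j).symm z ∈ (e k).source → ∀ v : E,
    levi (fun y => u j y - u k (e k ((e j).symm y))) z v = 0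

/-- `X` is a (connected) compact Kähler manifold modelled on the complex vector space `E`. -/
structure IsCompactKahler : Prop where
  compact : CompactSpace X
  hausdorff : T2Space X
  secondCountable : SecondCountableTopology X
  connected : ConnectedSpace X
  manifold : IsManifold 𝓘(ℂ, E) ω X
  kahler : Nonempty (KahlerForm E X)

end Kahler

/-- `d` is a distance function on `X` which induces the topology of `X`. The distance induced by a
Hermitian metric on a connected complex manifold has this property. -/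
structure IsDist {X : Type} [TopologicalSpace X] (d : X → X → ℝ) : Prop where
  self : ∀ x, d x x = 0
  pos : ∀ x y, x ≠ y → 0 < d x y
  symm : ∀ x y, d x y = d y x
  triangle : ∀ x y z, d x z ≤ d x y + d y z
  isOpen_iff : ∀ s : Set X, IsOpen s ↔ ∀ x ∈ s, ∃ ε : ℝ, 0 < ε ∧ ∀ y, d x y < ε → y ∈ s

/-- The family `F` of maps with values in `X` is equicontinuous at the point `p`, as a family of maps
on `U`. -/
def EquicontAt {M X : Type} [NormedAddCommGroup M] (d : X → X → ℝ) (F : Set (M → X)) (U : Set M)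
    (p : M) : Prop :=
  ∀ ε : ℝ, 0 < ε → ∃ δ : ℝ, 0 < δ ∧ ∀ f ∈ F, ∀ z ∈ U, ‖z - p‖ < δ → d (f z) (f p) < ε

/-- The family `F` is equicontinuous on `U`. -/
def EquicontOn {M X : Type} [NormedAddCommGroup M] (d : X → X → ℝ) (F : Set (M → X)) (U : Set M) :
    Prop :=
  ∀ p ∈ U, EquicontAt d F U p

/-- The open polydisk `Δ^m(ρ)`. -/
def polydisk (m : ℕ) (ρ : ℝ) : Set (Fin m → ℂ) := {z | ∀ i, ‖z i‖ < ρ}

/-- The polydisk `Δ^{n+1} = Δ^n × Δ^1`. -/
def unitPolydisk (n : ℕ) : Set ((Fin n → ℂ) × ℂ) := {p | p.1 ∈ polydisk n 1 ∧ ‖p.2‖ < 1}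

/-- The Hartogs figure `H_n^1(r) = [Δ^n(1-r) × Δ^1] ∪ [Δ^n × A^1(r,1)]`. -/
def hartogs (n : ℕ) (r : ℝ) : Set ((Fin n → ℂ) × ℂ) :=
  {p | p.1 ∈ polydisk n (1 - r) ∧ ‖p.2‖ < 1} ∪ {p | p.1 ∈ polydisk n 1 ∧ r < ‖p.2‖ ∧ ‖p.2‖ < 1}

end Pool.Agent.J4.H74
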