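import Pool.Agent.J4.H74.NSXH

/-! NSX, part (B) (helper74): S_NSX from the identity. -/

set_option autoImplicit false

open MvPolynomial NumberField IsDedekindDomain Module

namespace Pool.Agent.J4.H74.NSXH

open Pool.Agent.J4.H5.VJ

theorem eval_hom (k : Type) [Field k] {ι : Type} [Fintype ι] (A : ℕ)
    (Q : MvPolynomial ι k) (hQ : Q.IsHomogeneous A) :
    ∃ c : (Fin A → ι) → k, ∀ (L : Type) [Field L] [Algebra k L] (x : ι → L),
      aeval x Q = ∑ I, algebraMap k L (c I) * ∏ a, x (I a) := by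
  classical
  by_cases hQ0 : Q = 0
  · exact ⟨0, fun L _ _ x => by simp [hQ0]⟩
  have h0 : ∀ d ∈ Q.support, ∃ I : Fin A → ι,
      ∀ (L : Type) [Field L] (x : ι → L), ∏ p, x p ^ d p = ∏ a, x (I a) := by
    intro d hd
    have h1 : ∑ i, d i = A := by
      have h2 := hQ (MvPolynomial.mem_support_iff.1 hd)
      rw [← h2, Finsupp.weight_apply, Finsupp.sum_fintype _ _ (by simp)]
      simp
    obtain ⟨I, hI⟩ := exists_tuple A (fun i => d i) h1
    exact ⟨I, fun L _ x => hI L x⟩
  obtain ⟨d₀, hd₀⟩ := Finset.nonempty_iff_ne_empty.2 (fun h => hQ0 (MvPolynomial.support_eq_empty.1 h))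
  obtain ⟨I₀, -⟩ := h0 d₀ hd₀
  have h1 : ∀ d : ι →₀ ℕ, ∃ I : Fin A → ι, d ∈ Q.support →
      ∀ (L : Type) [Field L] (x : ι → L), ∏ p, x p ^ d p = ∏ a, x (I a) := by
    intro d
    by_cases hd : d ∈ Q.support
    · obtain ⟨I, hI⟩ := h0 d hd
      exact ⟨I, fun _ => hI⟩
    · exact ⟨I₀, fun h => absurd h hd⟩
  choose I hI using h1
  refine ⟨fun i => ∑ d ∈ Q.support with I d = i, coeff d Q, fun L _ _ x => ?_⟩
  rw [aeval_def, eval₂_eq']
  have h2 : ∀ d ∈ Q.support, algebraMap k L (coeff d Q) * ∏ p, x p ^ d p =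
      algebraMap k L (coeff d Q) * ∏ a, x (I d a) := by
    intro d hd
    rw [hI d hd]
  rw [Finset.sum_congr rfl h2]
  rw [← Finset.sum_fiberwise_of_maps_to (g := I) (t := Finset.univ) (fun _ _ => Finset.mem_univ _)]
  refine Finset.sum_congr rfl fun p _ => ?_
  rw [map_sum, Finset.sum_mul]
  refine Finset.sum_congr rfl fun d hd => ?_
  rw [(Finset.mem_filter.1 hd).2]

/-- the inequality of the heights, linear in `v` -/
theorem main2 (k : Type) [Field k] [NumberField k] {ι τ : Type} [Fintype ι]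
    [Fintype τ] (N A : ℕ) (c : ι → τ → τ → (Fin A → ι) → k) :
    ∃ C : ℝ, ∀ (L : Type) [Field L] [NumberField L] [Algebra k L] (x : ι → L) (v : τ → L)
      (W : τ → L), x ≠ 0 → v ≠ 0 →
      (∀ l b', x l ^ N * v b' = ∑ b, ∑ I : Fin A → ι,
        algebraMap k L (c l b' b I) * (W b * ∏ a, x (I a))) →
      N * heightI k x + heightI k v ≤ heightI k W + A * heightI k x + C := by
  classical
  refine ⟨finrank ℚ k * Real.log (Nat.card (τ × (Fin A → ι))) +
    Height.logHeight (fun p : (ι × τ) × (τ × (Fin A → ι)) =>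
      c p.1.1 p.1.2 p.2.1 p.2.2), fun L _ _ _ x v W hx hv h => ?_⟩
  have hd : (0 : ℝ) < finrank k L := by exact_mod_cast finrank_pos
  have : FiniteDimensional k L := Module.Finite.of_restrictScalars_finite ℚ k L
  have hxN : x ^ N ≠ 0 := by
    obtain ⟨l, hl⟩ := Function.ne_iff.1 hx
    exact Function.ne_iff.2 ⟨l, pow_ne_zero N hl⟩
  have hW : W ≠ 0 := by
    rintro rfl
    obtain ⟨l, hl⟩ := Function.ne_iff.1 hx
    obtain ⟨b, hb⟩ := Function.ne_iff.1 hv
    have := h l b
    simp only [Pi.zero_apply, zero_mul, mul_zero, Finset.sum_const_zero] at this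
    exact (mul_ne_zero (pow_ne_zero _ hl) hb) this
  have e1 : Height.logHeight (fun p : ι × τ => (x ^ N) p.1 * v p.2) =
      N * Height.logHeight x + Height.logHeight v := by
    rw [Height.logHeight_fun_mul_eq hxN hv, Height.logHeight_pow]
  have hX : (fun I : Fin A → ι => ∏ a, x (I a)) ≠ 0 := by
    obtain ⟨l, hl⟩ := Function.ne_iff.1 hx
    exact Function.ne_iff.2 ⟨fun _ => l, Finset.prod_ne_zero_iff.2 fun _ _ => hl⟩
  have e2 : Height.logHeight (fun q : τ × (Fin A → ι) => W q.1 * ∏ a, x (q.2 a)) =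
      Height.logHeight W + A * Height.logHeight x := by
    rw [Height.logHeight_fun_mul_eq hW hX,
      Height.logHeight_fun_prod_eq (x := fun _ : Fin A => x) (fun _ => hx)]
    simp
  have h1 := Height.logHeight_linearMap_apply_le
    (fun p : (ι × τ) × (τ × (Fin A → ι)) => algebraMap k L (c p.1.1 p.1.2 p.2.1 p.2.2))
    (fun q : τ × (Fin A → ι) => W q.1 * ∏ a, x (q.2 a))
  have h2 := Pool.Agent.Helper259.HtExt.logHeight_ext (K := k) (L := L)
    (fun p : (ι × τ) × (τ × (Fin A → ι)) => c p.1.1 p.1.2 p.2.1 p.2.2)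
  have h3 : (Height.totalWeight L : ℝ) = finrank k L * finrank ℚ k := by
    rw [NumberField.totalWeight_eq_finrank, ← finrank_mul_finrank ℚ k L]
    push_cast
    ring
  have h4 : (fun p : ι × τ => (x ^ N) p.1 * v p.2) = fun p : ι × τ =>
      ∑ q : τ × (Fin A → ι), algebraMap k L (c p.1 p.2 q.1 q.2) * (W q.1 * ∏ a, x (q.2 a)) := by
    funext p
    rw [Pi.pow_apply, h p.1 p.2, Fintype.sum_prod_type]
  rw [h2, h3, e2, ← h4, e1] at h1
  unfold heightI
  have e5 : (N : ℝ) * (Height.logHeight x / finrank k L) + (Height.logHeight v / finrank k L) =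
      (N * Height.logHeight x + Height.logHeight v) / finrank k L := by ring
  rw [e5, div_le_iff₀ hd]
  refine h1.trans (le_of_eq ?_)
  field_simp
  ring

/-- part (A): the identity -/
def S_NSXA : Prop := ∀ (k : Type) [Field k] [NumberField k] (n t u s : ℕ)
  (f : Fin t → MvPolynomial (Fin (n + 1)) k) (G : Fin u → MvPolynomial (Fin (n + 1)) k)
  (d : Fin t → ℕ), (∀ i, (f i).IsHomogeneous (d i)) → IsTransV s f G →
  ∃ (N : ℕ) (P : Fin (n + 1) → (Fin s → Fin (n + 1)) → (Fin s → Fin (n + 1)) →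
      MvPolynomial (Fin (n + 1)) k), s ≤ N ∧ (∀ l b' b, (P l b' b).IsHomogeneous (N - s)) ∧
    ∀ (L : Type) [Field L] [NumberField L] [Algebra k L] (x : Fin (n + 1) → L), x ≠ 0 →
    (∀ i, aeval x (f i) = 0) → ∀ α : Fin s → Fin t, gaussRow f α x ≠ 0 → ∀ l b',
      x l ^ N * gaussRow f α x b' =
        ∑ b, aeval x (P l b' b) * ((∏ j, x (b j)) * gaussRow f α x b)

/-- part (B): S_NSX from the identity -/
theorem nsx_of_A (hA : S_NSXA) : S_NSX := by
  intro k _ _ n t u s f G d hf hT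
  obtain ⟨N, P, hsN, hP, h⟩ := hA k n t u s f G d hf hT
  choose c hc using fun l b' b => eval_hom k (N - s) (P l b' b) (hP l b' b)
  obtain ⟨C, hC⟩ := main2 k N (N - s) c
  refine ⟨C, fun L _ _ _ x hx hfx α hg => ?_⟩
  have h1 := hC L x (gaussRow f α x) (fun β => (∏ j, x (β j)) * gaussRow f α x β) hx hg
    (fun l b' => by
      rw [h L x hx hfx α hg l b']
      refine Finset.sum_congr rfl fun b _ => ?_
      rw [hc l b' b L x, Finset.sum_mul]
      refine Finset.sum_congr rfl fun I _ => ?_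
      ring)
  have h2 : heightI k x = height k x := rfl
  have h3 : ((N - s : ℕ) : ℝ) = (N : ℝ) - s := by push_cast [hsN]; ring
  rw [h2, h3] at h1
  linarith

end Pool.Agent.J4.H74.NSXH
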