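import Pool.Agent.J4.H5.VJ.Defs4
import Pool.Agent.Helper259.HtExt

/-! The height half of NSX (helper74): from a bihomogeneous identity to an inequality of heights. -/

set_option autoImplicit false

open MvPolynomial NumberField IsDedekindDomain Module

namespace Pool.Agent.J4.H74.NSXH

open Pool.Agent.J4.H5.VJ

/-- a product of powers as a product over a tuple -/
lemma exists_tuple {ι : Type} [Fintype ι] : ∀ (A : ℕ) (d : ι → ℕ), ∑ i, d i = A →
    ∃ I : Fin A → ι, ∀ (R : Type) [CommSemiring R] (x : ι → R), ∏ i, x i ^ d i = ∏ a, x (I a) := by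
  classical
  intro A d hd
  have hc : Fintype.card (Σ i, Fin (d i)) = A := by
    rw [Fintype.card_sigma]
    simpa using hd
  obtain ⟨e⟩ : Nonempty ((Σ i, Fin (d i)) ≃ Fin A) := ⟨Fintype.equivFinOfCardEq hc⟩
  refine ⟨fun a => (e.symm a).1, fun R _ x => ?_⟩
  rw [e.symm.prod_comp (fun p : Σ i, Fin (d i) => x p.1), Fintype.prod_sigma]
  simp

theorem eval_bihom (k : Type) [Field k] {ι κ : Type} [Fintype ι] [Fintype κ] (A B : ℕ)
    (Q : MvPolynomial (ι ⊕ κ) k)
    (hQ : ∀ d ∈ Q.support, ∑ i, d (Sum.inl i) = A ∧ ∑ j, d (Sum.inr j) = B) :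
    ∃ c : (Fin A → ι) → (Fin B → κ) → k, ∀ (L : Type) [Field L] [Algebra k L] (x : ι → L)
      (v : κ → L), aeval (Sum.elim x v) Q =
        ∑ I, ∑ J, algebraMap k L (c I J) * ((∏ a, x (I a)) * ∏ a, v (J a)) := by
  classical
  by_cases hQ0 : Q = 0
  · exact ⟨0, fun L _ _ x v => by simp [hQ0]⟩
  have h0 : ∀ d ∈ Q.support, ∃ I : (Fin A → ι) × (Fin B → κ),
      ∀ (L : Type) [Field L] (x : ι → L) (v : κ → L),
      ∏ p, (Sum.elim x v) p ^ d p = (∏ a, x (I.1 a)) * ∏ a, v (I.2 a) := by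
    intro d hd
    obtain ⟨I, hI⟩ := exists_tuple A (fun i => d (Sum.inl i)) (hQ d hd).1
    obtain ⟨J, hJ⟩ := exists_tuple B (fun i => d (Sum.inr i)) (hQ d hd).2
    refine ⟨(I, J), fun L _ x v => ?_⟩
    rw [Fintype.prod_sum_type]
    simp only [Sum.elim_inl, Sum.elim_inr]
    rw [hI L x, hJ L v]
  obtain ⟨d₀, hd₀⟩ := Finset.nonempty_iff_ne_empty.2 (fun h => hQ0 (MvPolynomial.support_eq_empty.1 h))
  obtain ⟨I₀, -⟩ := h0 d₀ hd₀
  have h1 : ∀ d : ι ⊕ κ →₀ ℕ, ∃ I : (Fin A → ι) × (Fin B → κ), d ∈ Q.support →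
      ∀ (L : Type) [Field L] (x : ι → L) (v : κ → L),
      ∏ p, (Sum.elim x v) p ^ d p = (∏ a, x (I.1 a)) * ∏ a, v (I.2 a) := by
    intro d
    by_cases hd : d ∈ Q.support
    · obtain ⟨I, hI⟩ := h0 d hd
      exact ⟨I, fun _ => hI⟩
    · exact ⟨I₀, fun h => absurd h hd⟩
  choose I hI using h1
  refine ⟨fun i j => ∑ d ∈ Q.support with I d = (i, j), coeff d Q, fun L _ _ x v => ?_⟩
  rw [aeval_def, eval₂_eq']
  have h2 : ∀ d ∈ Q.support, algebraMap k L (coeff d Q) * ∏ p, (Sum.elim x v) p ^ d p =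
      algebraMap k L (coeff d Q) * ((∏ a, x ((I d).1 a)) * ∏ a, v ((I d).2 a)) := by
    intro d hd
    rw [hI d hd]
  rw [Finset.sum_congr rfl h2]
  rw [← Fintype.sum_prod_type' (f := fun i j => algebraMap k L
    (∑ d ∈ Q.support with I d = (i, j), coeff d Q) * ((∏ a, x (i a)) * ∏ a, v (j a)))]
  rw [← Finset.sum_fiberwise_of_maps_to (g := I) (t := Finset.univ) (fun _ _ => Finset.mem_univ _)]
  refine Finset.sum_congr rfl fun p _ => ?_
  rw [map_sum, Finset.sum_mul]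
  refine Finset.sum_congr rfl fun d hd => ?_
  rw [(Finset.mem_filter.1 hd).2]

theorem main (k : Type) [Field k] [NumberField k] {ι κ τ : Type} [Fintype ι] [Fintype κ]
    [Fintype τ] (N A B : ℕ)
    (c : ι → κ → τ → (Fin A → ι) → (Fin B → κ) → k) :
    ∃ C : ℝ, ∀ (L : Type) [Field L] [NumberField L] [Algebra k L] (x : ι → L) (v : κ → L)
      (W : τ → L), x ≠ 0 → v ≠ 0 →
      (∀ l b', x l ^ N * v b' ^ N = ∑ b, ∑ I : Fin A → ι, ∑ J : Fin B → κ,
        algebraMap k L (c l b' b I J) * (W b * ((∏ a, x (I a)) * ∏ a, v (J a)))) →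
      N * heightI k x + N * heightI k v ≤ heightI k W + A * heightI k x + B * heightI k v + C := by
  classical
  refine ⟨finrank ℚ k * Real.log (Nat.card (τ × (Fin A → ι) × (Fin B → κ))) +
    Height.logHeight (fun p : (ι × κ) × (τ × (Fin A → ι) × (Fin B → κ)) =>
      c p.1.1 p.1.2 p.2.1 p.2.2.1 p.2.2.2), fun L _ _ _ x v W hx hv h => ?_⟩
  have hd : (0 : ℝ) < finrank k L := by exact_mod_cast finrank_pos
  have : FiniteDimensional k L := Module.Finite.of_restrictScalars_finite ℚ k L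
  have hxN : x ^ N ≠ 0 := by
    obtain ⟨l, hl⟩ := Function.ne_iff.1 hx
    exact Function.ne_iff.2 ⟨l, pow_ne_zero N hl⟩
  have hvN : v ^ N ≠ 0 := by
    obtain ⟨l, hl⟩ := Function.ne_iff.1 hv
    exact Function.ne_iff.2 ⟨l, pow_ne_zero N hl⟩
  have hW : W ≠ 0 := by
    rintro rfl
    obtain ⟨l, hl⟩ := Function.ne_iff.1 hx
    obtain ⟨b, hb⟩ := Function.ne_iff.1 hv
    have := h l b
    simp only [Pi.zero_apply, zero_mul, mul_zero, Finset.sum_const_zero] at this
    exact (mul_ne_zero (pow_ne_zero _ hl) (pow_ne_zero _ hb)) this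
  -- the left hand side
  have e1 : Height.logHeight (fun p : ι × κ => (x ^ N) p.1 * (v ^ N) p.2) =
      N * Height.logHeight x + N * Height.logHeight v := by
    rw [Height.logHeight_fun_mul_eq hxN hvN, Height.logHeight_pow, Height.logHeight_pow]
  -- the Segre product
  have hX : (fun I : Fin A → ι => ∏ a, x (I a)) ≠ 0 := by
    obtain ⟨l, hl⟩ := Function.ne_iff.1 hx
    exact Function.ne_iff.2 ⟨fun _ => l, Finset.prod_ne_zero_iff.2 fun _ _ => hl⟩
  have hV : (fun J : Fin B → κ => ∏ a, v (J a)) ≠ 0 := by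
    obtain ⟨l, hl⟩ := Function.ne_iff.1 hv
    exact Function.ne_iff.2 ⟨fun _ => l, Finset.prod_ne_zero_iff.2 fun _ _ => hl⟩
  have hXV : (fun p : (Fin A → ι) × (Fin B → κ) => (∏ a, x (p.1 a)) * ∏ a, v (p.2 a)) ≠ 0 := by
    obtain ⟨l, hl⟩ := Function.ne_iff.1 hX
    obtain ⟨b, hb⟩ := Function.ne_iff.1 hV
    exact Function.ne_iff.2 ⟨(l, b), mul_ne_zero hl hb⟩
  have e2 : Height.logHeight (fun q : τ × (Fin A → ι) × (Fin B → κ) =>
      W q.1 * ((∏ a, x (q.2.1 a)) * ∏ a, v (q.2.2 a))) =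
      Height.logHeight W + (A * Height.logHeight x + B * Height.logHeight v) := by
    rw [Height.logHeight_fun_mul_eq hW hXV, Height.logHeight_fun_mul_eq hX hV,
      Height.logHeight_fun_prod_eq (x := fun _ : Fin A => x) (fun _ => hx),
      Height.logHeight_fun_prod_eq (x := fun _ : Fin B => v) (fun _ => hv)]
    simp
  have h1 := Height.logHeight_linearMap_apply_le
    (fun p : (ι × κ) × (τ × (Fin A → ι) × (Fin B → κ)) =>
      algebraMap k L (c p.1.1 p.1.2 p.2.1 p.2.2.1 p.2.2.2))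
    (fun q : τ × (Fin A → ι) × (Fin B → κ) => W q.1 * ((∏ a, x (q.2.1 a)) * ∏ a, v (q.2.2 a)))
  have h2 := Pool.Agent.Helper259.HtExt.logHeight_ext (K := k) (L := L)
    (fun p : (ι × κ) × (τ × (Fin A → ι) × (Fin B → κ)) =>
      c p.1.1 p.1.2 p.2.1 p.2.2.1 p.2.2.2)
  have h3 : (Height.totalWeight L : ℝ) = finrank k L * finrank ℚ k := by
    rw [NumberField.totalWeight_eq_finrank, ← finrank_mul_finrank ℚ k L]
    push_cast
    ring
  have h4 : (fun p : ι × κ => (x ^ N) p.1 * (v ^ N) p.2) = fun p : ι × κ =>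
      ∑ q : τ × (Fin A → ι) × (Fin B → κ), algebraMap k L (c p.1 p.2 q.1 q.2.1 q.2.2) *
        (W q.1 * ((∏ a, x (q.2.1 a)) * ∏ a, v (q.2.2 a))) := by
    funext p
    rw [Pi.pow_apply, Pi.pow_apply, h p.1 p.2, Fintype.sum_prod_type]
    refine Finset.sum_congr rfl fun b _ => ?_
    rw [Fintype.sum_prod_type]
  rw [h2, h3, e2, ← h4, e1] at h1
  unfold heightI
  have e5 : (N : ℝ) * (Height.logHeight x / finrank k L) + N * (Height.logHeight v / finrank k L) =
      (N * Height.logHeight x + N * Height.logHeight v) / finrank k L := by ring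
  rw [e5, div_le_iff₀ hd]
  refine h1.trans (le_of_eq ?_)
  field_simp
  ring

end Pool.Agent.J4.H74.NSXH
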