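import Pool.Agent.J4.H74.NavEn

/-!
# Comparison and smooth majorants
-/

set_option autoImplicit false

open MeasureTheory Set Filter Topology Metric
open scoped InnerProductSpace ContDiff Laplacian ENNReal

namespace Pool.Agent.J4.H74

open Pool.Agent.Helper486.TP (E)
open Pool.Agent.H314.Dir (lap lap_nonpos_of_isLocalMax lap_sub lap_add lap_const_mul lap_norm_sq)

variable {n : ℕ}

lemma lap_eq (f : E n → ℝ) (x : E n) : (Δ f) x = lap f x := by
  rw [InnerProductSpace.laplacian_eq_iteratedFDeriv_orthonormalBasis f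
    (EuclideanSpace.basisFun (Fin n) ℝ)]
  unfold lap
  refine Finset.sum_congr rfl fun i _ => ?_
  congr 1
  funext j
  fin_cases j <;> simp

lemma compare (hn : 0 < n) {Ω : Set (E n)} (hΩ : IsOpen Ω) {u v : E n → ℝ}
    (hu : ∀ x ∈ Ω, ContDiffAt ℝ 2 u x) (huc : ContinuousOn u (closure Ω))
    (hb : ∀ x ∈ frontier Ω, u x = 0) {R : ℝ} (hR : ∀ x ∈ closure Ω, R ≤ ‖x‖ → u x = 0)
    (hv : ContDiff ℝ ∞ v) (hv0 : ∀ x, 0 ≤ v x)
    (hl : ∀ x ∈ Ω, |(Δ u) x| ≤ -(Δ v) x) : ∀ x ∈ Ω, |u x| ≤ v x := by
  have key : ∀ s : ℝ, |s| = 1 → ∀ x ∈ Ω, s * u x - v x ≤ 0 := by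
    intro s hs x0 hx0
    by_contra hcon
    rw [not_le] at hcon
    have hx0R : ‖x0‖ < R := by
      by_contra h
      rw [hR x0 (subset_closure hx0) (not_lt.1 h), mul_zero, zero_sub] at hcon
      linarith [hv0 x0]
    have hRp : 0 < R := (norm_nonneg _).trans_lt hx0R
    set F0 := s * u x0 - v x0 with hF0
    set η : ℝ := F0 / (2 * R ^ 2) with hη
    have hη0 : 0 < η := by positivity
    have hηR : η * R ^ 2 < F0 := by
      rw [hη]
      field_simp
      linarith
    set F : E n → ℝ := fun x => (s * u x - v x) + η * ‖x‖ ^ 2 with hF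
    have hKc : IsCompact (closure Ω ∩ closedBall (0 : E n) R) :=
      (isCompact_closedBall 0 R).inter_left isClosed_closure
    have hFc : ContinuousOn F (closure Ω ∩ closedBall (0 : E n) R) := by
      refine ContinuousOn.add (ContinuousOn.sub (continuousOn_const.mul (huc.mono inter_subset_left))
        hv.continuous.continuousOn) ?_
      fun_prop
    obtain ⟨x1, hx1, hmax⟩ := hKc.exists_isMaxOn
      ⟨x0, subset_closure hx0, by simpa using hx0R.le⟩ hFc
    have hx1F : F0 ≤ F x1 := by
      have h1 : F x0 ≤ F x1 := hmax ⟨subset_closure hx0, by simpa using hx0R.le⟩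
      have h2 : F0 ≤ F x0 := by
        show F0 ≤ F0 + η * ‖x0‖ ^ 2
        have : 0 ≤ η * ‖x0‖ ^ 2 := by positivity
        linarith
      linarith
    have hx1R : ‖x1‖ ≤ R := by simpa using hx1.2
    have hzero : u x1 ≠ 0 := by
      intro h0
      have h1 : F x1 ≤ η * R ^ 2 := by
        show (s * u x1 - v x1) + η * ‖x1‖ ^ 2 ≤ η * R ^ 2
        rw [h0, mul_zero, zero_sub]
        have h2 := hv0 x1
        have h3 : ‖x1‖ ^ 2 ≤ R ^ 2 := by gcongr
        nlinarith
      linarith
    have hx1Ω : x1 ∈ Ω := by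
      by_contra h
      apply hzero
      apply hb
      rw [frontier, hΩ.interior_eq]
      exact ⟨hx1.1, h⟩
    have hx1lt : ‖x1‖ < R := by
      by_contra h
      exact hzero (hR x1 hx1.1 (not_lt.1 h))
    have hlm : IsLocalMax F x1 := by
      have h1 : ∀ᶠ y in 𝓝 x1, y ∈ Ω := hΩ.mem_nhds hx1Ω
      have h2 : ∀ᶠ y in 𝓝 x1, ‖y‖ < R := continuous_norm.continuousAt.eventually (gt_mem_nhds hx1lt)
      filter_upwards [h1, h2] with y hy1 hy2
      exact hmax ⟨subset_closure hy1, by simpa using hy2.le⟩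
    have hcu : ContDiffAt ℝ 2 u x1 := hu x1 hx1Ω
    have hcv : ContDiffAt ℝ 2 v x1 := (hv.of_le (by norm_cast)).contDiffAt
    have hcsu : ContDiffAt ℝ 2 (fun x => s * u x) x1 := contDiffAt_const.mul hcu
    have hns : ContDiffAt ℝ 2 (fun x : E n => ‖x‖ ^ 2) x1 := (contDiff_norm_sq ℝ).contDiffAt
    have hns2 : ContDiffAt ℝ 2 (fun x : E n => η * ‖x‖ ^ 2) x1 := contDiffAt_const.mul hns
    have hcF : ContDiffAt ℝ 2 F x1 := (hcsu.sub hcv).add hns2
    have h3 := lap_nonpos_of_isLocalMax hcF hlm
    have h4 : lap F x1 = (s * lap u x1 - lap v x1) + η * (2 * n) := by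
      show lap (fun x => (s * u x - v x) + η * ‖x‖ ^ 2) x1 = _
      rw [lap_add (hcsu.sub hcv) hns2, lap_const_mul η hns, lap_norm_sq, lap_sub hcsu hcv,
        lap_const_mul s hcu]
    have h5 := hl x1 hx1Ω
    rw [lap_eq, lap_eq] at h5
    have h6 : -(s * lap u x1) ≤ |lap u x1| := by
      calc -(s * lap u x1) ≤ |s * lap u x1| := neg_le_abs _
        _ = |lap u x1| := by rw [abs_mul, hs, one_mul]
    have h7 : 0 < η * (2 * n) := by
      have : (0 : ℝ) < n := by exact_mod_cast hn
      positivity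
    rw [h4] at h3
    linarith
  intro x hx
  rw [abs_le]
  have h1 := key 1 (by norm_num) x hx
  have h2 := key (-1) (by norm_num) x hx
  constructor <;> linarith

/-- Smooth majorants: if `H` is continuous and nonnegative on the compact set `K` then there is a
smooth function `g ≥ 0` with compact support, strictly larger than `H` on `K` and with almost the
same energy. -/
lemma majorant {K : Set (E n)} (hK : IsCompact K) {H : E n → ℝ} (hH : ContinuousOn H K)
    (hH0 : ∀ x ∈ K, 0 ≤ H x) {δ : ℝ} (hδ : 0 < δ) :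
    ∃ g : E n → ℝ, ContDiff ℝ ∞ g ∧ HasCompactSupport g ∧ (∀ x, 0 ≤ g x) ∧
      (∃ η : ℝ, 0 < η ∧ ∀ x ∈ K, H x + η ≤ g x) ∧
      ∫ x, g x ^ 2 ≤ (∫ x in K, H x ^ 2) + δ := by
  -- a continuous extension with values in `[0, M]`
  obtain ⟨M, hM0, hM⟩ : ∃ M : ℝ, 0 ≤ M ∧ ∀ x ∈ K, H x ≤ M := by
    obtain ⟨M, hM⟩ := hK.exists_bound_of_continuousOn hH
    exact ⟨max M 0, le_max_right _ _, fun x hx => (le_abs_self _).trans ((hM x hx).trans (le_max_left _ _))⟩
  obtain ⟨G, hG⟩ := ContinuousMap.exists_restrict_eq hK.isClosed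
    (⟨fun x : K => H x, continuousOn_iff_continuous_domRestrict.1 hH⟩ : C(K, ℝ))
  have hGK : ∀ x ∈ K, G x = H x := by
    intro x hx
    exact DFunLike.congr_fun hG (⟨x, hx⟩ : K)
  set Ht : E n → ℝ := fun x => max 0 (min M (G x)) with hHt
  have hHtc : Continuous Ht := by
    rw [hHt]
    exact continuous_const.max (continuous_const.min G.continuous)
  have hHt0 : ∀ x, 0 ≤ Ht x := fun x => le_max_left _ _
  have hHtM : ∀ x, Ht x ≤ M := fun x => max_le hM0 (min_le_left _ _)
  have hHtK : ∀ x ∈ K, Ht x = H x := by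
    intro x hx
    rw [hHt]
    simp only
    rw [hGK x hx, min_eq_right (hM x hx), max_eq_right (hH0 x hx)]
  have hKfin : volume K ≠ ⊤ := hK.measure_lt_top.ne
  set m : ℝ := (volume : Measure (E n)).real K with hm
  have hm0 : 0 ≤ m := measureReal_nonneg
  set η : ℝ := min 1 (δ / (2 * ((6 * M + 9) * m + 1))) with hη
  have hη0 : 0 < η := by positivity
  have hη1 : η ≤ 1 := min_le_left _ _
  have hη2 : η * ((6 * M + 9) * m) ≤ δ / 2 := by
    have h1 : η ≤ δ / (2 * ((6 * M + 9) * m + 1)) := min_le_right _ _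
    rw [le_div_iff₀ (by positivity)] at h1
    nlinarith
  set ν : ℝ := δ / (2 * (M + 3) ^ 2) with hν
  have hν0 : 0 < ν := by positivity
  -- a small neighbourhood
  obtain ⟨U₁, hKU₁, hU₁o, hU₁⟩ := K.exists_isOpen_lt_add (μ := (volume : Measure (E n))) hKfin
    (ε := ENNReal.ofReal ν) (by simpa using hν0)
  obtain ⟨R, hR⟩ := hK.isBounded.subset_ball (0 : E n)
  set U : Set (E n) := U₁ ∩ ball 0 R with hU
  have hUo : IsOpen U := hU₁o.inter isOpen_ball
  have hKU : K ⊆ U := fun x hx => ⟨hKU₁ hx, hR hx⟩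
  have hUK : (volume : Measure (E n)).real (U \ K) ≤ ν := by
    rw [Measure.real]
    refine ENNReal.toReal_le_of_le_ofReal hν0.le ?_
    rw [measure_sdiff hKU hK.measurableSet.nullMeasurableSet hKfin, tsub_le_iff_right, add_comm]
    exact (measure_mono inter_subset_left).trans hU₁.le
  have hUfin : volume (U \ K) ≠ ⊤ :=
    ((measure_mono (sdiff_subset.trans inter_subset_right)).trans_lt measure_ball_lt_top).ne
  -- smooth functions
  obtain ⟨θ, hθ0, hθ1, hθ⟩ := exists_contMDiffMap_zero_one_of_isClosed (n := ⊤) (modelWithCornersSelf ℝ (E n))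
    (hUo.isClosed_compl) hK.isClosed (disjoint_compl_left_iff_subset.2 hKU)
  obtain ⟨P, hP, hPa, -⟩ := Continuous.exists_contDiff_approx (n := ⊤)
    (f := fun x => Ht x + 2 * η) (ε := fun _ : E n => η) (hHtc.add continuous_const) continuous_const
    (fun _ => hη0)
  have hP1 : ∀ x, Ht x + η ≤ P x := fun x => by
    have := hPa x
    rw [Real.dist_eq, abs_lt] at this
    linarith [this.1]
  have hP2 : ∀ x, P x ≤ Ht x + 3 * η := fun x => by
    have := hPa x
    rw [Real.dist_eq, abs_lt] at this
    linarith [this.2]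
  have hP0 : ∀ x, 0 ≤ P x := fun x => by linarith [hP1 x, hHt0 x]
  have hθc : ContDiff ℝ ∞ (θ : E n → ℝ) := θ.contMDiff.contDiff
  have hsupp : HasCompactSupport (fun x => θ x * P x) := by
    refine HasCompactSupport.intro (isCompact_closedBall (0 : E n) R) fun x hx => ?_
    have hxU : x ∈ Uᶜ := fun h => hx (ball_subset_closedBall h.2)
    rw [hθ0 hxU]
    simp
  refine ⟨fun x => θ x * P x, hθc.mul hP, hsupp, fun x => mul_nonneg (hθ x).1 (hP0 x), ⟨η, hη0, ?_⟩, ?_⟩
  · intro x hx
    change H x + η ≤ θ x * P x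
    rw [hθ1 hx, Pi.one_apply, one_mul, ← hHtK x hx]
    exact hP1 x
  · -- the energy
    set F : E n → ℝ := fun x => K.indicator (fun x => (H x + 3 * η) ^ 2) x +
      (U \ K).indicator (fun _ => (M + 3) ^ 2) x with hF
    have hHi : ContinuousOn (fun x => (H x + 3 * η) ^ 2) K := (hH.add continuousOn_const).pow 2
    have hFi1 : Integrable (K.indicator (fun x => (H x + 3 * η) ^ 2)) := by
      rw [integrable_indicator_iff hK.measurableSet]
      exact hHi.integrableOn_compact hK
    have hUKm : MeasurableSet (U \ K) := hUo.measurableSet.diff hK.measurableSet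
    have hFi2 : Integrable ((U \ K).indicator (fun _ => (M + 3) ^ 2)) := by
      rw [integrable_indicator_iff hUKm]
      exact integrableOn_const hUfin
    have hle : ∀ x, (θ x * P x) ^ 2 ≤ F x := by
      intro x
      have h1 : 0 ≤ θ x * P x := mul_nonneg (hθ x).1 (hP0 x)
      have h2 : θ x * P x ≤ P x := by
        have := (hθ x).2
        have h3 := hP0 x
        nlinarith
      by_cases hxK : x ∈ K
      · have h3 : F x = (H x + 3 * η) ^ 2 := by
          simp [hF, hxK]
        rw [h3]
        have h4 := hP2 x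
        rw [hHtK x hxK] at h4
        exact pow_le_pow_left₀ h1 (h2.trans h4) 2
      · by_cases hxU : x ∈ U
        · have h3 : F x = (M + 3) ^ 2 := by
            simp [hF, hxK, hxU]
          rw [h3]
          have h4 := hP2 x
          have h5 := hHtM x
          exact pow_le_pow_left₀ h1 (by linarith) 2
        · have h3 : θ x = 0 := hθ0 hxU
          rw [h3]
          have h4 : F x = 0 := by simp [hF, hxK, hxU]
          rw [h4]
          simp
    have hH2 : IntegrableOn (fun x => H x ^ 2) K := (hH.pow 2).integrableOn_compact hK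
    have hH1 : IntegrableOn (fun x => H x) K := hH.integrableOn_compact hK
    calc ∫ x, (θ x * P x) ^ 2 ≤ ∫ x, F x :=
          integral_mono_of_nonneg (ae_of_all _ fun x => sq_nonneg _) (hFi1.add hFi2) (ae_of_all _ hle)
      _ = (∫ x in K, (H x + 3 * η) ^ 2) + (M + 3) ^ 2 * (volume : Measure (E n)).real (U \ K) := by
          rw [hF, integral_add hFi1 hFi2, integral_indicator hK.measurableSet,
            integral_indicator_const _ hUKm, smul_eq_mul]
          ring
      _ ≤ ((∫ x in K, H x ^ 2) + η * ((6 * M + 9) * m)) + (M + 3) ^ 2 * ν := by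
          gcongr
          have e1 : ∫ x in K, (H x + 3 * η) ^ 2 ≤ ∫ x in K, (H x ^ 2 + η * (6 * M + 9)) := by
            refine setIntegral_mono_on (hHi.integrableOn_compact hK)
              (hH2.add (integrableOn_const hKfin)) hK.measurableSet fun x hx => ?_
            have h1 := hM x hx
            have h2 := hH0 x hx
            have h3 : η * H x ≤ η * M := by gcongr
            have h4 : η ^ 2 ≤ η := by nlinarith
            nlinarith
          refine e1.trans (le_of_eq ?_)
          rw [integral_add hH2 (integrableOn_const hKfin), setIntegral_const, smul_eq_mul]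
          ring
      _ ≤ (∫ x in K, H x ^ 2) + δ := by
          have h1 : (M + 3) ^ 2 * ν = δ / 2 := by
            rw [hν]
            field_simp
          rw [h1]
          linarith

end Pool.Agent.J4.H74
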