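import Pool.Agent.J4.H74.NavPot

/-!
# Decay of the potentials and cut-off
-/

set_option autoImplicit false

open MeasureTheory Set Filter Topology Metric
open scoped InnerProductSpace ContDiff Laplacian ENNReal

namespace Pool.Agent.J4.H74

open Pool.Agent.Helper486.TP (E fe fe_contDiff fe_D fe_DD fe_lap nl_lap_eq int_parts green kint
  subst_eq lap_cont lap_supp hasFDerivAt_g)

variable {n : ℕ}

/-- The `i`-th basis vector. -/
noncomputable abbrev bv (i : Fin n) : E n := EuclideanSpace.basisFun (Fin n) ℝ i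

lemma base_ge {R₀ : ℝ} {a y : E n} (hy : ‖y‖ ≤ R₀) (ha : 2 * R₀ ≤ ‖a‖) (ε : ℝ) :
    (‖a‖ / 2) ^ 2 ≤ ‖y - a‖ ^ 2 + ε ^ 2 := by
  have h1 : ‖a‖ - ‖y‖ ≤ ‖y - a‖ := by
    rw [norm_sub_rev]
    exact norm_sub_norm_le a y
  have h2 : ‖a‖ / 2 ≤ ‖y - a‖ := by linarith
  have h3 : 0 ≤ ‖a‖ / 2 := by positivity
  nlinarith [sq_nonneg ε]

lemma fe_far (hn : 3 ≤ n) {R₀ ε : ℝ} {a y : E n} (hy : ‖y‖ ≤ R₀) (ha : 2 * R₀ ≤ ‖a‖)
    (ha0 : 0 < ‖a‖) : fe ε a y ≤ (‖a‖ / 2) ^ (2 - (n : ℝ)) := by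
  have hn' : (3 : ℝ) ≤ n := by exact_mod_cast hn
  have h1 := base_ge hy ha ε
  have h2 : (‖a‖ / 2) ^ (2 - (n : ℝ)) = ((‖a‖ / 2) ^ 2) ^ ((2 - (n : ℝ)) / 2) := by
    rw [← Real.rpow_natCast (‖a‖ / 2) 2, ← Real.rpow_mul (by positivity)]
    congr 1
    push_cast
    ring
  rw [h2]
  unfold fe
  exact Real.rpow_le_rpow_of_nonpos (by positivity) h1 (by linarith)

lemma fe_D_far (hn : 3 ≤ n) {R₀ ε : ℝ} (hε : 0 < ε) {a y : E n} (hy : ‖y‖ ≤ R₀)
    (ha : 2 * R₀ ≤ ‖a‖) (ha0 : 0 < ‖a‖) (i : Fin n) :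
    |fderiv ℝ (fe ε a) y (bv i)| ≤ (n : ℝ) * (‖a‖ / 2) ^ (1 - (n : ℝ)) := by
  have hn' : (3 : ℝ) ≤ n := by exact_mod_cast hn
  have h1 := base_ge hy ha ε
  rw [fe_D hε a y i, abs_mul, abs_mul]
  set s := ‖y - a‖ ^ 2 + ε ^ 2 with hs
  have hs0 : 0 < s := by positivity
  have h3 : |y i - a i| ≤ s ^ (1 / 2 : ℝ) := by
    have h4 : |y i - a i| ≤ ‖y - a‖ := by
      have := PiLp.norm_apply_le (y - a) i
      simpa using this
    refine h4.trans ?_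
    rw [← Real.sqrt_eq_rpow]
    apply Real.le_sqrt_of_sq_le
    have := sq_nonneg ε
    linarith
  have h5 : 0 < s ^ (-(n : ℝ) / 2) := Real.rpow_pos_of_pos hs0 _
  have h6 : |2 - (n : ℝ)| ≤ n := by
    rw [abs_of_nonpos (by linarith)]
    linarith
  have h7 : s ^ (1 / 2 : ℝ) * s ^ (-(n : ℝ) / 2) = s ^ ((1 - (n : ℝ)) / 2) := by
    rw [← Real.rpow_add hs0]
    congr 1
    ring
  have h8 : (‖a‖ / 2) ^ (1 - (n : ℝ)) = ((‖a‖ / 2) ^ 2) ^ ((1 - (n : ℝ)) / 2) := by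
    rw [← Real.rpow_natCast (‖a‖ / 2) 2, ← Real.rpow_mul (by positivity)]
    congr 1
    push_cast
    ring
  have h9 : s ^ ((1 - (n : ℝ)) / 2) ≤ (‖a‖ / 2) ^ (1 - (n : ℝ)) := by
    rw [h8]
    exact Real.rpow_le_rpow_of_nonpos (by positivity) h1 (by linarith)
  rw [abs_of_pos h5]
  calc |2 - (n : ℝ)| * (|y i - a i| * s ^ (-(n : ℝ) / 2))
      ≤ n * (s ^ (1 / 2 : ℝ) * s ^ (-(n : ℝ) / 2)) := by gcongr
    _ = n * s ^ ((1 - (n : ℝ)) / 2) := by rw [h7]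
    _ ≤ _ := by gcongr

lemma pot_far (hn : 3 ≤ n) {R₀ ε : ℝ} (hε : 0 < ε) {g : E n → ℝ} (hg : ContDiff ℝ ∞ g)
    (hs : HasCompactSupport g) (hR : ∀ y, R₀ < ‖y‖ → g y = 0) {a : E n} (ha : 2 * R₀ ≤ ‖a‖)
    (ha0 : 0 < ‖a‖) :
    |pot ε g a| ≤ ((kap n)⁻¹ * ∫ y, |g y|) * (‖a‖ / 2) ^ (2 - (n : ℝ)) := by
  have hκ := kap_pos hn
  have hgc := hg.continuous
  unfold pot
  rw [abs_mul, abs_of_pos (inv_pos.2 hκ), mul_assoc]
  refine mul_le_mul_of_nonneg_left ?_ (inv_pos.2 hκ).le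
  rw [← integral_mul_const]
  refine abs_integral_le_integral_abs.trans (integral_mono_of_nonneg (ae_of_all _ fun w => abs_nonneg _)
    ?_ (ae_of_all _ fun y => ?_))
  · exact (hgc.abs.integrable_of_hasCompactSupport hs.abs).mul_const _
  · simp only
    have h0 : 0 ≤ fe ε a y := by
      unfold fe
      positivity
    rw [abs_mul, abs_of_nonneg h0, mul_comm]
    by_cases hy : R₀ < ‖y‖
    · rw [hR y hy]
      simp
    · gcongr
      exact fe_far hn (not_lt.1 hy) ha ha0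

lemma pot_D_far (hn : 3 ≤ n) {R₀ ε : ℝ} (hε : 0 < ε) {g : E n → ℝ} (hg : ContDiff ℝ ∞ g)
    (hs : HasCompactSupport g) (hR : ∀ y, R₀ < ‖y‖ → g y = 0) {a : E n} (ha : 2 * R₀ ≤ ‖a‖)
    (ha0 : 0 < ‖a‖) (i : Fin n) :
    |fderiv ℝ (pot ε g) a (bv i)| ≤
      ((kap n)⁻¹ * (n * ∫ y, |g y|)) * (‖a‖ / 2) ^ (1 - (n : ℝ)) := by
  have hκ := kap_pos hn
  have hgc := hg.continuous
  rw [pot_D hε hg hs]
  unfold pot
  rw [int_parts (fe ε a) g ((fe_contDiff hε a).of_le (by norm_cast)) (hg.of_le (by norm_cast)) hs,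
    abs_mul, abs_of_pos (inv_pos.2 hκ), mul_assoc, abs_neg]
  refine mul_le_mul_of_nonneg_left ?_ (inv_pos.2 hκ).le
  rw [← integral_const_mul, ← integral_mul_const]
  refine abs_integral_le_integral_abs.trans (integral_mono_of_nonneg (ae_of_all _ fun w => abs_nonneg _)
    ?_ (ae_of_all _ fun y => ?_))
  · exact ((hgc.abs.integrable_of_hasCompactSupport hs.abs).const_mul _).mul_const _
  · simp only
    rw [abs_mul]
    by_cases hy : R₀ < ‖y‖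
    · rw [hR y hy]
      simp
    · have h1 := fe_D_far hn hε (not_lt.1 hy) ha ha0 i
      calc |fderiv ℝ (fe ε a) y (bv i)| * |g y| ≤ ((n : ℝ) * (‖a‖ / 2) ^ (1 - (n : ℝ))) * |g y| := by
            gcongr
        _ = _ := by ring

/-- The cut-off function. -/
noncomputable def bump (n : ℕ) : ContDiffBump (0 : E n) where
  rIn := 1
  rOut := 2
  rIn_pos := one_pos
  rIn_lt_rOut := one_lt_two

/-- The rescaled cut-off function. -/
noncomputable def cut (R : ℝ) (x : E n) : ℝ := bump n (R⁻¹ • x)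

lemma cut_contDiff (R : ℝ) : ContDiff ℝ ∞ (cut R : E n → ℝ) :=
  (bump n).contDiff.comp (contDiff_const_smul R⁻¹)

lemma cut_one {R : ℝ} (hR : 0 < R) {x : E n} (hx : ‖x‖ ≤ R) : cut R x = 1 := by
  apply (bump n).one_of_mem_closedBall
  rw [mem_closedBall_zero_iff, norm_smul, norm_inv, Real.norm_of_nonneg hR.le]
  show R⁻¹ * ‖x‖ ≤ 1
  rw [inv_mul_le_iff₀ hR]
  linarith

lemma cut_zero {R : ℝ} (hR : 0 < R) {x : E n} (hx : 2 * R ≤ ‖x‖) : cut R x = 0 := by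
  apply (bump n).zero_of_le_dist
  rw [dist_zero_right, norm_smul, norm_inv, Real.norm_of_nonneg hR.le]
  show 2 ≤ R⁻¹ * ‖x‖
  rw [le_inv_mul_iff₀ hR]
  linarith

lemma cut_nonneg (R : ℝ) (x : E n) : 0 ≤ cut R x := (bump n).nonneg

lemma cut_le_one (R : ℝ) (x : E n) : cut R x ≤ 1 := (bump n).le_one

lemma cut_supp {R : ℝ} (hR : 0 < R) : HasCompactSupport (cut R : E n → ℝ) := by
  refine HasCompactSupport.intro (isCompact_closedBall 0 (2 * R)) fun x hx => ?_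
  rw [mem_closedBall_zero_iff, not_le] at hx
  exact cut_zero hR hx.le

lemma cut_D {R : ℝ} (x v : E n) :
    fderiv ℝ (cut R : E n → ℝ) x v = R⁻¹ * fderiv ℝ (bump n) (R⁻¹ • x) v := by
  have h1 : HasFDerivAt (fun x : E n => R⁻¹ • x) (R⁻¹ • ContinuousLinearMap.id ℝ (E n)) x :=
    (hasFDerivAt_id x).const_smul R⁻¹
  have h2 : HasFDerivAt (bump n) (fderiv ℝ (bump n) (R⁻¹ • x)) (R⁻¹ • x) :=
    (((bump n).contDiff (n := 1)).differentiable (by norm_num) _).hasFDerivAt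
  have h3 : fderiv ℝ (cut R : E n → ℝ) x = _ := (h2.comp x h1).fderiv
  rw [h3]
  simp

lemma cut_DD {R : ℝ} (x v : E n) :
    fderiv ℝ (fun z => fderiv ℝ (cut R : E n → ℝ) z v) x v =
      (R⁻¹ * R⁻¹) * fderiv ℝ (fun z => fderiv ℝ (bump n) z v) (R⁻¹ • x) v := by
  have h0 : (fun z => fderiv ℝ (cut R : E n → ℝ) z v) =
      fun z => R⁻¹ * fderiv ℝ (bump n) (R⁻¹ • z) v := by
    funext z
    exact cut_D z v
  have h1 : HasFDerivAt (fun x : E n => R⁻¹ • x) (R⁻¹ • ContinuousLinearMap.id ℝ (E n)) x :=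
    (hasFDerivAt_id x).const_smul R⁻¹
  have hb : ContDiff ℝ ∞ (fun z => fderiv ℝ (bump n) z v) := contDiff_dir (bump n).contDiff v
  have h2 : HasFDerivAt (fun z => fderiv ℝ (bump n) z v)
      (fderiv ℝ (fun z => fderiv ℝ (bump n) z v) (R⁻¹ • x)) (R⁻¹ • x) :=
    (hb.differentiable (by simp) _).hasFDerivAt
  have h3 := ((h2.comp x h1).const_mul R⁻¹).fderiv
  rw [h0]
  change fderiv ℝ (fun z => R⁻¹ * ((fun z => fderiv ℝ (bump n) z v) ∘ fun x : E n => R⁻¹ • x) z) x v = _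
  rw [h3]
  simp
  ring

/-- The error term of the cut-off. -/
noncomputable def tail (R : ℝ) (v : E n → ℝ) (x : E n) : ℝ :=
  2 * ∑ i, fderiv ℝ (cut R : E n → ℝ) x (bv i) * fderiv ℝ v x (bv i) +
    v x * (Δ (cut R : E n → ℝ)) x

lemma lap_mul {χ v : E n → ℝ} (hχ : ContDiff ℝ ∞ χ) (hv : ContDiff ℝ ∞ v) (x : E n) :
    (Δ (fun y => χ y * v y)) x = χ x * (Δ v) x +
      (2 * ∑ i, fderiv ℝ χ x (bv i) * fderiv ℝ v x (bv i) + v x * (Δ χ) x) := by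
  rw [nl_lap_eq (hχ.mul hv), nl_lap_eq hχ, nl_lap_eq hv, Finset.mul_sum, Finset.mul_sum,
    Finset.mul_sum, ← Finset.sum_add_distrib, ← Finset.sum_add_distrib]
  refine Finset.sum_congr rfl fun i _ => ?_
  have hd : ∀ {f : E n → ℝ}, ContDiff ℝ ∞ f → ∀ z, DifferentiableAt ℝ f z := fun h z =>
    h.differentiable (by simp) z
  have h1 : (fun z => fderiv ℝ (fun y => χ y * v y) z (bv i)) =
      fun z => χ z * fderiv ℝ v z (bv i) + v z * fderiv ℝ χ z (bv i) := by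
    funext z
    rw [fderiv_fun_mul (hd hχ z) (hd hv z)]
    simp
  rw [h1, fderiv_fun_add ((hd hχ x).fun_mul (hd (contDiff_dir hv _) x))
    ((hd hv x).fun_mul (hd (contDiff_dir hχ _) x)), fderiv_fun_mul (hd hχ x) (hd (contDiff_dir hv _) x),
    fderiv_fun_mul (hd hv x) (hd (contDiff_dir hχ _) x)]
  simp
  ring

lemma lap_const_near {f : E n → ℝ} {c : ℝ} {x : E n} (h : f =ᶠ[𝓝 x] fun _ => c) : (Δ f) x = 0 := by
  have h2 := (InnerProductSpace.laplacian_congr_nhds h).eq_of_nhds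
  rw [h2]
  simp

lemma tail_zero_in {R : ℝ} (hR : 0 < R) (v : E n → ℝ) {x : E n} (hx : ‖x‖ < R) : tail R v x = 0 := by
  have h : (cut R : E n → ℝ) =ᶠ[𝓝 x] fun _ => 1 := by
    have : ∀ᶠ y in 𝓝 x, ‖y‖ < R := continuous_norm.continuousAt.eventually (gt_mem_nhds hx)
    filter_upwards [this] with y hy
    exact cut_one hR hy.le
  unfold tail
  rw [lap_const_near h, h.fderiv_eq]
  simp

lemma tail_zero_out {R : ℝ} (hR : 0 < R) (v : E n → ℝ) {x : E n} (hx : 2 * R < ‖x‖) :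
    tail R v x = 0 := by
  have h : (cut R : E n → ℝ) =ᶠ[𝓝 x] fun _ => 0 := by
    have : ∀ᶠ y in 𝓝 x, 2 * R < ‖y‖ := continuous_norm.continuousAt.eventually (lt_mem_nhds hx)
    filter_upwards [this] with y hy
    exact cut_zero hR hy.le
  unfold tail
  rw [lap_const_near h, h.fderiv_eq]
  simp

lemma bump_bounds (n : ℕ) : ∃ M : ℝ, 0 ≤ M ∧ (∀ (y : E n) (i : Fin n), |fderiv ℝ (bump n) y (bv i)| ≤ M) ∧
    ∀ y : E n, |∑ i : Fin n, fderiv ℝ (fun z => fderiv ℝ (bump n) z (bv i)) y (bv i)| ≤ M := by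
  have hs : HasCompactSupport (bump n : E n → ℝ) := (bump n).hasCompactSupport
  have hc : ContDiff ℝ ∞ (bump n : E n → ℝ) := (bump n).contDiff
  have h1 : ∀ i : Fin n, ∃ C, ∀ y : E n, ‖fderiv ℝ (bump n) y (bv i)‖ ≤ C := fun i =>
    (hs.fderiv_apply (𝕜 := ℝ) _).exists_bound_of_continuous (contDiff_dir hc _).continuous
  have h2 : ∀ i : Fin n, ∃ C, ∀ y : E n,
      ‖fderiv ℝ (fun z => fderiv ℝ (bump n) z (bv i)) y (bv i)‖ ≤ C := fun i =>
    ((hs.fderiv_apply (𝕜 := ℝ) _).fderiv_apply (𝕜 := ℝ) _).exists_bound_of_continuous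
      (contDiff_dir (contDiff_dir hc _) _).continuous
  choose C1 hC1 using h1
  choose C2 hC2 using h2
  refine ⟨∑ i, |C1 i| + ∑ i, |C2 i|, by positivity, fun y i => ?_, fun y => ?_⟩
  · have h3 : |C1 i| ≤ ∑ i, |C1 i| :=
      Finset.single_le_sum (f := fun i => |C1 i|) (fun i _ => abs_nonneg _) (Finset.mem_univ i)
    have h4 : 0 ≤ ∑ i, |C2 i| := by positivity
    have h5 := (hC1 i y).trans (le_abs_self _)
    rw [Real.norm_eq_abs] at h5
    linarith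
  · have h3 : |∑ i : Fin n, fderiv ℝ (fun z => fderiv ℝ (bump n) z (bv i)) y (bv i)| ≤ ∑ i, |C2 i| := by
      refine (Finset.abs_sum_le_sum_abs _ _).trans (Finset.sum_le_sum fun i _ => ?_)
      exact (hC2 i y).trans (le_abs_self _)
    have h4 : 0 ≤ ∑ i, |C1 i| := by positivity
    linarith

/-- The tail is at most `K R^{-n}`. -/
lemma tail_le (hn : 3 ≤ n) {R₀ ε : ℝ} (hR₀ : 0 < R₀) (hε : 0 < ε) {g : E n → ℝ} (hg : ContDiff ℝ ∞ g)
    (hs : HasCompactSupport g) (hR : ∀ y, R₀ < ‖y‖ → g y = 0) :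
    ∃ K : ℝ, 0 ≤ K ∧ ∀ R : ℝ, 2 * R₀ ≤ R → ∀ x : E n, |tail R (pot ε g) x| ≤ K * R ^ (-(n : ℝ)) := by
  obtain ⟨M, hM0, hM1, hM2⟩ := bump_bounds n
  have hκ := kap_pos hn
  set C0 : ℝ := (kap n)⁻¹ * ∫ y, |g y| with hC0
  set C1 : ℝ := (kap n)⁻¹ * (n * ∫ y, |g y|) with hC1
  have hI : 0 ≤ ∫ y, |g y| := integral_nonneg fun y => abs_nonneg _
  have hC0' : 0 ≤ C0 := by positivity
  have hC1' : 0 ≤ C1 := by positivity
  refine ⟨2 * (n * (M * (C1 * 2 ^ ((n : ℝ) - 1)))) + C0 * 2 ^ ((n : ℝ) - 2) * M, by positivity, ?_⟩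
  intro R hRR x
  have hRp : 0 < R := by linarith
  rcases lt_or_ge ‖x‖ R with h | h
  · rw [tail_zero_in hRp _ h, abs_zero]
    positivity
  have ha0 : 0 < ‖x‖ := by linarith
  have ha : 2 * R₀ ≤ ‖x‖ := by linarith
  have hn' : (3 : ℝ) ≤ n := by exact_mod_cast hn
  have b0 : |pot ε g x| ≤ C0 * (2 ^ ((n : ℝ) - 2) * R ^ (2 - (n : ℝ))) := by
    refine (pot_far hn hε hg hs hR ha ha0).trans ?_
    refine mul_le_mul_of_nonneg_left ?_ hC0'
    calc (‖x‖ / 2) ^ (2 - (n : ℝ)) ≤ (R / 2) ^ (2 - (n : ℝ)) :=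
          Real.rpow_le_rpow_of_nonpos (by positivity) (by linarith) (by linarith)
      _ = 2 ^ ((n : ℝ) - 2) * R ^ (2 - (n : ℝ)) := by
          rw [Real.div_rpow hRp.le (by norm_num), div_eq_mul_inv, mul_comm, ← Real.rpow_neg (by norm_num)]
          congr 2
          ring
  have b1 : ∀ i, |fderiv ℝ (pot ε g) x (bv i)| ≤ C1 * (2 ^ ((n : ℝ) - 1) * R ^ (1 - (n : ℝ))) := by
    intro i
    refine (pot_D_far hn hε hg hs hR ha ha0 i).trans ?_
    refine mul_le_mul_of_nonneg_left ?_ hC1'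
    calc (‖x‖ / 2) ^ (1 - (n : ℝ)) ≤ (R / 2) ^ (1 - (n : ℝ)) :=
          Real.rpow_le_rpow_of_nonpos (by positivity) (by linarith) (by linarith)
      _ = 2 ^ ((n : ℝ) - 1) * R ^ (1 - (n : ℝ)) := by
          rw [Real.div_rpow hRp.le (by norm_num), div_eq_mul_inv, mul_comm, ← Real.rpow_neg (by norm_num)]
          congr 2
          ring
  have c1 : ∀ i : Fin n, |fderiv ℝ (cut R : E n → ℝ) x (bv i)| ≤ R⁻¹ * M := by
    intro i
    rw [cut_D, abs_mul, abs_of_pos (inv_pos.2 hRp)]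
    exact mul_le_mul_of_nonneg_left (hM1 _ i) (inv_pos.2 hRp).le
  have c2 : |(Δ (cut R : E n → ℝ)) x| ≤ R⁻¹ * R⁻¹ * M := by
    rw [nl_lap_eq (cut_contDiff R)]
    have : ∑ i, fderiv ℝ (fun z => fderiv ℝ (cut R : E n → ℝ) z (EuclideanSpace.basisFun (Fin n) ℝ i)) x
        (EuclideanSpace.basisFun (Fin n) ℝ i) = (R⁻¹ * R⁻¹) *
        ∑ i : Fin n, fderiv ℝ (fun z => fderiv ℝ (bump n) z (bv i)) (R⁻¹ • x) (bv i) := by
      rw [Finset.mul_sum]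
      exact Finset.sum_congr rfl fun i _ => cut_DD x _
    rw [this, abs_mul, abs_of_pos (by positivity)]
    exact mul_le_mul_of_nonneg_left (hM2 _) (by positivity)
  have e1 : R⁻¹ * R ^ (1 - (n : ℝ)) = R ^ (-(n : ℝ)) := by
    rw [← Real.rpow_neg_one, ← Real.rpow_add hRp]
    congr 1
    ring
  have e2 : R⁻¹ * R⁻¹ * R ^ (2 - (n : ℝ)) = R ^ (-(n : ℝ)) := by
    rw [← Real.rpow_neg_one, ← Real.rpow_add hRp, ← Real.rpow_add hRp]
    congr 1
    ring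
  unfold tail
  calc |2 * ∑ i, fderiv ℝ (cut R : E n → ℝ) x (bv i) * fderiv ℝ (pot ε g) x (bv i) +
        pot ε g x * (Δ (cut R : E n → ℝ)) x|
      ≤ 2 * ∑ i : Fin n, (R⁻¹ * M) * (C1 * (2 ^ ((n : ℝ) - 1) * R ^ (1 - (n : ℝ)))) +
        (C0 * (2 ^ ((n : ℝ) - 2) * R ^ (2 - (n : ℝ)))) * (R⁻¹ * R⁻¹ * M) := by
        refine (abs_add_le _ _).trans (add_le_add ?_ ?_)
        · rw [abs_mul, abs_of_pos (by norm_num : (0 : ℝ) < 2)]
          refine mul_le_mul_of_nonneg_left ?_ (by norm_num)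
          refine (Finset.abs_sum_le_sum_abs _ _).trans (Finset.sum_le_sum fun i _ => ?_)
          rw [abs_mul]
          exact mul_le_mul (c1 i) (b1 i) (abs_nonneg _) (by positivity)
        · rw [abs_mul]
          exact mul_le_mul b0 c2 (abs_nonneg _) (by positivity)
    _ = 2 * (n * (M * (C1 * 2 ^ ((n : ℝ) - 1)))) * (R⁻¹ * R ^ (1 - (n : ℝ))) +
        C0 * 2 ^ ((n : ℝ) - 2) * M * (R⁻¹ * R⁻¹ * R ^ (2 - (n : ℝ))) := by
        rw [Finset.sum_const, Finset.card_univ, Fintype.card_fin, nsmul_eq_mul]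
        ring
    _ = _ := by
        rw [e1, e2]
        ring

end Pool.Agent.J4.H74
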