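import Mathlib

/-!
# The Navier-type critical biharmonic Sobolev constant of a cone: definitions
-/

set_option autoImplicit false

open MeasureTheory Set Filter Topology Metric
open scoped InnerProductSpace ContDiff Laplacian ENNReal

namespace Pool.Agent.J4.H74.Nav

variable {n : ℕ}

/-- The Euclidean space `ℝⁿ`. -/
abbrev Sp (n : ℕ) : Type := EuclideanSpace ℝ (Fin n)

/-- The critical exponent `2** = 2n/(n-4)`. -/
noncomputable def crit (n : ℕ) : ℝ := 2 * n / (n - 4)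

/-- The open cone `{rσ : r > 0, σ ∈ S}` over a subset `S` of the sphere. -/
def cone (S : Set (Sp n)) : Set (Sp n) := {x | ∃ r : ℝ, 0 < r ∧ ∃ σ ∈ S, x = r • σ}

/-- `C²(closure Ω)`: `u` is `C²` in the open set `Ω`, and `u` and its first and second derivatives
extend continuously to the closure of `Ω` (the values of `u` on the closure being those of its
continuous extension). -/
def C2Closure (Ω : Set (Sp n)) (u : Sp n → ℝ) : Prop :=
  ContDiffOn ℝ 2 u Ω ∧ ContinuousOn u (closure Ω) ∧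
  (∃ g : Sp n → (Sp n →L[ℝ] ℝ), ContinuousOn g (closure Ω) ∧ ∀ x ∈ Ω, g x = fderiv ℝ u x) ∧
  (∃ g : Sp n → (Sp n →L[ℝ] Sp n →L[ℝ] ℝ), ContinuousOn g (closure Ω) ∧
    ∀ x ∈ Ω, g x = fderiv ℝ (fderiv ℝ u) x)

/-- The Navier-type class `C²_c(closure Ω \ {0})`: the `u ∈ C²(closure Ω)` that vanish on the
boundary of `Ω`, in a neighbourhood of `0` and in a neighbourhood of infinity. -/
def Navier (Ω : Set (Sp n)) (u : Sp n → ℝ) : Prop :=
  C2Closure Ω u ∧ (∀ x ∈ frontier Ω, u x = 0) ∧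
  (∃ r : ℝ, 0 < r ∧ ∀ x ∈ closure Ω, ‖x‖ < r → u x = 0) ∧
  (∃ R : ℝ, ∀ x ∈ closure Ω, R < ‖x‖ → u x = 0)

/-- The class `C^∞_c(Ω)` of smooth functions with compact support contained in the open set `Ω`. -/
def TestFun (Ω : Set (Sp n)) (u : Sp n → ℝ) : Prop :=
  ContDiff ℝ ∞ u ∧ HasCompactSupport u ∧ tsupport u ⊆ Ω

/-- The Sobolev quotient `∫_Ω |Δu|² / (∫_Ω |u|^{2**})^{2/2**}`. -/
noncomputable def quot (Ω : Set (Sp n)) (u : Sp n → ℝ) : ℝ :=
  (∫ x in Ω, (Δ u) x ^ 2) / (∫ x in Ω, |u x| ^ crit n) ^ (2 / crit n)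

/-- The infimum of the Sobolev quotient over the functions of the class `A` that do not vanish
identically in `Ω`. -/
noncomputable def infQuot (Ω : Set (Sp n)) (A : (Sp n → ℝ) → Prop) : ℝ :=
  sInf {q : ℝ | ∃ u : Sp n → ℝ, A u ∧ (∃ x ∈ Ω, u x ≠ 0) ∧ q = quot Ω u}

/-- The Navier-type critical constant `S_{2**}(Ω;0)`. -/
noncomputable def SNavier (Ω : Set (Sp n)) : ℝ := infQuot Ω (Navier Ω)

/-- `𝒟²(ℝⁿ)`, the completion of `C^∞_c(ℝⁿ)` for the norm `‖Δu‖_{L²}`: its elements are the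
functions `v ∈ L^{2**}(ℝⁿ)` (with Laplacian `f ∈ L²(ℝⁿ)`) for which there are `φ_k ∈ C^∞_c(ℝⁿ)`
with `φ_k → v` in `L^{2**}` and `Δφ_k → f` in `L²`. -/
def D2 (v f : Sp n → ℝ) : Prop :=
  MemLp v (ENNReal.ofReal (crit n)) volume ∧ MemLp f 2 volume ∧
  ∃ φ : ℕ → Sp n → ℝ, (∀ k, TestFun univ (φ k)) ∧
    Tendsto (fun k => ∫ x, |φ k x - v x| ^ crit n) atTop (𝓝 0) ∧
    Tendsto (fun k => ∫ x, ((Δ (φ k)) x - f x) ^ 2) atTop (𝓝 0)

/-- The constant `S**` of the whole space: the infimum over the non-zero elements `v` of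
`𝒟²(ℝⁿ)` of `∫ |Δv|² / (∫ |v|^{2**})^{2/2**}`. -/
noncomputable def SStar (n : ℕ) : ℝ :=
  sInf {q : ℝ | ∃ v f : Sp n → ℝ, D2 v f ∧ ¬ (v =ᵐ[volume] 0) ∧
    q = (∫ x, f x ^ 2) / (∫ x, |v x| ^ crit n) ^ (2 / crit n)}

end Pool.Agent.J4.H74.Nav
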