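import Pool.Agent.J4.H74.NavCut

/-!
# Energy of the cut-off potentials; comparison with functions vanishing on the boundary
-/

set_option autoImplicit false

open MeasureTheory Set Filter Topology Metric
open scoped InnerProductSpace ContDiff Laplacian ENNReal

namespace Pool.Agent.J4.H74

open Pool.Agent.Helper486.TP (E fe fe_contDiff fe_D fe_DD fe_lap nl_lap_eq int_parts green kint
  subst_eq lap_cont lap_supp hasFDerivAt_g)

variable {n : ℕ}

/-- The cut-off potential. -/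
noncomputable def phi (R ε : ℝ) (g : E n → ℝ) (x : E n) : ℝ := cut R x * pot ε g x

lemma phi_contDiff {R ε : ℝ} (hε : 0 < ε) {g : E n → ℝ} (hg : ContDiff ℝ ∞ g)
    (hs : HasCompactSupport g) : ContDiff ℝ ∞ (phi R ε g) :=
  (cut_contDiff R).mul (pot_contDiff hε hg hs)

lemma phi_supp {R : ℝ} (hR : 0 < R) (ε : ℝ) (g : E n → ℝ) : HasCompactSupport (phi R ε g) :=
  (cut_supp hR).mul_right

lemma pot_nonneg (hn : 3 ≤ n) (ε : ℝ) {g : E n → ℝ} (h0 : ∀ x, 0 ≤ g x) (a : E n) :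
    0 ≤ pot ε g a := by
  unfold pot
  refine mul_nonneg (inv_pos.2 (kap_pos hn)).le (integral_nonneg fun y => mul_nonneg ?_ (h0 y))
  unfold fe
  positivity

lemma sq_add_le {x y τ : ℝ} (hτ : 0 < τ) : (x + y) ^ 2 ≤ (1 + τ) * x ^ 2 + (1 + 1 / τ) * y ^ 2 := by
  have h : 0 ≤ (τ * x - y) ^ 2 / τ := by positivity
  have e : (τ * x - y) ^ 2 / τ = (1 + τ) * x ^ 2 + (1 + 1 / τ) * y ^ 2 - (x + y) ^ 2 := by
    field_simp
    ring
  linarith

lemma phi_energy (hn : 3 ≤ n) {ε : ℝ} (hε : 0 < ε) {g : E n → ℝ} (hg : ContDiff ℝ ∞ g)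
    (hs : HasCompactSupport g) {δ : ℝ} (hδ : 0 < δ) :
    ∃ R₁ : ℝ, 0 < R₁ ∧ ∀ R : ℝ, R₁ ≤ R →
      ∫ x, (Δ (phi R ε g)) x ^ 2 ≤ (∫ x, g x ^ 2) + δ := by
  obtain ⟨R₀, hR₀, hR⟩ : ∃ R₀ : ℝ, 0 < R₀ ∧ ∀ y, R₀ < ‖y‖ → g y = 0 := by
    obtain ⟨R', hR'⟩ := (hs.isBounded).subset_closedBall (0 : E n)
    refine ⟨max R' 1, by positivity, fun y hy => ?_⟩
    by_contra h
    have h1 := hR' (subset_tsupport _ (Function.mem_support.2 h))
    rw [mem_closedBall_zero_iff] at h1
    have := le_max_left R' 1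
    linarith
  obtain ⟨K, hK0, hK⟩ := tail_le hn hR₀ hε hg hs hR
  obtain ⟨hA1, hA2⟩ := avg_L2 hn hε hg hs
  set I := ∫ x, g x ^ 2 with hI
  have hI0 : 0 ≤ I := integral_nonneg fun x => sq_nonneg _
  set τ : ℝ := δ / (2 * (I + 1)) with hτd
  have hτ : 0 < τ := by positivity
  have hτI : τ * I ≤ δ / 2 := by
    rw [hτd, div_mul_eq_mul_div, div_le_iff₀ (by positivity)]
    nlinarith
  set b : ℝ := (volume : Measure (E n)).real (ball 0 1) with hb
  have hb0 : 0 ≤ b := measureReal_nonneg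
  have hlim : Tendsto (fun R : ℝ => (1 + 1 / τ) * (K ^ 2 * (2 ^ n * b)) * R ^ (-(n : ℝ))) atTop
      (𝓝 ((1 + 1 / τ) * (K ^ 2 * (2 ^ n * b)) * 0)) :=
    (tendsto_rpow_neg_atTop (by
      have : (3 : ℝ) ≤ n := by exact_mod_cast hn
      linarith)).const_mul _
  rw [mul_zero] at hlim
  have hev : ∀ᶠ R : ℝ in atTop, (1 + 1 / τ) * (K ^ 2 * (2 ^ n * b)) * R ^ (-(n : ℝ)) < δ / 2 :=
    hlim.eventually (gt_mem_nhds (by positivity))
  obtain ⟨R₂, hR₂⟩ := eventually_atTop.1 hev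
  refine ⟨max R₂ (2 * R₀), by positivity, fun R hRR => ?_⟩
  have hRp : 0 < R := lt_of_lt_of_le (by positivity) hRR
  have hR2 : R₂ ≤ R := (le_max_left _ _).trans hRR
  have hR0 : 2 * R₀ ≤ R := (le_max_right _ _).trans hRR
  have hvc := pot_contDiff hε hg hs
  -- the tail
  have htc : Continuous (tail R (pot ε g)) := by
    unfold tail
    refine Continuous.add (continuous_const.mul (continuous_finsetSum _ fun i _ => ?_)) ?_
    · exact (contDiff_dir (cut_contDiff R) _).continuous.mul (contDiff_dir hvc _).continuous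
    · exact hvc.continuous.mul (lap_cont (cut_contDiff R))
  have htail : ∀ x, tail R (pot ε g) x ^ 2 ≤
      (closedBall (0 : E n) (2 * R)).indicator (fun _ => (K * R ^ (-(n : ℝ))) ^ 2) x := by
    intro x
    by_cases hx : x ∈ closedBall (0 : E n) (2 * R)
    · rw [indicator_of_mem hx]
      exact sq_le_sq' (by
        have := (abs_le.1 (hK R hR0 x)).1
        linarith) (abs_le.1 (hK R hR0 x)).2
    · rw [indicator_of_notMem hx]
      rw [mem_closedBall_zero_iff, not_le] at hx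
      rw [tail_zero_out hRp _ hx]
      simp
  have hind : Integrable ((closedBall (0 : E n) (2 * R)).indicator
      (fun _ => (K * R ^ (-(n : ℝ))) ^ 2)) := by
    rw [integrable_indicator_iff measurableSet_closedBall]
    exact integrableOn_const (measure_closedBall_lt_top).ne
  have hti : Integrable (fun x => tail R (pot ε g) x ^ 2) := by
    refine hind.mono (htc.pow 2).aestronglyMeasurable (ae_of_all _ fun x => ?_)
    rw [Real.norm_of_nonneg (sq_nonneg _)]
    exact (htail x).trans (le_abs_self _)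
  have htI : ∫ x, tail R (pot ε g) x ^ 2 ≤ K ^ 2 * (2 ^ n * b) * R ^ (-(n : ℝ)) := by
    refine (integral_mono hti hind htail).trans (le_of_eq ?_)
    rw [integral_indicator_const _ measurableSet_closedBall, smul_eq_mul, Measure.real,
      Measure.addHaar_closedBall _ _ (by positivity), ENNReal.toReal_mul, ENNReal.toReal_ofReal
      (by positivity)]
    have h1 : Module.finrank ℝ (E n) = n := by simp
    rw [h1]
    have h2 : (R ^ (-(n : ℝ))) ^ 2 * (2 * R) ^ n = 2 ^ n * R ^ (-(n : ℝ)) := by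
      rw [mul_pow, Real.rpow_neg hRp.le, Real.rpow_natCast]
      field_simp
    calc (2 * R) ^ n * (volume (ball (0 : E n) 1)).toReal * (K * R ^ (-(n : ℝ))) ^ 2
        = K ^ 2 * b * ((R ^ (-(n : ℝ))) ^ 2 * (2 * R) ^ n) := by
          rw [hb, Measure.real]
          ring
      _ = _ := by rw [h2]; ring
  -- pointwise inequality
  have hpt : ∀ x, (Δ (phi R ε g)) x ^ 2 ≤ (1 + τ) * avg ε g x ^ 2 + (1 + 1 / τ) * tail R (pot ε g) x ^ 2 := by
    intro x
    have h1 : (Δ (phi R ε g)) x = cut R x * (Δ (pot ε g)) x + tail R (pot ε g) x :=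
      lap_mul (cut_contDiff R) hvc x
    rw [h1]
    refine (sq_add_le hτ).trans ?_
    have h2 : (cut R x * (Δ (pot ε g)) x) ^ 2 ≤ avg ε g x ^ 2 := by
      rw [pot_lap hε hg hs, mul_pow, neg_sq]
      have h3 := cut_nonneg R x
      have h4 := cut_le_one R x
      have h5 : cut R x ^ 2 ≤ 1 := by nlinarith
      have h6 := sq_nonneg (avg ε g x)
      nlinarith
    gcongr
  have hint : Integrable (fun x => (1 + τ) * avg ε g x ^ 2 + (1 + 1 / τ) * tail R (pot ε g) x ^ 2) :=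
    (hA1.const_mul _).add (hti.const_mul _)
  calc ∫ x, (Δ (phi R ε g)) x ^ 2
      ≤ ∫ x, ((1 + τ) * avg ε g x ^ 2 + (1 + 1 / τ) * tail R (pot ε g) x ^ 2) :=
        integral_mono_of_nonneg (ae_of_all _ fun x => sq_nonneg _) hint (ae_of_all _ hpt)
    _ = (1 + τ) * (∫ x, avg ε g x ^ 2) + (1 + 1 / τ) * ∫ x, tail R (pot ε g) x ^ 2 := by
        rw [integral_add (hA1.const_mul _) (hti.const_mul _), integral_const_mul, integral_const_mul]
    _ ≤ (1 + τ) * I + (1 + 1 / τ) * (K ^ 2 * (2 ^ n * b) * R ^ (-(n : ℝ))) := by gcongr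
    _ ≤ I + δ := by
        have h7 := (hR₂ R hR2).le
        have h8 : (1 + 1 / τ) * (K ^ 2 * (2 ^ n * b) * R ^ (-(n : ℝ))) =
          (1 + 1 / τ) * (K ^ 2 * (2 ^ n * b)) * R ^ (-(n : ℝ)) := by ring
        rw [h8]
        linarith

end Pool.Agent.J4.H74
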