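import Pool.Agent.J4.H74.NavMain

/-!
# The Navier constant of an open cone equals the constant of the whole space
-/

set_option autoImplicit false

open MeasureTheory Set Filter Topology Metric
open scoped InnerProductSpace ContDiff Laplacian ENNReal

namespace Pool.Agent.J4.H74

open Pool.Agent.Helper486.TP (E lap_continuous lap_comp_sub lap_hasCompactSupport)
open Nav

variable {n : ℕ}

/-- `Δu` is square integrable for `u` in the Navier class. -/
lemma nav_int {Ω : Set (Sp n)} (hΩ : IsOpen Ω) {u : Sp n → ℝ} (hu : Navier Ω u) :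
    IntegrableOn (fun x => (Δ u) x ^ 2) Ω := by
  obtain ⟨⟨hu2, huc, -, ⟨g, hgc, hg⟩⟩, hb, -, ⟨R, hR⟩⟩ := hu
  have hKc : IsCompact (closure Ω ∩ closedBall (0 : Sp n) R) :=
    (isCompact_closedBall 0 R).inter_left isClosed_closure
  have hgc' : ContinuousOn g (closure Ω ∩ closedBall (0 : Sp n) R) := hgc.mono inter_subset_left
  obtain ⟨M, hM⟩ := IsCompact.exists_bound_of_continuousOn
    (E := Sp n →L[ℝ] Sp n →L[ℝ] ℝ) hKc hgc'
  have hbd : ∀ x ∈ Ω, |(Δ u) x| ≤ (closedBall (0 : Sp n) R).indicator (fun _ => (n : ℝ) * M) x := by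
    intro x hx
    by_cases hxR : x ∈ closedBall (0 : Sp n) R
    · rw [indicator_of_mem hxR, lap_sum]
      refine (Finset.abs_sum_le_sum_abs _ _).trans ?_
      calc ∑ i : Fin n, |fderiv ℝ (fderiv ℝ u) x (EuclideanSpace.basisFun (Fin n) ℝ i)
            (EuclideanSpace.basisFun (Fin n) ℝ i)| ≤ ∑ i : Fin n, M := by
            refine Finset.sum_le_sum fun i _ => ?_
            rw [← hg x hx]
            have h1 := (g x).le_opNorm₂ (EuclideanSpace.basisFun (Fin n) ℝ i)
              (EuclideanSpace.basisFun (Fin n) ℝ i)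
            rw [OrthonormalBasis.norm_eq_one, mul_one, mul_one] at h1
            exact h1.trans (hM x ⟨subset_closure hx, hxR⟩)
        _ = n * M := by simp
    · rw [indicator_of_notMem hxR]
      have h1 : u =ᶠ[𝓝 x] fun _ => (0 : ℝ) := by
        have h2 : ∀ᶠ y in 𝓝 x, y ∈ Ω := hΩ.mem_nhds hx
        have h3 : ∀ᶠ y in 𝓝 x, y ∈ (closedBall (0 : Sp n) R)ᶜ :=
          isClosed_closedBall.isOpen_compl.mem_nhds hxR
        filter_upwards [h2, h3] with y hy1 hy2
        refine hR y (subset_closure hy1) ?_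
        simpa using hy2
      rw [lap_const_near h1, abs_zero]
  have hmeas : AEStronglyMeasurable (fun x => (Δ u) x ^ 2) (volume.restrict Ω) := by
    refine ContinuousOn.aestronglyMeasurable ?_ hΩ.measurableSet
    intro x hx
    exact ((lap_contAt (hu2.contDiffAt (hΩ.mem_nhds hx))).pow 2).continuousWithinAt
  have hint : IntegrableOn ((closedBall (0 : Sp n) R).indicator (fun _ => ((n : ℝ) * M) ^ 2)) Ω := by
    have : Integrable ((closedBall (0 : Sp n) R).indicator (fun _ => ((n : ℝ) * M) ^ 2)) := by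
      rw [integrable_indicator_iff measurableSet_closedBall]
      exact integrableOn_const measure_closedBall_lt_top.ne
    exact this.integrableOn
  refine Integrable.mono' hint hmeas ?_
  refine (ae_restrict_iff' hΩ.measurableSet).2 (ae_of_all _ fun x hx => ?_)
  rw [Real.norm_eq_abs, abs_pow]
  have h1 := hbd x hx
  by_cases hxR : x ∈ closedBall (0 : Sp n) R
  · rw [indicator_of_mem hxR] at h1 ⊢
    exact pow_le_pow_left₀ (abs_nonneg _) h1 2
  · rw [indicator_of_notMem hxR] at h1 ⊢
    have : |(Δ u) x| = 0 := le_antisymm h1 (abs_nonneg _)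
    rw [this]
    norm_num

lemma nav_pow_int (hn : 5 ≤ n) {Ω : Set (Sp n)} (hΩ : IsOpen Ω) {u : Sp n → ℝ} (hu : Navier Ω u) :
    IntegrableOn (fun x => |u x| ^ crit n) Ω := by
  have hp := crit_pos hn
  obtain ⟨⟨hu2, huc, -, -⟩, hb, -, ⟨R, hR⟩⟩ := hu
  have hKc : IsCompact (closure Ω ∩ closedBall (0 : Sp n) R) :=
    (isCompact_closedBall 0 R).inter_left isClosed_closure
  obtain ⟨M, hM⟩ := hKc.exists_bound_of_continuousOn (huc.mono inter_subset_left)
  have hmeas : AEStronglyMeasurable (fun x => |u x| ^ crit n) (volume.restrict Ω) := by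
    refine ContinuousOn.aestronglyMeasurable ?_ hΩ.measurableSet
    exact ((huc.mono subset_closure).abs).rpow_const fun x _ => Or.inr hp.le
  have hint : IntegrableOn ((closedBall (0 : Sp n) R).indicator (fun _ => |M| ^ crit n)) Ω := by
    have : Integrable ((closedBall (0 : Sp n) R).indicator (fun _ => |M| ^ crit n)) := by
      rw [integrable_indicator_iff measurableSet_closedBall]
      exact integrableOn_const measure_closedBall_lt_top.ne
    exact this.integrableOn
  refine Integrable.mono' hint hmeas ?_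
  refine (ae_restrict_iff' hΩ.measurableSet).2 (ae_of_all _ fun x hx => ?_)
  rw [Real.norm_eq_abs, abs_of_nonneg (Real.rpow_nonneg (abs_nonneg _) _)]
  by_cases hxR : x ∈ closedBall (0 : Sp n) R
  · rw [indicator_of_mem hxR]
    refine Real.rpow_le_rpow (abs_nonneg _) ?_ hp.le
    exact (hM x ⟨subset_closure hx, hxR⟩).trans (le_abs_self _)
  · rw [indicator_of_notMem hxR]
    have : u x = 0 := hR x (subset_closure hx) (by simpa using hxR)
    rw [this, abs_zero, Real.zero_rpow hp.ne']

/-- The Sobolev inequality, with the constant of the whole space, in the Navier class. -/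
lemma nav_ge (hn : 5 ≤ n) {Ω : Set (Sp n)} (hΩ : IsOpen Ω) {u : Sp n → ℝ} (hu : Navier Ω u) :
    S0 n * (∫ x in Ω, |u x| ^ crit n) ^ (2 / crit n) ≤ ∫ x in Ω, (Δ u) x ^ 2 := by
  have hp := crit_pos hn
  have hi := nav_int hΩ hu
  have hpi := nav_pow_int hn hΩ hu
  obtain ⟨⟨hu2, huc, -, -⟩, hb, -, ⟨R, hR⟩⟩ := hu
  have hlim : Tendsto (fun k : ℕ => ∫ x in Ω, (max (|u x| - 1 / ((k : ℝ) + 1)) 0) ^ crit n) atTop
      (𝓝 (∫ x in Ω, |u x| ^ crit n)) := by
    refine tendsto_integral_of_dominated_convergence (fun x => |u x| ^ crit n) ?_ hpi ?_ ?_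
    · intro k
      refine ContinuousOn.aestronglyMeasurable ?_ hΩ.measurableSet
      refine ContinuousOn.rpow_const ?_ fun x _ => Or.inr hp.le
      have h1 : ContinuousOn (fun x => |u x| - 1 / ((k : ℝ) + 1)) Ω :=
        ((huc.mono subset_closure).abs).sub continuousOn_const
      exact (continuous_id.max continuous_const).comp_continuousOn h1
    · intro k
      refine ae_of_all _ fun x => ?_
      rw [Real.norm_eq_abs, abs_of_nonneg (Real.rpow_nonneg (le_max_right _ _) _)]
      refine Real.rpow_le_rpow (le_max_right _ _) (max_le ?_ (abs_nonneg _)) hp.le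
      have : (0 : ℝ) ≤ 1 / ((k : ℝ) + 1) := by positivity
      linarith
    · refine ae_of_all _ fun x => ?_
      have h1 : Tendsto (fun k : ℕ => max (|u x| - 1 / ((k : ℝ) + 1)) 0) atTop
          (𝓝 (max (|u x| - 0) 0)) :=
        (tendsto_const_nhds.sub tendsto_one_div_add_atTop_nhds_zero_nat).max tendsto_const_nhds
      rw [sub_zero, max_eq_left (abs_nonneg _)] at h1
      exact h1.rpow_const (Or.inr hp.le)
  have hlim2 := ((hlim.rpow_const (p := 2 / crit n) (Or.inr (by positivity))).const_mul (S0 n))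
  refine le_of_tendsto' hlim2 fun k => ?_
  exact key hn hΩ hu2 huc hb hR hi (by positivity)

/-- Every open set in which one can put large translated balls supports translates of all test
functions. -/
lemma translate (hn : 5 ≤ n) {Ω : Set (Sp n)} (hcone : ∀ x ∈ Ω, ∀ t : ℝ, 0 < t → t • x ∈ Ω) (hΩ : IsOpen Ω)
    (hne : Ω.Nonempty) {φ : Sp n → ℝ} (h1 : ContDiff ℝ ∞ φ) (h2 : HasCompactSupport φ)
    (h3 : ∃ x, φ x ≠ 0) :
    ∃ ψ : Sp n → ℝ, TestFun Ω ψ ∧ (∃ x ∈ Ω, ψ x ≠ 0) ∧ quot Ω ψ = quot univ φ := by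
  obtain ⟨x1, hx1⟩ := hne
  obtain ⟨r, hr, hball⟩ := Metric.isOpen_iff.1 hΩ x1 hx1
  obtain ⟨ρ, hρ⟩ := h2.isBounded.subset_closedBall (0 : Sp n)
  set t : ℝ := (|ρ| + 1) / r with ht
  have ht0 : 0 < t := by positivity
  have htr : |ρ| + 1 = t * r := by rw [ht]; field_simp
  set a : Sp n := t • x1 with ha
  have hsub : ∀ y ∈ tsupport φ, y + a ∈ Ω := by
    intro y hy
    have hy1 : ‖y‖ ≤ ρ := by simpa using hρ hy
    have h4 : t⁻¹ • y + x1 ∈ Ω := by
      apply hball
      rw [mem_ball, dist_eq_norm, add_sub_cancel_right, norm_smul, norm_inv, Real.norm_eq_abs,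
        abs_of_pos ht0, inv_mul_lt_iff₀ ht0, ← htr]
      linarith [le_abs_self ρ]
    have h5 := hcone _ h4 t ht0
    rwa [smul_add, smul_inv_smul₀ ht0.ne'] at h5
  set ψ : Sp n → ℝ := fun x => φ (x - a) with hψ
  have hψs : tsupport ψ ⊆ (Homeomorph.addRight a) '' tsupport φ := by
    refine closure_minimal ?_ ((Homeomorph.addRight a).isClosed_image.2 (isClosed_tsupport φ))
    intro x hx
    exact ⟨x - a, subset_tsupport _ hx, by simp⟩
  have hψc : HasCompactSupport ψ :=
    ((h2.isCompact.image (Homeomorph.addRight a).continuous)).of_isClosed_subset (isClosed_tsupport _) hψs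
  have hψΩ : tsupport ψ ⊆ Ω := by
    intro x hx
    obtain ⟨y, hy, rfl⟩ := hψs hx
    exact hsub y hy
  have hψd : ContDiff ℝ ∞ ψ := h1.comp (contDiff_id.sub contDiff_const)
  have hzero : ∀ x, x ∉ Ω → ψ x = 0 := fun x hx =>
    image_eq_zero_of_notMem_tsupport fun h => hx (hψΩ h)
  have hlap : Δ ψ = fun x => (Δ φ) (x - a) := lap_comp_sub φ a
  have hlap0 : ∀ x, x ∉ Ω → (Δ ψ) x = 0 := by
    intro x hx
    refine lap_const_near (c := 0) ?_
    have : (tsupport ψ)ᶜ ∈ 𝓝 x := (isClosed_tsupport ψ).isOpen_compl.mem_nhds fun h => hx (hψΩ h)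
    filter_upwards [this] with y hy
    exact image_eq_zero_of_notMem_tsupport hy
  refine ⟨ψ, ⟨hψd, hψc, hψΩ⟩, ?_, ?_⟩
  · obtain ⟨x, hx⟩ := h3
    refine ⟨x + a, hsub x (subset_tsupport _ hx), ?_⟩
    simpa [hψ] using hx
  · unfold quot
    congr 1
    · rw [setIntegral_eq_integral_of_forall_compl_eq_zero (fun x hx => by rw [hlap0 x hx]; norm_num),
        Measure.restrict_univ, hlap]
      exact integral_sub_right_eq_self (μ := (volume : Measure (Sp n))) (fun x => (Δ φ) x ^ 2) a
    · congr 1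
      have hp : crit n ≠ 0 := (crit_pos hn).ne'
      rw [setIntegral_eq_integral_of_forall_compl_eq_zero (fun x hx => by
        rw [hzero x hx, abs_zero, Real.zero_rpow hp]), Measure.restrict_univ]
      exact integral_sub_right_eq_self (μ := (volume : Measure (Sp n))) (fun x => |φ x| ^ crit n) a

end Pool.Agent.J4.H74
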