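import Pool.Agent.J4.H74.NavCmp
import Pool.Agent.J4.H74.NavDefs

/-!
# The Navier constant is not smaller than the constant of the whole space
-/

set_option autoImplicit false

open MeasureTheory Set Filter Topology Metric
open scoped InnerProductSpace ContDiff Laplacian ENNReal

namespace Pool.Agent.J4.H74

open Pool.Agent.Helper486.TP (E fe lap_cont lap_supp)
open Nav

variable {n : ℕ}

/-- The infimum over test functions. -/
noncomputable def S0 (n : ℕ) : ℝ := infQuot (univ : Set (Sp n)) (TestFun univ)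

lemma lap_sum (u : Sp n → ℝ) (x : Sp n) : (Δ u) x = ∑ i : Fin n,
    fderiv ℝ (fderiv ℝ u) x (EuclideanSpace.basisFun (Fin n) ℝ i)
      (EuclideanSpace.basisFun (Fin n) ℝ i) := by
  rw [InnerProductSpace.laplacian_eq_iteratedFDeriv_orthonormalBasis u
    (EuclideanSpace.basisFun (Fin n) ℝ)]
  refine Finset.sum_congr rfl fun i _ => ?_
  rw [iteratedFDeriv_two_apply]
  simp

lemma lap_contAt {u : Sp n → ℝ} {x : Sp n} (hu : ContDiffAt ℝ 2 u x) : ContinuousAt (Δ u) x := by
  have h1 : ContDiffAt ℝ 1 (fderiv ℝ u) x := hu.fderiv_right (by norm_num)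
  have h2 : ContDiffAt ℝ 0 (fderiv ℝ (fderiv ℝ u)) x := h1.fderiv_right (by norm_num)
  have h3 := h2.continuousAt
  have h4 : (Δ u) = fun x => ∑ i : Fin n,
    fderiv ℝ (fderiv ℝ u) x (EuclideanSpace.basisFun (Fin n) ℝ i)
      (EuclideanSpace.basisFun (Fin n) ℝ i) := by
    funext y
    exact lap_sum u y
  rw [h4]
  refine tendsto_finsetSum _ fun i _ => ?_
  exact (h3.clm_apply continuousAt_const).clm_apply continuousAt_const

lemma crit_pos (hn : 5 ≤ n) : 0 < crit n := by
  have h : (5 : ℝ) ≤ n := by exact_mod_cast hn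
  unfold crit
  have : (0 : ℝ) < n - 4 := by linarith
  positivity

lemma one_le_crit (hn : 5 ≤ n) : 1 ≤ crit n := by
  have h : (5 : ℝ) ≤ n := by exact_mod_cast hn
  unfold crit
  rw [le_div_iff₀ (by linarith)]
  linarith

lemma quot_nonneg (Ω : Set (Sp n)) (u : Sp n → ℝ) : 0 ≤ quot Ω u := by
  unfold quot
  exact div_nonneg (integral_nonneg fun x => sq_nonneg _)
    (Real.rpow_nonneg (integral_nonneg fun x => Real.rpow_nonneg (abs_nonneg _) _) _)

lemma infQuot_nonneg (Ω : Set (Sp n)) (A : (Sp n → ℝ) → Prop) : 0 ≤ infQuot Ω A := by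
  refine Real.sInf_nonneg ?_
  rintro q ⟨u, -, -, rfl⟩
  exact quot_nonneg Ω u

lemma infQuot_bdd (Ω : Set (Sp n)) (A : (Sp n → ℝ) → Prop) :
    BddBelow {q : ℝ | ∃ u : Sp n → ℝ, A u ∧ (∃ x ∈ Ω, u x ≠ 0) ∧ q = quot Ω u} := by
  refine ⟨0, ?_⟩
  rintro q ⟨u, -, -, rfl⟩
  exact quot_nonneg Ω u

lemma infQuot_le {Ω : Set (Sp n)} {A : (Sp n → ℝ) → Prop} {u : Sp n → ℝ} (hu : A u)
    (h : ∃ x ∈ Ω, u x ≠ 0) : infQuot Ω A ≤ quot Ω u :=
  csInf_le (infQuot_bdd Ω A) ⟨u, hu, h, rfl⟩

/-- positivity of the norm of a continuous function -/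
lemma int_pow_pos {Ω : Set (Sp n)} (hΩ : IsOpen Ω) {u : Sp n → ℝ} (hc : ContinuousOn u Ω)
    {p : ℝ} (hp : 0 < p) (hi : IntegrableOn (fun x => |u x| ^ p) Ω) (h : ∃ x ∈ Ω, u x ≠ 0) :
    0 < ∫ x in Ω, |u x| ^ p := by
  obtain ⟨x0, hx0, hx1⟩ := h
  rw [setIntegral_pos_iff_support_of_nonneg_ae (ae_of_all _ fun x => Real.rpow_nonneg (abs_nonneg _) _) hi]
  have ho : IsOpen (Ω ∩ u ⁻¹' {0}ᶜ) := hc.isOpen_inter_preimage hΩ isOpen_compl_singleton
  have hsub : Ω ∩ u ⁻¹' {0}ᶜ ⊆ Function.support (fun x => |u x| ^ p) ∩ Ω := by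
    rintro x ⟨hx, hx'⟩
    refine ⟨?_, hx⟩
    have : u x ≠ 0 := hx'
    rw [Function.mem_support]
    exact (Real.rpow_pos_of_pos (abs_pos.2 this) p).ne'
  exact (ho.measure_pos volume ⟨x0, hx0, hx1⟩).trans_le (measure_mono hsub)

lemma test_int {φ : Sp n → ℝ} (h1 : Continuous φ) (h2 : HasCompactSupport φ) {p : ℝ} (hp : 0 < p) :
    Integrable (fun x => |φ x| ^ p) := by
  refine Continuous.integrable_of_hasCompactSupport ?_ ?_
  · exact h1.abs.rpow_const fun x => Or.inr hp.le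
  · refine h2.mono fun x hx => ?_
    rw [Function.mem_support] at hx ⊢
    intro h
    apply hx
    simp only [h, abs_zero]
    exact Real.zero_rpow hp.ne'

lemma S0_le (hn : 5 ≤ n) {φ : Sp n → ℝ} (h1 : ContDiff ℝ ∞ φ) (h2 : HasCompactSupport φ) :
    S0 n * (∫ x, |φ x| ^ crit n) ^ (2 / crit n) ≤ ∫ x, (Δ φ) x ^ 2 := by
  have hp := crit_pos hn
  by_cases h : ∃ x, φ x ≠ 0
  · have hpos : 0 < ∫ x, |φ x| ^ crit n := by
      have := int_pow_pos (Ω := (univ : Set (Sp n))) isOpen_univ h1.continuous.continuousOn hp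
        ((test_int h1.continuous h2 hp).integrableOn) (by simpa using h)
      simpa using this
    have h3 : S0 n ≤ quot univ φ := infQuot_le ⟨h1, h2, subset_univ _⟩ (by simpa using h)
    unfold quot at h3
    rw [le_div_iff₀ (by
      simp only [Measure.restrict_univ]
      exact Real.rpow_pos_of_pos hpos _)] at h3
    simpa using h3
  · push Not at h
    have h0 : ∫ x, |φ x| ^ crit n = 0 := by
      have : (fun x => |φ x| ^ crit n) = fun _ => 0 := by
        funext x
        rw [h x, abs_zero, Real.zero_rpow hp.ne']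
      rw [this]
      simp
    rw [h0, Real.zero_rpow (by positivity), mul_zero]
    exact integral_nonneg fun x => sq_nonneg _

lemma S0_nonneg : 0 ≤ S0 n := infQuot_nonneg _ _

/-- The comparison, for the truncated function `(|u| - s)₊`. -/
lemma key (hn : 5 ≤ n) {Ω : Set (Sp n)} (hΩ : IsOpen Ω) {u : Sp n → ℝ} (hu : ContDiffOn ℝ 2 u Ω)
    (huc : ContinuousOn u (closure Ω)) (hb : ∀ x ∈ frontier Ω, u x = 0) {R₀ : ℝ}
    (hR : ∀ x ∈ closure Ω, R₀ < ‖x‖ → u x = 0) (hi : IntegrableOn (fun x => (Δ u) x ^ 2) Ω)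
    {s : ℝ} (hs : 0 < s) :
    S0 n * (∫ x in Ω, (max (|u x| - s) 0) ^ crit n) ^ (2 / crit n) ≤ ∫ x in Ω, (Δ u) x ^ 2 := by
  have hp := crit_pos hn
  have hn3 : 3 ≤ n := by omega
  have hn0 : 0 < n := by omega
  refine le_of_forall_pos_le_add fun δ hδ => ?_
  have huD : ∀ x ∈ Ω, ContDiffAt ℝ 2 u x := fun x hx => hu.contDiffAt (hΩ.mem_nhds hx)
  -- the compact set
  set K : Set (Sp n) := closure Ω ∩ {x | s ≤ |u x|} with hK
  have hKcl : IsClosed K := by
    have : K = closure Ω ∩ (fun x => |u x|) ⁻¹' Ici s := rfl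
    rw [this]
    exact huc.abs.preimage_isClosed_of_isClosed isClosed_closure isClosed_Ici
  have hKb : K ⊆ closedBall 0 R₀ := by
    rintro x ⟨hx1, hx2⟩
    rw [mem_closedBall_zero_iff]
    by_contra h
    have := hR x hx1 (not_le.1 h)
    simp only [mem_ofPred_eq, this, abs_zero] at hx2
    linarith
  have hKc : IsCompact K := (isCompact_closedBall _ _).of_isClosed_subset hKcl hKb
  have hin : ∀ x ∈ closure Ω, u x ≠ 0 → x ∈ Ω := by
    intro x hx h0
    by_contra h
    exact h0 (hb x (by rw [frontier, hΩ.interior_eq]; exact ⟨hx, h⟩))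
  have hKΩ : K ⊆ Ω := by
    rintro x ⟨hx1, hx2⟩
    refine hin x hx1 fun h => ?_
    simp only [mem_ofPred_eq, h, abs_zero] at hx2
    linarith
  have hlapc : ContinuousOn (Δ u) Ω := by
    intro x hx
    exact (lap_contAt (huD x hx)).continuousWithinAt
  obtain ⟨g, hg, hgs, hg0, ⟨η, hη, hgη⟩, hgE⟩ := majorant hKc (H := fun x => |(Δ u) x|)
    ((hlapc.mono hKΩ).abs) (fun x _ => abs_nonneg _) (half_pos hδ)
  obtain ⟨ε, hε, hav⟩ := avg_close hn3 hg hgs hη
  set v : Sp n → ℝ := pot ε g with hv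
  have hvc : ContDiff ℝ ∞ v := pot_contDiff hε hg hgs
  have hv0 : ∀ x, 0 ≤ v x := pot_nonneg hn3 ε hg0
  have hvl : ∀ x ∈ K, |(Δ u) x| ≤ -(Δ v) x := by
    intro x hx
    rw [hv, pot_lap hε hg hgs, neg_neg]
    have h1 := hgη x hx
    have h2 := (abs_le.1 (hav x)).1
    linarith
  -- comparison
  have hcmp : ∀ τ : ℝ, |τ| = 1 → ∀ x ∈ Ω, s < τ * u x → τ * u x - s ≤ v x := by
    intro τ hτ
    set W : Set (Sp n) := Ω ∩ (fun x => τ * u x) ⁻¹' Ioi s with hW
    have hcτ : ContinuousOn (fun x => τ * u x) (closure Ω) := continuousOn_const.mul huc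
    have hWo : IsOpen W := (hcτ.mono subset_closure).isOpen_inter_preimage hΩ isOpen_Ioi
    have hWcl : closure W ⊆ closure Ω ∩ (fun x => τ * u x) ⁻¹' Ici s := by
      refine closure_minimal ?_ (hcτ.preimage_isClosed_of_isClosed isClosed_closure isClosed_Ici)
      rintro x ⟨hx1, hx2⟩
      exact ⟨subset_closure hx1, (show s < τ * u x from hx2).le⟩
    have habs : ∀ x, τ * u x ≤ |u x| := fun x => by
      calc τ * u x ≤ |τ * u x| := le_abs_self _
        _ = |u x| := by rw [abs_mul, hτ, one_mul]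
    have hWK : closure W ⊆ K := by
      intro x hx
      obtain ⟨h1, h2⟩ := hWcl hx
      exact ⟨h1, (show s ≤ τ * u x from h2).trans (habs x)⟩
    have hWΩ : closure W ⊆ Ω := hWK.trans hKΩ
    have h := compare (Ω := W) (u := fun x => τ * u x - s) (v := v) hn0 hWo (R := R₀ + 1) ?_ ?_ ?_ ?_ hvc
      hv0 ?_
    · intro x hx hsx
      exact (le_abs_self _).trans (h x ⟨hx, hsx⟩)
    · intro x hx
      exact (contDiffAt_const.mul (huD x hx.1)).sub contDiffAt_const
    · exact (hcτ.mono (hWΩ.trans subset_closure)).sub continuousOn_const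
    · intro x hx
      rw [frontier, hWo.interior_eq] at hx
      have h1 : s ≤ τ * u x := (hWcl hx.1).2
      have h2 : x ∈ Ω := hWΩ hx.1
      have h3 : ¬ s < τ * u x := fun h => hx.2 ⟨h2, h⟩
      show τ * u x - s = 0
      linarith [not_lt.1 h3]
    · intro x hx hxR
      have := hKb (hWK hx)
      rw [mem_closedBall_zero_iff] at this
      linarith
    · intro x hx
      have h1 : (Δ (fun x => τ * u x - s)) x = τ * (Δ u) x := by
        have e : (fun x => τ * u x - s) = (τ • u) - (fun _ => s) := by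
          funext y
          simp
        have hc : ContDiffAt ℝ 2 (τ • u) x := contDiffAt_const.smul (huD x hx.1)
        rw [e, hc.laplacian_sub contDiffAt_const, InnerProductSpace.laplacian_smul _ (huD x hx.1)]
        simp
      rw [h1, abs_mul, hτ, one_mul]
      exact hvl x (hWK (subset_closure hx))
  have hmax : ∀ x ∈ Ω, max (|u x| - s) 0 ≤ v x := by
    intro x hx
    refine max_le ?_ (hv0 x)
    by_contra hcon
    rw [not_le] at hcon
    have h0 := hv0 x
    rcases le_total 0 (u x) with h | h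
    · rw [abs_of_nonneg h] at hcon
      have := hcmp 1 (by simp) x hx (by linarith)
      linarith
    · rw [abs_of_nonpos h] at hcon
      have := hcmp (-1) (by simp) x hx (by linarith)
      linarith
  -- the cut-off
  obtain ⟨R₁, hR₁, hE⟩ := phi_energy hn3 hε hg hgs (half_pos hδ)
  set R : ℝ := max R₁ (R₀ + 1) with hRd
  have hRp : 0 < R := lt_of_lt_of_le hR₁ (le_max_left _ _)
  have hle : ∀ x ∈ Ω, max (|u x| - s) 0 ≤ phi R ε g x := by
    intro x hx
    by_cases hxR : ‖x‖ ≤ R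
    · unfold phi
      rw [cut_one hRp hxR, one_mul]
      exact hmax x hx
    · have h1 : u x = 0 := hR x (subset_closure hx) (by
        have := le_max_right R₁ (R₀ + 1)
        rw [← hRd] at this
        linarith [not_le.1 hxR])
      rw [h1, abs_zero, zero_sub, max_eq_right (by linarith)]
      exact mul_nonneg (cut_nonneg _ _) (hv0 x)
  have hφ1 : ContDiff ℝ ∞ (phi R ε g) := phi_contDiff hε hg hgs
  have hφ2 : HasCompactSupport (phi R ε g) := phi_supp hRp ε g
  have hφ3 := hE R (le_max_left _ _)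
  have hφ4 := S0_le hn hφ1 hφ2
  have hI : ∫ x in Ω, (max (|u x| - s) 0) ^ crit n ≤ ∫ x, |phi R ε g x| ^ crit n := by
    have hint := test_int hφ1.continuous hφ2 hp
    calc ∫ x in Ω, (max (|u x| - s) 0) ^ crit n ≤ ∫ x in Ω, |phi R ε g x| ^ crit n := by
          refine integral_mono_of_nonneg (ae_of_all _ fun x => Real.rpow_nonneg (le_max_right _ _) _)
            hint.integrableOn ?_
          refine (ae_restrict_iff' hΩ.measurableSet).2 (ae_of_all _ fun x hx => ?_)
          exact Real.rpow_le_rpow (le_max_right _ _) ((hle x hx).trans (le_abs_self _)) hp.le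
      _ ≤ ∫ x, |phi R ε g x| ^ crit n :=
          setIntegral_le_integral hint (ae_of_all _ fun x => Real.rpow_nonneg (abs_nonneg _) _)
  have hI0 : 0 ≤ ∫ x in Ω, (max (|u x| - s) 0) ^ crit n :=
    integral_nonneg fun x => Real.rpow_nonneg (le_max_right _ _) _
  have hK2 : ∫ x in K, |(Δ u) x| ^ 2 ≤ ∫ x in Ω, (Δ u) x ^ 2 := by
    simp only [sq_abs]
    exact setIntegral_mono_set hi (ae_of_all _ fun x => sq_nonneg _) (hKΩ.eventuallyLE)
  have hA : S0 n * (∫ x in Ω, (max (|u x| - s) 0) ^ crit n) ^ (2 / crit n)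
      ≤ S0 n * (∫ x, |phi R ε g x| ^ crit n) ^ (2 / crit n) :=
    mul_le_mul_of_nonneg_left (Real.rpow_le_rpow hI0 hI (by positivity)) S0_nonneg
  have hB : (∫ x in K, |(Δ u) x| ^ 2) + δ / 2 + δ / 2 ≤ (∫ x in Ω, (Δ u) x ^ 2) + δ := by linarith
  refine (hA.trans (hφ4.trans (hφ3.trans ?_))).trans hB
  linarith

end Pool.Agent.J4.H74
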