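import Pool.Agent.Helper486.TP.NewtonLap
import Pool.Agent.H314.Dir.Lap

/-!
# Regularised Newtonian potentials
-/

set_option autoImplicit false

open MeasureTheory Set Filter Topology Metric
open scoped InnerProductSpace ContDiff Laplacian ENNReal

namespace Pool.Agent.J4.H74

open Pool.Agent.Helper486.TP (E fe fe_contDiff fe_D fe_DD fe_lap nl_lap_eq int_parts green kint
  subst_eq lap_cont lap_supp hasFDerivAt_g)

variable {n : ℕ}

/-- The unnormalised kernel. -/
noncomputable def kk (n : ℕ) (w : E n) : ℝ :=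
  ((n : ℝ) * (n - 2)) * ((1 : ℝ) + ‖w‖ ^ 2) ^ (-((n : ℝ) + 2) / 2)

lemma kk_pos (hn : 3 ≤ n) (w : E n) : 0 < kk n w := by
  have hn' : (3 : ℝ) ≤ n := by exact_mod_cast hn
  have hcoef : 0 < (n : ℝ) * (n - 2) := by apply mul_pos <;> linarith
  have h1 : 0 < ((1 : ℝ) + ‖w‖ ^ 2) ^ (-((n : ℝ) + 2) / 2) := Real.rpow_pos_of_pos (by positivity) _
  exact mul_pos hcoef h1

lemma kk_int : Integrable (kk n) := kint.const_mul _

/-- The mass of the kernel. -/
noncomputable def kap (n : ℕ) : ℝ := ∫ w : E n, kk n w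

lemma kap_pos (hn : 3 ≤ n) : 0 < kap n := by
  have : Nonempty (Fin n) := ⟨⟨0, by omega⟩⟩
  unfold kap
  rw [integral_pos_iff_support_of_nonneg (fun w => (kk_pos hn w).le) kk_int]
  have : Function.support (kk n) = univ := by
    ext w; simp [(kk_pos hn w).ne']
  rw [this]
  simp

/-- The regularised potential of `g`. -/
noncomputable def pot (ε : ℝ) (g : E n → ℝ) (a : E n) : ℝ := (kap n)⁻¹ * ∫ y, fe ε a y * g y

/-- The average of `g`. -/
noncomputable def avg (ε : ℝ) (g : E n → ℝ) (a : E n) : ℝ := (kap n)⁻¹ * ∫ w, kk n w * g (a + ε • w)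

lemma fe_symm (ε : ℝ) (a y : E n) : fe ε a y = fe ε 0 (a - y) := by
  unfold fe
  rw [norm_sub_rev, sub_zero]

lemma pot_eq_conv (ε : ℝ) (g : E n → ℝ) :
    pot ε g = fun a => (kap n)⁻¹ * (convolution (fe ε 0) g (ContinuousLinearMap.mul ℝ ℝ) volume) a := by
  funext a
  unfold pot
  congr 1
  rw [convolution_def, ← integral_sub_left_eq_self _ volume a]
  refine integral_congr_ae (ae_of_all _ fun t => ?_)
  simp only [ContinuousLinearMap.mul_apply']
  rw [fe_symm, sub_sub_cancel]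

lemma locInt_fe {ε : ℝ} (hε : 0 < ε) : LocallyIntegrable (fe ε (0 : E n)) volume :=
  (fe_contDiff hε 0).continuous.locallyIntegrable

lemma pot_contDiff {ε : ℝ} (hε : 0 < ε) {g : E n → ℝ} (hg : ContDiff ℝ ∞ g)
    (hs : HasCompactSupport g) : ContDiff ℝ ∞ (pot ε g) := by
  rw [pot_eq_conv]
  exact contDiff_const.mul (hs.contDiff_convolution_right _ (locInt_fe hε) hg)

lemma pot_D {ε : ℝ} (hε : 0 < ε) {g : E n → ℝ} (hg : ContDiff ℝ ∞ g) (hs : HasCompactSupport g)
    (a v : E n) : fderiv ℝ (pot ε g) a v = pot ε (fun y => fderiv ℝ g y v) a := by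
  have h1 := hs.hasFDerivAt_convolution_right (ContinuousLinearMap.mul ℝ ℝ) (locInt_fe (n := n) hε)
    (hg.of_le (by norm_cast)) a
  have h2 := (h1.const_mul (kap n)⁻¹).fderiv
  rw [pot_eq_conv, pot_eq_conv]
  rw [h2]
  simp only [smul_apply, smul_eq_mul]
  congr 1
  exact convolution_precompR_apply _ (locInt_fe hε) (hs.fderiv ℝ) (hg.continuous_fderiv (by simp)) a v

lemma contDiff_dir {g : E n → ℝ} (hg : ContDiff ℝ ∞ g) (v : E n) :
    ContDiff ℝ ∞ (fun y => fderiv ℝ g y v) :=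
  (hg.fderiv_right (m := ∞) (by norm_cast)).clm_apply contDiff_const

lemma avg_eq {ε : ℝ} (hε : 0 < ε) (g : E n → ℝ) (a : E n) :
    (kap n)⁻¹ * ∫ y, -((n : ℝ) * (n - 2)) * (ε ^ 2 * (‖y - a‖ ^ 2 + ε ^ 2) ^ (-((n : ℝ) + 2) / 2)) * g y
      = - avg ε g a := by
  rw [subst_eq hε g a]
  unfold avg kk
  ring

lemma pot_lap {ε : ℝ} (hε : 0 < ε) {g : E n → ℝ} (hg : ContDiff ℝ ∞ g)
    (hs : HasCompactSupport g) (a : E n) : (Δ (pot ε g)) a = - avg ε g a := by
  rw [nl_lap_eq (pot_contDiff hε hg hs)]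
  have h1 : ∀ i : Fin n, fderiv ℝ (fun z => fderiv ℝ (pot ε g) z (EuclideanSpace.basisFun (Fin n) ℝ i)) a
      (EuclideanSpace.basisFun (Fin n) ℝ i) =
      (kap n)⁻¹ * ∫ y, fe ε a y * fderiv ℝ (fun z => fderiv ℝ g z (EuclideanSpace.basisFun (Fin n) ℝ i)) y
        (EuclideanSpace.basisFun (Fin n) ℝ i) := by
    intro i
    have e : (fun z => fderiv ℝ (pot ε g) z (EuclideanSpace.basisFun (Fin n) ℝ i)) =
        pot ε (fun y => fderiv ℝ g y (EuclideanSpace.basisFun (Fin n) ℝ i)) := by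
      funext z
      exact pot_D hε hg hs z _
    rw [e, pot_D hε (contDiff_dir hg _) (hs.fderiv_apply (𝕜 := ℝ) _)]
    rfl
  simp only [h1]
  rw [← Finset.mul_sum, ← integral_finsetSum]
  · rw [← avg_eq hε, ← green hε hg hs a]
    congr 1
    refine integral_congr_ae (ae_of_all _ fun y => ?_)
    simp only
    rw [nl_lap_eq hg, Finset.mul_sum]
  · intro i _
    refine Continuous.integrable_of_hasCompactSupport ?_ (HasCompactSupport.mul_left ?_)
    · exact (fe_contDiff hε a).continuous.mul (contDiff_dir (contDiff_dir hg _) _).continuous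
    · exact (hs.fderiv_apply (𝕜 := ℝ) _).fderiv_apply (𝕜 := ℝ) _

lemma avg_cont {ε : ℝ} (hε : 0 < ε) {g : E n → ℝ} (hg : ContDiff ℝ ∞ g)
    (hs : HasCompactSupport g) : Continuous (avg ε g) := by
  have h : avg ε g = fun a => - (Δ (pot ε g)) a := by
    funext a
    rw [pot_lap hε hg hs, neg_neg]
  rw [h]
  exact (lap_cont (pot_contDiff hε hg hs)).neg

/-- First moment of the kernel. -/
lemma kk_mom_int : Integrable (fun w : E n => kk n w * ‖w‖) := by
  have h1 : Integrable (fun w : E n => ((1 : ℝ) + ‖w‖ ^ 2) ^ (-((n : ℝ) + 1) / 2)) := by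
    apply integrable_rpow_neg_one_add_norm_sq
    simp
  have h2 : Integrable (fun w : E n => |(n : ℝ) * (n - 2)| * ((1 : ℝ) + ‖w‖ ^ 2) ^ (-((n : ℝ) + 1) / 2)) :=
    h1.const_mul _
  refine h2.mono (kk_int.1.mul continuous_norm.aestronglyMeasurable) (ae_of_all _ fun w => ?_)
  have hq : 0 < (1 : ℝ) + ‖w‖ ^ 2 := by positivity
  have h3 : ‖w‖ ≤ ((1 : ℝ) + ‖w‖ ^ 2) ^ (1 / 2 : ℝ) := by
    rw [← Real.sqrt_eq_rpow]
    apply Real.le_sqrt_of_sq_le
    linarith
  have h4 : ((1 : ℝ) + ‖w‖ ^ 2) ^ (-((n : ℝ) + 1) / 2) =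
      ((1 : ℝ) + ‖w‖ ^ 2) ^ (-((n : ℝ) + 2) / 2) * ((1 : ℝ) + ‖w‖ ^ 2) ^ (1 / 2 : ℝ) := by
    rw [← Real.rpow_add hq]
    congr 1
    ring
  unfold kk
  have h5 : 0 < ((1 : ℝ) + ‖w‖ ^ 2) ^ (-((n : ℝ) + 2) / 2) := Real.rpow_pos_of_pos hq _
  have h6 : 0 < ((1 : ℝ) + ‖w‖ ^ 2) ^ (-((n : ℝ) + 1) / 2) := Real.rpow_pos_of_pos hq _
  have e1 : ‖(n : ℝ) * (n - 2) * ((1 : ℝ) + ‖w‖ ^ 2) ^ (-((n : ℝ) + 2) / 2) * ‖w‖‖ =
      |(n : ℝ) * (n - 2)| * (((1 : ℝ) + ‖w‖ ^ 2) ^ (-((n : ℝ) + 2) / 2) * ‖w‖) := by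
    rw [Real.norm_eq_abs, abs_mul, abs_mul, abs_of_pos h5, abs_of_nonneg (norm_nonneg w), mul_assoc]
  have e2 : ‖|(n : ℝ) * (n - 2)| * ((1 : ℝ) + ‖w‖ ^ 2) ^ (-((n : ℝ) + 1) / 2)‖ =
      |(n : ℝ) * (n - 2)| * (((1 : ℝ) + ‖w‖ ^ 2) ^ (-((n : ℝ) + 2) / 2) *
        ((1 : ℝ) + ‖w‖ ^ 2) ^ (1 / 2 : ℝ)) := by
    rw [Real.norm_eq_abs, abs_mul, abs_abs, abs_of_pos h6, h4]
  rw [e1, e2]
  gcongr

lemma avg_close (hn : 3 ≤ n) {g : E n → ℝ} (hg : ContDiff ℝ ∞ g) (hs : HasCompactSupport g)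
    {η : ℝ} (hη : 0 < η) : ∃ ε : ℝ, 0 < ε ∧ ∀ a, |avg ε g a - g a| ≤ η := by
  obtain ⟨L, hL⟩ := ContDiff.lipschitzWith_of_hasCompactSupport hs hg (by simp)
  have hκ := kap_pos hn
  set B : ℝ := (kap n)⁻¹ * (L * ∫ w : E n, kk n w * ‖w‖) with hB
  have hB0 : 0 ≤ B := by
    have : 0 ≤ ∫ w : E n, kk n w * ‖w‖ :=
      integral_nonneg fun w => mul_nonneg (kk_pos hn w).le (norm_nonneg _)
    positivity
  refine ⟨η / (B + 1), by positivity, fun a => ?_⟩
  set ε := η / (B + 1) with hεd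
  have hε : 0 < ε := by positivity
  obtain ⟨M, hM⟩ : ∃ M, ∀ y, ‖g y‖ ≤ M := hs.exists_bound_of_continuous hg.continuous
  have hi1 : Integrable (fun w : E n => kk n w * g (a + ε • w)) := by
    refine kk_int.mul_bdd (c := M) ?_ (ae_of_all _ fun w => hM _)
    exact (hg.continuous.comp (by fun_prop)).aestronglyMeasurable
  have hi2 : Integrable (fun w : E n => kk n w * g a) := kk_int.mul_const _
  have h1 : avg ε g a - g a = (kap n)⁻¹ * ∫ w : E n, (kk n w * g (a + ε • w) - kk n w * g a) := by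
    rw [integral_sub hi1 hi2, integral_mul_const]
    unfold avg
    have : (∫ w : E n, kk n w) = kap n := rfl
    rw [this]
    field_simp
  rw [h1, abs_mul, abs_of_pos (inv_pos.2 hκ)]
  have h2 : |∫ w : E n, (kk n w * g (a + ε • w) - kk n w * g a)| ≤
      ∫ w : E n, (L * ε) * (kk n w * ‖w‖) := by
    refine (abs_integral_le_integral_abs).trans (integral_mono_of_nonneg (ae_of_all _ fun w => abs_nonneg _)
      (kk_mom_int.const_mul _) (ae_of_all _ fun w => ?_))
    have h3 := hL.dist_le_mul (a + ε • w) a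
    rw [Real.dist_eq, dist_eq_norm, add_sub_cancel_left, norm_smul, Real.norm_of_nonneg hε.le] at h3
    simp only
    rw [← mul_sub, abs_mul, abs_of_pos (kk_pos hn w)]
    calc kk n w * |g (a + ε • w) - g a| ≤ kk n w * (L * (ε * ‖w‖)) := by
          gcongr
          exact (kk_pos hn w).le
      _ = (L * ε) * (kk n w * ‖w‖) := by ring
  rw [integral_const_mul] at h2
  calc (kap n)⁻¹ * |∫ w : E n, (kk n w * g (a + ε • w) - kk n w * g a)|
      ≤ (kap n)⁻¹ * ((L * ε) * ∫ w : E n, kk n w * ‖w‖) := by gcongr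
    _ = ε * B := by rw [hB]; ring
    _ ≤ ε * (B + 1) := by gcongr; linarith
    _ = η := by rw [hεd]; field_simp

lemma avg_sq_le (hn : 3 ≤ n) {ε : ℝ} {g : E n → ℝ} (hg : Continuous g)
    (hs : HasCompactSupport g) (a : E n) :
    avg ε g a ^ 2 ≤ (kap n)⁻¹ * ∫ w, kk n w * g (a + ε • w) ^ 2 := by
  have hκ := kap_pos hn
  obtain ⟨M, hM⟩ : ∃ M, ∀ y, ‖g y‖ ≤ M := hs.exists_bound_of_continuous hg
  have hc : Continuous (fun w : E n => g (a + ε • w)) := hg.comp (by fun_prop)
  have hi1 : Integrable (fun w : E n => kk n w * g (a + ε • w)) :=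
    kk_int.mul_bdd (c := M) hc.aestronglyMeasurable (ae_of_all _ fun w => hM _)
  have hi2 : Integrable (fun w : E n => kk n w * g (a + ε • w) ^ 2) := by
    refine kk_int.mul_bdd (c := M ^ 2) (hc.pow 2).aestronglyMeasurable (ae_of_all _ fun w => ?_)
    rw [norm_pow]
    exact pow_le_pow_left₀ (norm_nonneg _) (hM _) 2
  set m := avg ε g a with hm
  have h0 : 0 ≤ ∫ w : E n, kk n w * (g (a + ε • w) - m) ^ 2 :=
    integral_nonneg fun w => mul_nonneg (kk_pos hn w).le (sq_nonneg _)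
  have h1 : ∫ w : E n, kk n w * (g (a + ε • w) - m) ^ 2 =
      (∫ w, kk n w * g (a + ε • w) ^ 2) - 2 * m * (∫ w, kk n w * g (a + ε • w)) + m ^ 2 * kap n := by
    have e : ∀ w : E n, kk n w * (g (a + ε • w) - m) ^ 2 = (kk n w * g (a + ε • w) ^ 2 -
        2 * m * (kk n w * g (a + ε • w))) + m ^ 2 * kk n w := fun w => by ring
    simp_rw [e]
    have hi3 : Integrable (fun w : E n => kk n w * g (a + ε • w) ^ 2 -
        2 * m * (kk n w * g (a + ε • w))) := hi2.sub (hi1.const_mul _)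
    rw [integral_add hi3 (kk_int.const_mul _),
      integral_sub hi2 (hi1.const_mul _), integral_const_mul, integral_const_mul]
    rfl
  have h2 : (∫ w, kk n w * g (a + ε • w)) = kap n * m := by
    rw [hm]
    unfold avg
    field_simp
  rw [h1, h2] at h0
  have h3 : m ^ 2 * kap n ≤ ∫ w, kk n w * g (a + ε • w) ^ 2 := by nlinarith
  rw [inv_mul_eq_div, le_div_iff₀ hκ]
  exact h3

lemma avg_L2 (hn : 3 ≤ n) {ε : ℝ} (hε : 0 < ε) {g : E n → ℝ} (hg : ContDiff ℝ ∞ g)
    (hs : HasCompactSupport g) :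
    Integrable (fun a => avg ε g a ^ 2) ∧ ∫ a, avg ε g a ^ 2 ≤ ∫ a, g a ^ 2 := by
  have hκ := kap_pos hn
  have hgc := hg.continuous
  obtain ⟨M, hM⟩ : ∃ M, ∀ y, ‖g y‖ ≤ M := hs.exists_bound_of_continuous hgc
  have hG : Integrable (fun a => g a ^ 2) := by
    have : (fun a => g a ^ 2) = fun a => g a * g a := by funext a; ring
    rw [this]
    exact (hgc.mul hgc).integrable_of_hasCompactSupport hs.mul_left
  have hle : ∫⁻ a, ENNReal.ofReal (avg ε g a ^ 2) ≤ ∫⁻ a, ENNReal.ofReal (g a ^ 2) := by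
    calc ∫⁻ a, ENNReal.ofReal (avg ε g a ^ 2)
        ≤ ∫⁻ a, ∫⁻ w, ENNReal.ofReal ((kap n)⁻¹ * kk n w) * ENNReal.ofReal (g (a + ε • w) ^ 2) := by
          refine lintegral_mono fun a => ?_
          have hc : Continuous (fun w : E n => g (a + ε • w)) := hgc.comp (by fun_prop)
          have hi2 : Integrable (fun w : E n => kk n w * g (a + ε • w) ^ 2) := by
            refine kk_int.mul_bdd (c := M ^ 2) (hc.pow 2).aestronglyMeasurable (ae_of_all _ fun w => ?_)
            rw [norm_pow]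
            exact pow_le_pow_left₀ (norm_nonneg _) (hM _) 2
          have h1 := avg_sq_le (ε := ε) hn hgc hs a
          rw [← integral_const_mul] at h1
          refine (ENNReal.ofReal_le_ofReal h1).trans ?_
          rw [ofReal_integral_eq_lintegral_ofReal (hi2.const_mul _)
            (ae_of_all _ fun w => mul_nonneg (inv_pos.2 hκ).le
              (mul_nonneg (kk_pos hn w).le (sq_nonneg _)))]
          refine lintegral_mono fun w => ?_
          rw [← ENNReal.ofReal_mul (mul_nonneg (inv_pos.2 hκ).le (kk_pos hn w).le), mul_assoc]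
      _ = ∫⁻ w, ∫⁻ a, ENNReal.ofReal ((kap n)⁻¹ * kk n w) * ENNReal.ofReal (g (a + ε • w) ^ 2) := by
          rw [lintegral_lintegral_swap]
          have hk : Measurable (fun w : E n => kk n w) := by
            unfold kk
            fun_prop
          have : Measurable (Function.uncurry fun (a w : E n) =>
              ENNReal.ofReal ((kap n)⁻¹ * kk n w) * ENNReal.ofReal (g (a + ε • w) ^ 2)) := by
            have m1 : Measurable (fun p : E n × E n => ENNReal.ofReal ((kap n)⁻¹ * kk n p.2)) :=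
              ENNReal.measurable_ofReal.comp (measurable_const.mul (hk.comp measurable_snd))
            have m2 : Measurable (fun p : E n × E n => ENNReal.ofReal (g (p.1 + ε • p.2) ^ 2)) := by
              refine ENNReal.measurable_ofReal.comp ?_
              refine Measurable.pow_const ?_ 2
              refine hgc.measurable.comp ?_
              exact (continuous_fst.add (continuous_snd.const_smul ε)).measurable
            exact m1.mul m2
          exact this.aemeasurable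
      _ = ∫⁻ w : E n, ENNReal.ofReal ((kap n)⁻¹ * kk n w) * ∫⁻ a, ENNReal.ofReal (g a ^ 2) := by
          refine lintegral_congr fun w => ?_
          rw [lintegral_const_mul]
          · congr 1
            exact lintegral_add_right_eq_self (fun a => ENNReal.ofReal (g a ^ 2)) (ε • w)
          · refine ENNReal.measurable_ofReal.comp (Measurable.pow_const ?_ 2)
            exact hgc.measurable.comp (by fun_prop)
      _ = 1 * ∫⁻ a, ENNReal.ofReal (g a ^ 2) := by
          rw [lintegral_mul_const' _ _ (by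
            rw [← ofReal_integral_eq_lintegral_ofReal hG (ae_of_all _ fun a => sq_nonneg _)]
            exact ENNReal.ofReal_ne_top)]
          congr 1
          rw [← ofReal_integral_eq_lintegral_ofReal (kk_int.const_mul _)
            (ae_of_all _ fun w => mul_nonneg (inv_pos.2 hκ).le (kk_pos hn w).le),
            integral_const_mul]
          have : (∫ w : E n, kk n w) = kap n := rfl
          rw [this, inv_mul_cancel₀ hκ.ne', ENNReal.ofReal_one]
      _ = _ := one_mul _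
  have hi : Integrable (fun a => avg ε g a ^ 2) := by
    refine ⟨((avg_cont hε hg hs).pow 2).aestronglyMeasurable, ?_⟩
    rw [hasFiniteIntegral_iff_ofReal (ae_of_all _ fun a => sq_nonneg _)]
    refine hle.trans_lt ?_
    rw [← ofReal_integral_eq_lintegral_ofReal hG (ae_of_all _ fun a => sq_nonneg _)]
    exact ENNReal.ofReal_lt_top
  refine ⟨hi, ?_⟩
  rw [← ofReal_integral_eq_lintegral_ofReal hG (ae_of_all _ fun a => sq_nonneg _),
    ← ofReal_integral_eq_lintegral_ofReal hi (ae_of_all _ fun a => sq_nonneg _)] at hle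
  exact (ENNReal.ofReal_le_ofReal_iff (integral_nonneg fun a => sq_nonneg _)).1 hle

end Pool.Agent.J4.H74
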