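import Pool.Agent.N410.DC.Far
import Pool.Agent.R769.MN.Mat
import Pool.Agent.R545.PC.Main

/-!
# Two conditions on graphs which are inherited by quotients: seven sets which are never far from each
other, and matchings with at most eight edges, modulo a set of edges which can be contracted
-/

set_option autoImplicit false
set_option linter.unusedSectionVars false
set_option synthInstance.maxHeartbeats 400000
set_option synthInstance.maxSize 2048

namespace Pool.Agent.J4.H74.OC

open Finset Pool.Agent.TH362.TF Pool.Agent.TH362.TF.Four Pool.Agent.R890.FF Pool.Agent.TH676.Z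
open Pool.Agent.R926.SC Pool.Agent.N410.DC
open Pool.Agent.R545.IN (Mq_ind7)
open Pool.Agent.R769.MN

variable {V E : Type} [Fintype V] [DecidableEq V] [Fintype E] [DecidableEq E]

/-- among any seven disjoint sets with boundary edges, none of them in `F`, two are close -/
def Far7 (s t : E → V) (F : Finset E) : Prop :=
  ∀ X : Fin 7 → Finset V, (∀ i j, i ≠ j → Disjoint (X i) (X j)) →
    (∀ i, Disjoint (crs s t (X i)) F) → (∀ i, (crs s t (X i)).Nonempty) →
    ∃ i j, i ≠ j ∧ CloseS s t (X i) (X j)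

theorem far7_flow {s t : E → V} (h : Far7 s t ∅) (h1 : N1 s t univ) :
    NZ s t univ ∨ PQ s t univ := by
  classical
  by_contra hc
  rw [not_or] at hc
  obtain ⟨π, hM⟩ := exists_Mq s t univ h1 hc.1 hc.2
  set s' : E → V := fun e => π (s e) with hs'
  set t' : E → V := fun e => π (t e) with ht'
  obtain ⟨I, hIc, hnb, hi⟩ := Mq_ind7 hM
  set φ := (Finset.equivFinOfCardEq hIc).symm with hφ
  have key : ∀ y : V, crs s t (univ.filter (fun u => π u ∈ ({y} : Finset V))) = ct s' t' y := by
    intro y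
    ext e
    rw [mem_crs, mem_ct]
    simp [hs', ht']
  obtain ⟨i, j, hij, hcl⟩ := h (fun i => univ.filter (fun u => π u ∈ ({(φ i : V)} : Finset V)))
    (fun i j hij => by
      rw [disjoint_left]
      intro v hv hv'
      have h3 := mem_singleton.1 (mem_filter.1 hv).2
      rw [mem_singleton.1 (mem_filter.1 hv').2] at h3
      exact hij (φ.injective (Subtype.ext h3.symm)))
    (fun i => disjoint_empty_right _)
    (fun i => by
      rw [key]
      obtain ⟨z, hz, e, _, hE⟩ := hnb _ (φ i).2
      refine ⟨e, ?_⟩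
      rw [mem_ct]
      rcases hE with ⟨h2, h3⟩ | ⟨h2, h3⟩
      · intro h4
        have h5 : t' e = (φ i : V) := h4.1 h2
        exact hz (h3.symm.trans h5)
      · intro h4
        have h5 : s' e = (φ i : V) := h4.2 h3
        exact hz (h2.symm.trans h5))
  have hcl' := closeS_map π hcl
  have hXY : (φ i : V) ≠ φ j := fun h2 => hij (φ.injective (Subtype.ext h2))
  have hno : ¬ Nb s' t' univ (φ i : V) (φ j) := hi _ (φ i).2 _ (φ j).2
  have hends : ∀ {y a : V} {e : E}, JnS (π ∘ s) (π ∘ t) {y} a e → Ends s' t' y a e := by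
    intro y a e he
    rcases he with ⟨h2, h3⟩ | ⟨h2, h3⟩
    · exact Or.inl ⟨mem_singleton.1 h2, h3⟩
    · exact Or.inr ⟨h2, mem_singleton.1 h3⟩
  have hends' : ∀ {y a : V} {e : E}, Ends s' t' y a e → Ends s' t' a y e := by
    intro y a e he
    rcases he with ⟨h2, h3⟩ | ⟨h2, h3⟩
    · exact Or.inr ⟨h2, h3⟩
    · exact Or.inl ⟨h2, h3⟩
  rcases hcl' with ⟨e, hE⟩ | ⟨e, f, e', f', a, b, hne, E1, E2, E3, E4⟩
  · refine hno ⟨hXY.symm, e, mem_univ _, ?_⟩
    rcases hE with ⟨h2, h3⟩ | ⟨h2, h3⟩
    · exact Or.inl ⟨mem_singleton.1 h2, mem_singleton.1 h3⟩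
    · exact Or.inr ⟨mem_singleton.1 h2, mem_singleton.1 h3⟩
  · have mid : ∀ (e f : E) (a : V), Ends s' t' (φ i : V) a e → Ends s' t' a (φ j) f →
        a ≠ φ i ∧ a ≠ φ j := by
      intro e f a k1 k2
      refine ⟨fun k3 => ?_, fun k3 => ?_⟩
      · rw [k3] at k2
        exact hno ⟨hXY.symm, f, mem_univ _, k2⟩
      · rw [k3] at k1
        exact hno ⟨hXY.symm, e, mem_univ _, k1⟩
    have F1 := hends E1
    have F2 := hends' (hends E2)
    have F3 := hends E3
    have F4 := hends' (hends E4)
    obtain ⟨A1, A2⟩ := mid e f a F1 F2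
    obtain ⟨B1, B2⟩ := mid e' f' b F3 F4
    by_cases hab : a = b
    · rw [← hab] at F3 F4
      have k3 := hM.nopar A1.symm (mem_univ e) (mem_univ e') F1 F3
      have k4 := hM.nopar A2 (mem_univ f) (mem_univ f') F2 F4
      rcases hne with hne | hne
      · exact hne k3
      · exact hne k4
    · exact hM.four (a := (φ i : V)) (b := a) (c := φ j) (d := b) hXY hab
        ⟨A1, e, mem_univ _, F1⟩ ⟨A2.symm, f, mem_univ _, F2⟩
        (nb_comm ⟨B2.symm, f', mem_univ _, F4⟩)
        (nb_comm ⟨B1, e', mem_univ _, F3⟩)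

theorem inh_far7 : Inh (V := V) (E := E) Far7 where
  map := by
    intro s t F ρ h X hX hF h3
    simp only [crs_comp] at hF h3
    obtain ⟨i, j, hij, hc⟩ := h _ (fun i j hij => by
      rw [disjoint_left]
      intro v hv hv'
      exact (disjoint_left.1 (hX i j hij)) (mem_filter.1 hv).2 (mem_filter.1 hv').2) hF h3
    exact ⟨i, j, hij, closeS_map ρ hc⟩
  loops := by
    intro s t F h hl X hX _ h3
    refine h X hX (fun i => ?_) h3
    rw [disjoint_left]
    intro e he heF
    rw [mem_crs, hl e heF] at he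
    exact he Iff.rfl
  flow := fun h h1 => far7_flow h h1

/-- some vertex set without boundary edges in `F` contains exactly one of `x` and `y` -/
def SepF (s t : E → V) (F : Finset E) (x y : V) : Prop :=
  ∃ Y : Finset V, Disjoint (crs s t Y) F ∧ x ∈ Y ∧ y ∉ Y

theorem SepF.of_map {s t : E → V} {F : Finset E} (ρ : V → V) {x y : V}
    (h : SepF (ρ ∘ s) (ρ ∘ t) F (ρ x) (ρ y)) : SepF s t F x y := by
  obtain ⟨Y, h1, h2, h3⟩ := h
  rw [crs_comp] at h1
  refine ⟨_, h1, mem_filter.2 ⟨mem_univ _, h2⟩, fun h => h3 (mem_filter.1 h).2⟩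

/-- the ends of the edges of `M` belong to different components of the graph with the edges `F` -/
def MatF (s t : E → V) (F M : Finset E) : Prop :=
  (∀ e ∈ M, SepF s t F (s e) (t e)) ∧ ∀ e ∈ M, ∀ e' ∈ M, e ≠ e' →
    SepF s t F (s e) (s e') ∧ SepF s t F (s e) (t e') ∧ SepF s t F (t e) (s e') ∧
      SepF s t F (t e) (t e')

/-- matchings modulo `F` have at most eight edges -/
def Mat8 (s t : E → V) (F : Finset E) : Prop := ∀ M : Finset E, MatF s t F M → M.card ≤ 8

theorem inh_mat8 : Inh (V := V) (E := E) Mat8 where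
  map := by
    intro s t F ρ h M hM
    refine h M ⟨fun e he => (hM.1 e he).of_map ρ, fun e he e' he' hne => ?_⟩
    obtain ⟨h1, h2, h3, h4⟩ := hM.2 e he e' he' hne
    exact ⟨h1.of_map ρ, h2.of_map ρ, h3.of_map ρ, h4.of_map ρ⟩
  loops := by
    intro s t F h hl M hM
    have key : ∀ {x y : V}, SepF s t ∅ x y → SepF s t F x y := by
      rintro x y ⟨Y, -, h2, h3⟩
      refine ⟨Y, ?_, h2, h3⟩
      rw [disjoint_left]
      intro e he heF
      rw [mem_crs, hl e heF] at he
      exact he Iff.rfl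
    refine h M ⟨fun e he => key (hM.1 e he), fun e he e' he' hne => ?_⟩
    obtain ⟨h1, h2, h3, h4⟩ := hM.2 e he e' he' hne
    exact ⟨key h1, key h2, key h3, key h4⟩
  flow := by
    intro s t h h1
    refine match8 s t univ h1 fun M _ hM => h M ?_
    have key : ∀ {x y : V}, x ≠ y → SepF s t ∅ x y := fun {x y} hxy =>
      ⟨{x}, disjoint_empty_right _, mem_singleton_self x, fun h => hxy (mem_singleton.1 h).symm⟩
    refine ⟨fun e he => key (hM.1 e he), fun e he e' he' hne => ?_⟩
    obtain ⟨h1, h2, h3, h4⟩ := hM.2 e he e' he' hne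
    exact ⟨key h1, key h2, key h3, key h4⟩

end Pool.Agent.J4.H74.OC
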