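import Mathlib
import Pool.Agent.N733.TG.K
import Pool.Agent.J4.H74.VojLM

set_option autoImplicit false

/-!
Multiplicative functions and windows, exceptional sets at one scale (helper74).
-/

namespace Pool.Agent.J4.H74.OneScale

open Finset Classical
open Pool.Agent.N733.TG (LM avoid1)

/-- **One scale.** For `κ₀ > 0` there is `κ > 0` such that: if `E` is a set of at most `N^(1 - κ₀)` integers, where
`M ≤ N ≤ M^(1+κ)`, then for all `m ≤ M` but `M / (log M)^U` no element of `E` is within `f(m)^κ` of `f(m)`. -/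
theorem one_scale {κ₀ : ℝ} (hκ₀ : 0 < κ₀) (hκ₁ : κ₀ ≤ 1) {κ : ℝ} (hκ : 0 < κ) (hκκ : κ ≤ κ₀ / 4)
    {f : ℕ → ℕ} (hf : LM f) (U : ℕ) :
    ∃ M₀ : ℕ, ∀ M : ℕ, M₀ ≤ M → ∀ N : ℕ, (N : ℝ) ≤ (M : ℝ) ^ (1 + κ) → ∀ E : Finset ℕ,
      (E.card : ℝ) ≤ (N : ℝ) ^ (1 - κ₀) →
      (({m : ℕ | 1 ≤ m ∧ m ≤ M ∧ ∃ b ∈ E, |(b : ℝ) - f m| ≤ (f m : ℝ) ^ κ}.ncard : ℕ) : ℝ) ≤
        M / Real.log M ^ U := by
  obtain ⟨M₀, hM₀⟩ := avoid1 hf (θ := 1 - κ₀ / 4) (ρ := 1) (by linarith) (by linarith) one_pos 3 U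
  refine ⟨max M₀ 1, fun M hM N hN E hE => ?_⟩
  have hM1 : 1 ≤ M := (le_max_right _ _).trans hM
  have hMr : (1 : ℝ) ≤ M := by exact_mod_cast hM1
  have hM0 : (0 : ℝ) < M := by linarith
  obtain ⟨W, hW⟩ : ∃ W : Set ℕ, W = {v : ℕ | ∃ b ∈ E, |(b : ℝ) - v| ≤ (v : ℝ) ^ κ} := ⟨_, rfl⟩
  obtain ⟨T, hT⟩ : ∃ T : ℕ, T = ⌊(M : ℝ) ^ ((1 : ℝ) + 1)⌋₊ := ⟨_, rfl⟩
  have hTle : (T : ℝ) ≤ (M : ℝ) ^ (2 : ℝ) := by
    rw [hT]
    refine (Nat.floor_le (by positivity)).trans (le_of_eq ?_)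
    norm_num
  have hT1 : 1 ≤ T := by
    rw [hT]
    refine Nat.le_floor ?_
    push_cast
    exact Real.one_le_rpow hMr (by norm_num)
  have h1 := hM₀ M ((le_max_left _ _).trans hM) W (by
    rw [← hT]
    have hsub : (Icc 1 T).filter (fun v => v ∈ W) ⊆
        E.biUnion fun b => (Icc 1 T).filter (fun v : ℕ => |(b : ℝ) - v| ≤ (v : ℝ) ^ κ) := by
      intro v hv
      rw [mem_filter, hW] at hv
      obtain ⟨h2, b, hb, h3⟩ := hv
      rw [mem_biUnion]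
      exact ⟨b, hb, mem_filter.2 ⟨h2, h3⟩⟩
    have h2 := card_le_card hsub
    have h3 : ((E.biUnion fun b => (Icc 1 T).filter (fun v : ℕ => |(b : ℝ) - v| ≤ (v : ℝ) ^ κ)).card : ℝ) ≤
        ∑ b ∈ E, (((Icc 1 T).filter (fun v : ℕ => |(b : ℝ) - v| ≤ (v : ℝ) ^ κ)).card : ℝ) := by
      exact_mod_cast card_biUnion_le
    have h4 : ∀ b ∈ E, (((Icc 1 T).filter (fun v : ℕ => |(b : ℝ) - v| ≤ (v : ℝ) ^ κ)).card : ℝ) ≤
        3 * (M : ℝ) ^ (2 * κ) := by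
      intro b _
      refine (Pool.Agent.J4.H74.VojLM.window_nat T hT1 b κ hκ.le _ (fun v hv => by
        rw [mem_filter, mem_Icc] at hv
        exact ⟨hv.1.1, hv.1.2, hv.2⟩)).trans ?_
      refine mul_le_mul_of_nonneg_left ?_ (by norm_num)
      calc (T : ℝ) ^ κ ≤ ((M : ℝ) ^ (2 : ℝ)) ^ κ := Real.rpow_le_rpow (Nat.cast_nonneg _) hTle hκ.le
        _ = (M : ℝ) ^ (2 * κ) := by rw [← Real.rpow_mul hM0.le]
    have h5 : (((Icc 1 T).filter (fun v => v ∈ W)).card : ℝ) ≤ E.card * (3 * (M : ℝ) ^ (2 * κ)) := by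
      refine le_trans (by exact_mod_cast h2) (h3.trans ?_)
      refine (sum_le_sum h4).trans (le_of_eq ?_)
      rw [sum_const, nsmul_eq_mul]
    have h6 : (E.card : ℝ) ≤ (M : ℝ) ^ ((1 + κ) * (1 - κ₀)) := by
      refine hE.trans ?_
      rw [Real.rpow_mul hM0.le]
      exact Real.rpow_le_rpow (Nat.cast_nonneg _) hN (by linarith)
    calc (((Icc 1 T).filter (fun v => v ∈ W)).card : ℝ) ≤ E.card * (3 * (M : ℝ) ^ (2 * κ)) := h5
      _ ≤ (M : ℝ) ^ ((1 + κ) * (1 - κ₀)) * (3 * (M : ℝ) ^ (2 * κ)) :=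
          mul_le_mul_of_nonneg_right h6 (by positivity)
      _ = 3 * (M : ℝ) ^ ((1 + κ) * (1 - κ₀) + 2 * κ) := by
          rw [Real.rpow_add hM0]
          ring
      _ ≤ 3 * (M : ℝ) ^ (1 - κ₀ / 4) := by
          refine mul_le_mul_of_nonneg_left ?_ (by norm_num)
          refine Real.rpow_le_rpow_of_exponent_le hMr ?_
          nlinarith)
  refine le_trans (le_of_eq ?_) h1
  congr 1
  rw [← Set.ncard_coe_finset]
  congr 1
  ext m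
  simp only [coe_filter, mem_Icc, Set.mem_ofPred_eq, hW]
  tauto

end Pool.Agent.J4.H74.OneScale
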