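import Mathlib

/-!
# The complex projective plane as a compact Kähler manifold

The points are the orthogonal projections `v v* / |v|²` of `ℂ³` onto lines.
-/

set_option autoImplicit false

open scoped Manifold ContDiff ComplexConjugate
open Set Filter Topology

namespace Pool.Agent.J4.H74

/-- The squared norm of a vector of `ℂ³`. -/
noncomputable def nsq (v : Fin 3 → ℂ) : ℂ := ∑ i, v i * conj (v i)

lemma nsq_eq (v : Fin 3 → ℂ) : nsq v = ((∑ i, ‖v i‖ ^ 2 : ℝ) : ℂ) := by
  unfold nsq
  push_cast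
  refine Finset.sum_congr rfl fun i _ => ?_
  rw [Complex.mul_conj, Complex.normSq_eq_norm_sq]
  push_cast
  rfl

lemma nsq_ne_zero {v : Fin 3 → ℂ} (hv : v ≠ 0) : nsq v ≠ 0 := by
  rw [nsq_eq]
  intro h
  have h1 : (∑ i, ‖v i‖ ^ 2 : ℝ) = 0 := by exact_mod_cast h
  rw [Finset.sum_eq_zero_iff_of_nonneg (fun i _ => by positivity)] at h1
  apply hv
  funext i
  have := h1 i (Finset.mem_univ i)
  simpa using this

/-- The orthogonal projection onto the line spanned by `v`. -/
noncomputable def prj (v : Fin 3 → ℂ) : Fin 3 → Fin 3 → ℂ := fun a b => v a * conj (v b) / nsq v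

lemma continuousOn_prj : ContinuousOn prj {v | v ≠ 0} := by
  unfold prj
  refine continuousOn_pi.2 fun a => continuousOn_pi.2 fun b => ?_
  refine ContinuousOn.div ?_ ?_ fun v hv => nsq_ne_zero hv
  · fun_prop
  · unfold nsq
    fun_prop

lemma nsq_smul (c : ℂ) (v : Fin 3 → ℂ) : nsq (c • v) = (c * conj c) * nsq v := by
  unfold nsq
  rw [Finset.mul_sum]
  refine Finset.sum_congr rfl fun i _ => ?_
  simp only [Pi.smul_apply, smul_eq_mul, map_mul]
  ring

lemma prj_smul {c : ℂ} (hc : c ≠ 0) (v : Fin 3 → ℂ) : prj (c • v) = prj v := by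
  unfold prj
  funext a b
  rw [nsq_smul]
  have h1 : conj c ≠ 0 := by simpa using hc
  simp only [Pi.smul_apply, smul_eq_mul, map_mul]
  have h2 : c * v a * (conj c * conj (v b)) = (c * conj c) * (v a * conj (v b)) := by ring
  rw [h2, mul_div_mul_left _ _ (mul_ne_zero hc h1)]

/-- The complex projective plane. -/
def Plane : Type := {P : Fin 3 → Fin 3 → ℂ // ∃ v : Fin 3 → ℂ, v ≠ 0 ∧ P = prj v}

instance : TopologicalSpace Plane :=
  inferInstanceAs (TopologicalSpace {P : Fin 3 → Fin 3 → ℂ // ∃ v : Fin 3 → ℂ, v ≠ 0 ∧ P = prj v})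

instance : T2Space Plane :=
  inferInstanceAs (T2Space {P : Fin 3 → Fin 3 → ℂ // ∃ v : Fin 3 → ℂ, v ≠ 0 ∧ P = prj v})

instance : SecondCountableTopology Plane :=
  inferInstanceAs (SecondCountableTopology
    {P : Fin 3 → Fin 3 → ℂ // ∃ v : Fin 3 → ℂ, v ≠ 0 ∧ P = prj v})

/-- The point `[v]`. -/
noncomputable def Plane.mk (v : {v : Fin 3 → ℂ // v ≠ 0}) : Plane := ⟨prj v.1, v.1, v.2, rfl⟩

lemma Plane.continuous_mk : Continuous Plane.mk := by
  refine Continuous.subtype_mk ?_ _
  exact continuousOn_iff_continuous_domRestrict.1 continuousOn_prj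

lemma Plane.surjective_mk : Function.Surjective Plane.mk := by
  rintro ⟨P, v, hv, rfl⟩
  exact ⟨⟨v, hv⟩, rfl⟩

instance : CompactSpace Plane := by
  have h1 : Continuous (fun v : Metric.sphere (0 : Fin 3 → ℂ) 1 =>
      Plane.mk ⟨v.1, by
        intro h
        have := v.2
        rw [h] at this
        simp at this⟩) :=
    Plane.continuous_mk.comp (Continuous.subtype_mk continuous_subtype_val _)
  have h2 : Function.Surjective (fun v : Metric.sphere (0 : Fin 3 → ℂ) 1 =>
      Plane.mk ⟨v.1, by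
        intro h
        have := v.2
        rw [h] at this
        simp at this⟩) := by
    intro P
    obtain ⟨v, rfl⟩ := Plane.surjective_mk P
    have hv : ‖v.1‖ ≠ 0 := norm_ne_zero_iff.2 v.2
    refine ⟨⟨((‖v.1‖⁻¹ : ℝ) : ℂ) • v.1, ?_⟩, ?_⟩
    · rw [mem_sphere_zero_iff_norm, norm_smul, Complex.norm_real, norm_inv, norm_norm,
        inv_mul_cancel₀ hv]
    · apply Subtype.ext
      exact prj_smul (by exact_mod_cast inv_ne_zero hv) v.1
  have : CompactSpace (Metric.sphere (0 : Fin 3 → ℂ) 1) :=
    isCompact_iff_compactSpace.mp (isCompact_sphere _ _)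
  constructor
  rw [← h2.range_eq, ← Set.image_univ]
  exact isCompact_univ.image h1

instance : ConnectedSpace Plane := by
  have h : IsConnected ({0}ᶜ : Set (Fin 3 → ℂ)) := by
    apply isConnected_compl_singleton_of_one_lt_rank
    rw [rank_real_of_complex]
    simp
    norm_num
  have h1 : ConnectedSpace {v : Fin 3 → ℂ // v ≠ 0} := isConnected_iff_connectedSpace.1 h
  exact Plane.surjective_mk.connectedSpace Plane.continuous_mk

/-! ### Charts -/

/-- Insert a coordinate `1` at the place `j`. -/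
noncomputable def ins (j : Fin 3) (z : Fin 2 → ℂ) : Fin 3 → ℂ := Fin.insertNth (α := fun _ => ℂ) j 1 z

@[simp] lemma ins_self (j : Fin 3) (z : Fin 2 → ℂ) : ins j z j = 1 := by
  simp [ins]

@[simp] lemma ins_succAbove (j : Fin 3) (z : Fin 2 → ℂ) (i : Fin 2) :
    ins j z (j.succAbove i) = z i := by
  simp [ins]

lemma ins_ne_zero (j : Fin 3) (z : Fin 2 → ℂ) : ins j z ≠ 0 := by
  intro h
  have := congrFun h j
  simp at this

lemma contDiff_ins {n : WithTop ℕ∞} (j : Fin 3) : ContDiff ℂ n (ins j) := by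
  rw [contDiff_pi]
  intro i
  rcases eq_or_ne i j with rfl | hi
  · simp only [ins_self]
    exact contDiff_const
  · obtain ⟨k, rfl⟩ := Fin.exists_succAbove_eq hi
    simp only [ins_succAbove]
    exact contDiff_apply ℂ ℂ k

lemma continuous_ins (j : Fin 3) : Continuous (ins j) := (contDiff_ins (n := 0) j).continuous

lemma prj_diag_ne_zero {v : Fin 3 → ℂ} (hv : v ≠ 0) (j : Fin 3) : prj v j j ≠ 0 ↔ v j ≠ 0 := by
  unfold prj
  constructor
  · intro h h'
    apply h
    rw [h']
    simp
  · intro h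
    refine div_ne_zero (mul_ne_zero h ?_) (nsq_ne_zero hv)
    simpa using h

lemma prj_ratio {v : Fin 3 → ℂ} (hv : v ≠ 0) {j : Fin 3} (hj : v j ≠ 0) (i : Fin 3) :
    prj v i j / prj v j j = v i / v j := by
  unfold prj
  have h1 := nsq_ne_zero hv
  have h2 : conj (v j) ≠ 0 := by simpa using hj
  field_simp

lemma ins_ratio {v : Fin 3 → ℂ} {j : Fin 3} (hj : v j ≠ 0) :
    ins j (fun i => v (j.succAbove i) / v j) = (v j)⁻¹ • v := by
  funext a
  rcases eq_or_ne a j with rfl | ha
  · simp [hj]
  · obtain ⟨k, rfl⟩ := Fin.exists_succAbove_eq ha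
    simp only [ins_succAbove, Pi.smul_apply, smul_eq_mul]
    field_simp

/-- The affine chart with the domain `v j ≠ 0`. -/
noncomputable def chart (j : Fin 3) : OpenPartialHomeomorph Plane (Fin 2 → ℂ) where
  toFun P := fun i => P.1 (j.succAbove i) j / P.1 j j
  invFun z := Plane.mk ⟨ins j z, ins_ne_zero j z⟩
  source := {P | P.1 j j ≠ 0}
  target := univ
  map_source' _ _ := mem_univ _
  map_target' z _ := by
    show prj (ins j z) j j ≠ 0
    rw [prj_diag_ne_zero (ins_ne_zero j z)]
    simp
  left_inv' := by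
    rintro ⟨P, v, hv, rfl⟩ hP
    have hj : v j ≠ 0 := (prj_diag_ne_zero hv j).1 hP
    apply Subtype.ext
    show prj (ins j (fun i => prj v (j.succAbove i) j / prj v j j)) = prj v
    simp only [prj_ratio hv hj]
    rw [ins_ratio hj, prj_smul (inv_ne_zero hj)]
  right_inv' := by
    intro z _
    funext i
    show prj (ins j z) (j.succAbove i) j / prj (ins j z) j j = z i
    rw [prj_ratio (ins_ne_zero j z) (by simp)]
    simp
  open_source := by
    have h : Continuous (fun P : Plane => P.1 j j) :=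
      (continuous_apply_apply j j).comp continuous_subtype_val
    exact isOpen_ne_fun h continuous_const
  open_target := isOpen_univ
  continuousOn_toFun := by
    refine continuousOn_pi.2 fun i => ContinuousOn.div ?_ ?_ fun P hP => hP
    · exact ((continuous_apply_apply _ _).comp continuous_subtype_val).continuousOn
    · exact ((continuous_apply_apply _ _).comp continuous_subtype_val).continuousOn
  continuousOn_invFun := by
    refine Continuous.continuousOn ?_
    exact Plane.continuous_mk.comp (Continuous.subtype_mk (continuous_ins j) _)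

lemma exists_chart (P : Plane) : ∃ j, P ∈ (chart j).source := by
  obtain ⟨P, v, hv, rfl⟩ := P
  obtain ⟨j, hj⟩ : ∃ j, v j ≠ 0 := by
    by_contra h
    push Not at h
    exact hv (funext h)
  exact ⟨j, (prj_diag_ne_zero hv j).2 hj⟩

noncomputable instance : ChartedSpace (Fin 2 → ℂ) Plane where
  atlas := range chart
  chartAt P := chart (exists_chart P).choose
  mem_chart_source P := (exists_chart P).choose_spec
  chart_mem_atlas P := mem_range_self _

lemma chart_symm_apply (j : Fin 3) (z : Fin 2 → ℂ) :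
    (chart j).symm z = Plane.mk ⟨ins j z, ins_ne_zero j z⟩ := rfl

lemma mem_source_symm (j k : Fin 3) (z : Fin 2 → ℂ) :
    (chart j).symm z ∈ (chart k).source ↔ ins j z k ≠ 0 := by
  rw [chart_symm_apply]
  exact prj_diag_ne_zero (ins_ne_zero j z) k

lemma transition (j k : Fin 3) (z : Fin 2 → ℂ) (h : ins j z k ≠ 0) (i : Fin 2) :
    chart k ((chart j).symm z) i = ins j z (k.succAbove i) / ins j z k :=
  prj_ratio (ins_ne_zero j z) h _

instance : IsManifold 𝓘(ℂ, Fin 2 → ℂ) ω Plane := by
  refine isManifold_of_contDiffOn 𝓘(ℂ, Fin 2 → ℂ) ω Plane ?_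
  rintro _ _ ⟨j, rfl⟩ ⟨k, rfl⟩
  have h1 : ContDiffOn ℂ ω (fun z : Fin 2 → ℂ => fun i : Fin 2 =>
      ins j z (k.succAbove i) / ins j z k) {z | ins j z k ≠ 0} := by
    rw [contDiffOn_pi]
    intro i
    refine ContDiffOn.div ?_ ?_ fun z hz => hz
    · exact (contDiff_pi.1 (contDiff_ins j) _).contDiffOn
    · exact (contDiff_pi.1 (contDiff_ins j) _).contDiffOn
  refine (h1.mono ?_).congr ?_
  · intro z hz
    simp only [mfld_simps] at hz
    exact (mem_source_symm j k z).1 hz.2
  · intro z hz
    simp only [mfld_simps] at hz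
    funext i
    exact transition j k z ((mem_source_symm j k z).1 hz.2) i

lemma chart_mem_maximalAtlas (j : Fin 3) :
    chart j ∈ IsManifold.maximalAtlas 𝓘(ℂ, Fin 2 → ℂ) ω Plane :=
  IsManifold.subset_maximalAtlas (mem_range_self j)

end Pool.Agent.J4.H74
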