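import Pool.Agent.J4.H74.Plane
import Pool.Agent.J4.H74.HartogsDefs

/-!
# The Fubini-Study form of the complex projective plane
-/

set_option autoImplicit false

open scoped Manifold ContDiff ComplexConjugate
open Set Filter Topology

namespace Pool.Agent.J4.H74

lemma second_deriv_log (A B C : ℝ) (hA : 0 < A) :
    iteratedDeriv 2 (fun s : ℝ => Real.log (A + 2 * B * s + C * s ^ 2)) 0
      = (2 * C * A - 4 * B ^ 2) / A ^ 2 := by
  have hq : ∀ s : ℝ, HasDerivAt (fun s : ℝ => A + 2 * B * s + C * s ^ 2) (2 * B + 2 * C * s) s := by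
    intro s
    have h1 := ((hasDerivAt_id s).const_mul (2 * B)).const_add A
    have h2 := ((hasDerivAt_id s).fun_pow 2).const_mul C
    refine (h1.add h2).congr_deriv ?_
    simp
    ring
  have hpos : ∀ᶠ s in 𝓝 (0 : ℝ), 0 < A + 2 * B * s + C * s ^ 2 := by
    have h : ContinuousAt (fun s : ℝ => A + 2 * B * s + C * s ^ 2) 0 := (hq 0).continuousAt
    refine h.eventually (lt_mem_nhds ?_)
    simpa using hA
  have hd : deriv (fun s : ℝ => Real.log (A + 2 * B * s + C * s ^ 2)) =ᶠ[𝓝 0]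
      fun s => (2 * B + 2 * C * s) / (A + 2 * B * s + C * s ^ 2) := by
    filter_upwards [hpos] with s hs
    exact ((hq s).log hs.ne').deriv
  rw [iteratedDeriv_succ, iteratedDeriv_one, hd.deriv_eq]
  have h1 : HasDerivAt (fun s : ℝ => 2 * B + 2 * C * s) (2 * C) 0 := by
    have := ((hasDerivAt_id (0 : ℝ)).const_mul (2 * C)).const_add (2 * B)
    refine this.congr_deriv ?_
    simp
  have h2 := h1.fun_div (hq 0) (by simpa using hA.ne')
  rw [h2.deriv]
  simp
  ring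

lemma normSq_line (a b : ℂ) (s : ℝ) :
    ‖a + (s : ℂ) * b‖ ^ 2 = ‖a‖ ^ 2 + 2 * (a * conj b).re * s + ‖b‖ ^ 2 * s ^ 2 := by
  rw [← Complex.normSq_eq_norm_sq, ← Complex.normSq_eq_norm_sq, ← Complex.normSq_eq_norm_sq]
  simp only [Complex.normSq_apply, Complex.add_re, Complex.add_im, Complex.mul_re, Complex.mul_im,
    Complex.ofReal_re, Complex.ofReal_im, Complex.conj_re, Complex.conj_im]
  ring

/-- The potential `log (1 + |z|²)`. -/
noncomputable def pot (z : Fin 2 → ℂ) : ℝ := Real.log (1 + ∑ i, ‖z i‖ ^ 2)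

lemma pot_line (z v : Fin 2 → ℂ) (c : ℂ) (s : ℝ) :
    pot (z + ((s : ℂ) * c) • v) = Real.log ((1 + ∑ i, ‖z i‖ ^ 2) +
      2 * (∑ i, (z i * conj (c * v i)).re) * s + (∑ i, ‖c * v i‖ ^ 2) * s ^ 2) := by
  unfold pot
  congr 1
  have h : ∀ i, ‖(z + ((s : ℂ) * c) • v) i‖ ^ 2 =
      ‖z i‖ ^ 2 + 2 * (z i * conj (c * v i)).re * s + ‖c * v i‖ ^ 2 * s ^ 2 := by
    intro i
    rw [← normSq_line]
    simp only [Pi.add_apply, Pi.smul_apply, smul_eq_mul, mul_assoc]
  simp only [h, Finset.sum_add_distrib, Finset.mul_sum, Finset.sum_mul]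
  ring

lemma levi_pot (z v : Fin 2 → ℂ) (hv : v ≠ 0) : 0 < levi pot z v := by
  have hA : 0 < 1 + ∑ i, ‖z i‖ ^ 2 := by positivity
  have e1 : (fun s : ℝ => pot (z + (s : ℂ) • v)) = fun s : ℝ => Real.log ((1 + ∑ i, ‖z i‖ ^ 2) +
      2 * (∑ i, (z i * conj (1 * v i)).re) * s + (∑ i, ‖1 * v i‖ ^ 2) * s ^ 2) := by
    funext s
    rw [← pot_line z v 1 s, mul_one]
  have e2 : (fun s : ℝ => pot (z + ((s : ℂ) * Complex.I) • v)) =
      fun s : ℝ => Real.log ((1 + ∑ i, ‖z i‖ ^ 2) +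
      2 * (∑ i, (z i * conj (Complex.I * v i)).re) * s + (∑ i, ‖Complex.I * v i‖ ^ 2) * s ^ 2) := by
    funext s
    rw [← pot_line z v Complex.I s]
  unfold levi
  rw [e1, e2, second_deriv_log _ _ _ hA, second_deriv_log _ _ _ hA, ← add_div]
  apply div_pos _ (by positivity)
  simp only [one_mul, norm_mul, Complex.norm_I]
  have hC : 0 < ∑ i, ‖v i‖ ^ 2 := by
    rcases (Finset.sum_nonneg fun i (_ : i ∈ Finset.univ) => sq_nonneg ‖v i‖).lt_or_eq with h | h
    · exact h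
    · exfalso
      apply hv
      have h' := (Finset.sum_eq_zero_iff_of_nonneg (fun i _ => sq_nonneg ‖v i‖)).1 h.symm
      funext i
      simpa using h' i (Finset.mem_univ i)
  have hre : (∑ i, (z i * conj (v i)).re) = (∑ i, z i * conj (v i)).re := by
    rw [Complex.re_sum]
  have him : (∑ i, (z i * conj (Complex.I * v i)).re) = (∑ i, z i * conj (v i)).im := by
    rw [Complex.im_sum]
    refine Finset.sum_congr rfl fun i _ => ?_
    simp [Complex.mul_re, Complex.mul_im]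
    ring
  rw [hre, him]
  have hcs : (∑ i, z i * conj (v i)).re ^ 2 + (∑ i, z i * conj (v i)).im ^ 2
      ≤ (∑ i, ‖z i‖ ^ 2) * ∑ i, ‖v i‖ ^ 2 := by
    have h1 : (∑ i, z i * conj (v i)).re ^ 2 + (∑ i, z i * conj (v i)).im ^ 2
        = ‖∑ i, z i * conj (v i)‖ ^ 2 := by
      rw [← Complex.normSq_eq_norm_sq, Complex.normSq_apply]
      ring
    rw [h1]
    have h2 : ‖∑ i, z i * conj (v i)‖ ≤ ∑ i, ‖z i‖ * ‖v i‖ := by
      refine (norm_sum_le _ _).trans (le_of_eq ?_)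
      refine Finset.sum_congr rfl fun i _ => ?_
      rw [norm_mul, Complex.norm_conj]
    calc ‖∑ i, z i * conj (v i)‖ ^ 2 ≤ (∑ i, ‖z i‖ * ‖v i‖) ^ 2 := by gcongr
      _ ≤ _ := Finset.sum_mul_sq_le_sq_mul_sq _ _ _
  nlinarith [hcs, hC]

lemma contDiff_pot : ContDiff ℝ ∞ pot := by
  unfold pot
  have h : ∀ i : Fin 2, ContDiff ℝ ∞ (fun z : Fin 2 → ℂ => ‖z i‖ ^ 2) := fun i =>
    (contDiff_apply ℝ ℂ i).norm_sq ℝ
  have h1 : ContDiff ℝ ∞ (fun z : Fin 2 → ℂ => 1 + ∑ i, ‖z i‖ ^ 2) :=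
    contDiff_const.add (ContDiff.sum fun i _ => h i)
  exact h1.log fun z => by positivity

lemma sum_ins (j : Fin 3) (z : Fin 2 → ℂ) : ∑ a, ‖ins j z a‖ ^ 2 = 1 + ∑ i, ‖z i‖ ^ 2 := by
  rw [Fin.sum_univ_succAbove _ j]
  simp

lemma pot_diff (j k : Fin 3) (y : Fin 2 → ℂ) (h : ins j y k ≠ 0) :
    pot y - pot (chart k ((chart j).symm y)) = Real.log (‖ins j y k‖ ^ 2) := by
  have h1 : ins k (chart k ((chart j).symm y)) = (ins j y k)⁻¹ • ins j y := by
    have : chart k ((chart j).symm y) = fun i => ins j y (k.succAbove i) / ins j y k := by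
      funext i
      exact transition j k y h i
    rw [this, ins_ratio h]
  unfold pot
  rw [← sum_ins k (chart k ((chart j).symm y)), h1, ← sum_ins j y]
  have h2 : ∑ a, ‖((ins j y k)⁻¹ • ins j y) a‖ ^ 2 = (‖ins j y k‖ ^ 2)⁻¹ * ∑ a, ‖ins j y a‖ ^ 2 := by
    rw [Finset.mul_sum]
    refine Finset.sum_congr rfl fun a _ => ?_
    rw [Pi.smul_apply, smul_eq_mul, norm_mul, norm_inv]
    ring
  have h3 : 0 < ‖ins j y k‖ ^ 2 := by positivity
  have h4 : 0 < ∑ a, ‖ins j y a‖ ^ 2 := by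
    rw [sum_ins]
    positivity
  rw [h2, Real.log_mul (inv_ne_zero h3.ne') h4.ne', Real.log_inv]
  ring

/-- The linear part of `ins`. -/
noncomputable def ins0 (j : Fin 3) (v : Fin 2 → ℂ) : Fin 3 → ℂ :=
  Fin.insertNth (α := fun _ => ℂ) j 0 v

lemma ins_line (j k : Fin 3) (z v : Fin 2 → ℂ) (c : ℂ) (s : ℝ) :
    ins j (z + ((s : ℂ) * c) • v) k = ins j z k + (s : ℂ) * (c * ins0 j v k) := by
  rcases eq_or_ne k j with rfl | hk
  · simp [ins0]
  · obtain ⟨i, rfl⟩ := Fin.exists_succAbove_eq hk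
    simp [ins0, mul_assoc]

lemma levi_diff (j k : Fin 3) (z v : Fin 2 → ℂ) (h : ins j z k ≠ 0) :
    levi (fun y => pot y - pot (chart k ((chart j).symm y))) z v = 0 := by
  have hA : 0 < ‖ins j z k‖ ^ 2 := by positivity
  have key : ∀ c : ℂ, iteratedDeriv 2 (fun s : ℝ => pot (z + ((s : ℂ) * c) • v) -
      pot (chart k ((chart j).symm (z + ((s : ℂ) * c) • v)))) 0 =
      (2 * ‖c * ins0 j v k‖ ^ 2 * ‖ins j z k‖ ^ 2 -
        4 * (ins j z k * conj (c * ins0 j v k)).re ^ 2) / (‖ins j z k‖ ^ 2) ^ 2 := by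
    intro c
    rw [← second_deriv_log _ _ _ hA]
    apply Filter.EventuallyEq.iteratedDeriv_eq
    have hc : ContinuousAt (fun s : ℝ => ins j z k + (s : ℂ) * (c * ins0 j v k)) 0 := by
      fun_prop
    have hne : ∀ᶠ s : ℝ in 𝓝 0, ins j z k + (s : ℂ) * (c * ins0 j v k) ≠ 0 := by
      apply hc.eventually_ne
      simpa using h
    filter_upwards [hne] with s hs
    rw [← ins_line] at hs
    rw [pot_diff j k _ hs, ins_line, normSq_line]
  unfold levi
  have h1 := key 1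
  simp only [mul_one] at h1
  rw [h1, key Complex.I, ← add_div]
  have e : (2 * ‖1 * ins0 j v k‖ ^ 2 * ‖ins j z k‖ ^ 2 -
        4 * (ins j z k * conj (1 * ins0 j v k)).re ^ 2) +
      (2 * ‖Complex.I * ins0 j v k‖ ^ 2 * ‖ins j z k‖ ^ 2 -
        4 * (ins j z k * conj (Complex.I * ins0 j v k)).re ^ 2) = 0 := by
    rw [← Complex.normSq_eq_norm_sq, ← Complex.normSq_eq_norm_sq, ← Complex.normSq_eq_norm_sq]
    simp only [Complex.normSq_apply, Complex.mul_re, Complex.mul_im, Complex.conj_re,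
      Complex.conj_im, Complex.I_re, Complex.I_im, Complex.one_re, Complex.one_im]
    ring
  rw [e, zero_div]

/-- The Fubini-Study form. -/
noncomputable def fubiniStudy : KahlerForm (Fin 2 → ℂ) Plane where
  J := Fin 3
  e := chart
  u := fun _ => pot
  holomorphic := chart_mem_maximalAtlas
  cover := exists_chart
  smooth _ := contDiff_pot.contDiffOn
  pos _ z _ v hv := levi_pot z v hv
  agree j k z _ hz v := levi_diff j k z v ((mem_source_symm j k z).1 hz)

theorem isCompactKahler_plane : IsCompactKahler (Fin 2 → ℂ) Plane :=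
  ⟨inferInstance, inferInstance, inferInstance, inferInstance, inferInstance, ⟨fubiniStudy⟩⟩

end Pool.Agent.J4.H74
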