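import Mathlib
import Pool.Agent.Results.MP_7169d5_nt.ShortIntervalsFewExceptions
import Pool.Agent.N733.TG.K
import Pool.Agent.N671.DA.Nat

set_option autoImplicit false

/-!
Almost prime values of `n ^ 2 + a` in short intervals: the exceptional positions (helper74).
-/

namespace Pool.Agent.J4.H74.QuadShort

open Finset Filter
open Pool.Agent.Results.MP_7169d5_nt.ShortIntervalsFewExceptions (almostPrimes)

open Classical in
/-- The number of the integers `n` in `(N, N + N ^ h]` such that `n ^ 2 + a` has at most `r` prime factors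
(counted with multiplicity), all of them at least `N ^ z`. -/
noncomputable def count (a : ℤ) (r : ℕ) (z h : ℝ) (N : ℕ) : ℕ :=
  ((Finset.Ioc N (N + ⌊(N : ℝ) ^ h⌋₊)).filter (fun n : ℕ =>
    ((n : ℤ) ^ 2 + a).natAbs.primeFactorsList.length ≤ r ∧
      ∀ p : ℕ, p.Prime → (p : ℤ) ∣ (n : ℤ) ^ 2 + a → (N : ℝ) ^ z ≤ p)).card

/-- the admissible parameters -/
def Par (r : ℕ) (t z : ℝ) : Prop :=
  ((r = 5 ∧ 1 / 2 ≤ t ∧ z = 2 / 5 * t) ∨ (r = 4 ∧ 269 / 500 ≤ t ∧ z = t / 4) ∨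
      (r = 3 ∧ 29 / 40 ≤ t ∧ z = t / 4)) ∧ t < 1

lemma Par.z_nonneg {r : ℕ} {t z : ℝ} (h : Par r t z) : 0 ≤ z ∧ 1 / 2 ≤ t := by
  obtain ⟨h | h | h, -⟩ := h
  · obtain ⟨-, h1, rfl⟩ := h
    constructor <;> linarith
  · obtain ⟨-, h1, rfl⟩ := h
    constructor <;> linarith
  · obtain ⟨-, h1, rfl⟩ := h
    constructor <;> linarith

open Classical in
/-- passing to the scale of `N` -/
lemma step (a : ℤ) (r : ℕ) {z h h₁ h' δ : ℝ} (hz : 0 ≤ z) (h0 : 0 < h') (h1 : h' < h₁) (h2 : h₁ < h)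
    (hδ : 0 < δ) : ∃ X₀ : ℕ, ∀ X : ℕ, X₀ ≤ X → ∀ N : ℕ, N ≤ X → X ≤ 2 * N →
      δ * (X : ℝ) ^ h₁ / Real.log X ≤ (almostPrimes a r ((X : ℝ) ^ z) N ⌊(X : ℝ) ^ h₁⌋₊ : ℝ) →
      (N : ℝ) ^ h' ≤ count a r z h N := by
  have e1 : ∀ᶠ X : ℕ in atTop, Real.log X ≤ δ * (X : ℝ) ^ (h₁ - h') := by
    have h3 := isLittleO_log_rpow_atTop (show (0 : ℝ) < h₁ - h' by linarith)
    have h4 := h3.bound hδ
    have h5 : ∀ᶠ X : ℕ in atTop, ‖Real.log (X : ℝ)‖ ≤ δ * ‖(X : ℝ) ^ (h₁ - h')‖ :=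
      tendsto_natCast_atTop_atTop.eventually h4
    filter_upwards [h5] with X hX
    rw [Real.norm_of_nonneg (by positivity : (0 : ℝ) ≤ (X : ℝ) ^ (h₁ - h'))] at hX
    exact (le_abs_self _).trans hX
  have e2 : ∀ᶠ N : ℕ in atTop, (2 : ℝ) ^ h₁ ≤ (N : ℝ) ^ (h - h₁) :=
    ((tendsto_rpow_atTop (show (0 : ℝ) < h - h₁ by linarith)).comp
      tendsto_natCast_atTop_atTop).eventually_ge_atTop _
  obtain ⟨X₁, hX₁⟩ := eventually_atTop.1 e1
  obtain ⟨N₁, hN₁⟩ := eventually_atTop.1 e2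
  refine ⟨max X₁ (2 * N₁ + 4), fun X hX N hNX hXN hcount => ?_⟩
  have hX1 : X₁ ≤ X := (le_max_left _ _).trans hX
  have hX2 : 2 * N₁ + 4 ≤ X := (le_max_right _ _).trans hX
  have hN1 : N₁ ≤ N := by omega
  have hN2 : 2 ≤ N := by omega
  have hNr : (2 : ℝ) ≤ N := by exact_mod_cast hN2
  have hN0 : (0 : ℝ) < N := by linarith
  have hXr : (2 : ℝ) ≤ X := by exact_mod_cast (by omega : 2 ≤ X)
  have hX0 : (0 : ℝ) < X := by linarith
  have hNXr : (N : ℝ) ≤ X := by exact_mod_cast hNX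
  have hXNr : (X : ℝ) ≤ 2 * N := by exact_mod_cast hXN
  have hlog : 0 < Real.log X := Real.log_pos (by linarith)
  have h3 : (X : ℝ) ^ h₁ ≤ (N : ℝ) ^ h := by
    calc (X : ℝ) ^ h₁ ≤ (2 * (N : ℝ)) ^ h₁ := Real.rpow_le_rpow hX0.le hXNr (by linarith)
      _ = 2 ^ h₁ * (N : ℝ) ^ h₁ := Real.mul_rpow (by norm_num) hN0.le
      _ ≤ (N : ℝ) ^ (h - h₁) * (N : ℝ) ^ h₁ :=
          mul_le_mul_of_nonneg_right (hN₁ N hN1) (by positivity)
      _ = (N : ℝ) ^ h := by rw [← Real.rpow_add hN0]; ring_nf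
  have h4 : almostPrimes a r ((X : ℝ) ^ z) N ⌊(X : ℝ) ^ h₁⌋₊ ≤ count a r z h N := by
    unfold almostPrimes count
    refine card_le_card ?_
    intro n hn
    rw [mem_filter, mem_Ioc] at hn ⊢
    obtain ⟨⟨g1, g2⟩, g3, g4⟩ := hn
    have hfl : ⌊(X : ℝ) ^ h₁⌋₊ ≤ ⌊(N : ℝ) ^ h⌋₊ := Nat.floor_le_floor h3
    refine ⟨⟨g1, by omega⟩, g3, fun p hp hpn => ?_⟩
    refine le_trans ?_ (g4 p hp hpn)
    exact Real.rpow_le_rpow hN0.le hNXr hz
  have h5 : (X : ℝ) ^ h' ≤ δ * (X : ℝ) ^ h₁ / Real.log X := by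
    rw [le_div_iff₀ hlog]
    calc (X : ℝ) ^ h' * Real.log X ≤ (X : ℝ) ^ h' * (δ * (X : ℝ) ^ (h₁ - h')) :=
          mul_le_mul_of_nonneg_left (hX₁ X hX1) (by positivity)
      _ = δ * ((X : ℝ) ^ h' * (X : ℝ) ^ (h₁ - h')) := by ring
      _ = δ * (X : ℝ) ^ h₁ := by rw [← Real.rpow_add hX0]; ring_nf
  calc (N : ℝ) ^ h' ≤ (X : ℝ) ^ h' := Real.rpow_le_rpow hN0.le hNXr h0.le
    _ ≤ δ * (X : ℝ) ^ h₁ / Real.log X := h5
    _ ≤ (almostPrimes a r ((X : ℝ) ^ z) N ⌊(X : ℝ) ^ h₁⌋₊ : ℝ) := hcount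
    _ ≤ count a r z h N := by exact_mod_cast h4

open Classical in
/-- the number of the exceptional positions, all scales -/
theorem bad_count (a : ℤ) (ha : ¬ IsSquare (-a)) (r : ℕ) (t z : ℝ) (hpar : Par r t z) (h h' : ℝ)
    (h0 : 0 < h') (hh : h' < h) (h1 : h ≤ 1) :
    ∀ ε : ℝ, 0 < ε → ∃ C : ℝ, ∀ Y : ℕ, 1 ≤ Y →
      (((Ioc 0 Y).filter (fun N : ℕ => N ∈ {N : ℕ | ¬ (N : ℝ) ^ h' ≤ count a r z h N})).card : ℝ) ≤
        C * (Y : ℝ) ^ (2 * t - h + ε) := by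
  intro ε hε
  obtain ⟨hz, ht⟩ := hpar.z_nonneg
  obtain ⟨h₁, hh₁⟩ : ∃ h₁, h₁ = max ((h + h') / 2) (h - ε / 4) := ⟨_, rfl⟩
  have a1 : h' < h₁ := by
    rw [hh₁]
    exact lt_of_lt_of_le (by linarith) (le_max_left _ _)
  have a2 : h₁ < h := by
    rw [hh₁]
    exact max_lt (by linarith) (by linarith)
  have a3 : h - ε / 4 ≤ h₁ := by rw [hh₁]; exact le_max_right _ _
  obtain ⟨δ, hδ, hev⟩ := Pool.Agent.Results.MP_7169d5_nt.ShortIntervalsFewExceptions.result a ha r t z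
    hpar.1 hpar.2 h₁ (ε / 4) (by linarith) (by linarith) (by positivity)
  obtain ⟨X₁, hX₁⟩ := eventually_atTop.1 hev
  obtain ⟨X₂, hX₂⟩ := step a r hz h0 a1 a2 hδ
  obtain ⟨s', hs'⟩ : ∃ s', s' = 2 * t - h + ε / 2 := ⟨_, rfl⟩
  have hs'0 : 0 < s' := by rw [hs']; linarith
  obtain ⟨k₀, hk₀⟩ : ∃ k₀ : ℕ, max X₁ X₂ ≤ 2 ^ k₀ := ⟨max X₁ X₂, Nat.lt_two_pow_self.le⟩
  -- one scale
  have hscale : ∀ k : ℕ, (((Ioc 0 (2 ^ k)).filter (fun N : ℕ => Nat.clog 2 N = k ∧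
      ¬ (N : ℝ) ^ h' ≤ count a r z h N)).card : ℝ) ≤ 2 ^ k₀ + ((2 : ℝ) ^ k) ^ s' := by
    intro k
    by_cases hk : k₀ ≤ k
    · have hkk : 2 ^ k₀ ≤ 2 ^ k := Nat.pow_le_pow_right (by norm_num) hk
      have hb1 : X₁ ≤ 2 ^ k := (le_max_left _ _).trans (hk₀.trans hkk)
      have hb2 : X₂ ≤ 2 ^ k := (le_max_right _ _).trans (hk₀.trans hkk)
      have hsub : (Ioc 0 (2 ^ k)).filter (fun N : ℕ => Nat.clog 2 N = k ∧
          ¬ (N : ℝ) ^ h' ≤ count a r z h N) ⊆ (Icc 1 (2 ^ k)).filter (fun N : ℕ =>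
            (almostPrimes a r (((2 ^ k : ℕ) : ℝ) ^ z) N ⌊((2 ^ k : ℕ) : ℝ) ^ h₁⌋₊ : ℝ) <
              δ * ((2 ^ k : ℕ) : ℝ) ^ h₁ / Real.log ((2 ^ k : ℕ) : ℝ)) := by
        intro N hN
        rw [mem_filter, mem_Ioc] at hN
        obtain ⟨⟨b1, b2⟩, b3, b4⟩ := hN
        rw [mem_filter, mem_Icc]
        refine ⟨⟨b1, b2⟩, ?_⟩
        by_contra hcon
        rw [not_lt] at hcon
        apply b4
        refine hX₂ (2 ^ k) hb2 N b2 ?_ hcon
        rcases Nat.lt_or_ge 1 N with hN1 | hN1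
        · have h5 := Nat.pow_pred_clog_lt_self (b := 2) (by norm_num) hN1
          rw [b3] at h5
          rcases Nat.eq_zero_or_pos k with hk0 | hk0
          · rw [hk0]
            omega
          · have h6 : 2 ^ k = 2 * 2 ^ (k.pred) := by
              rw [← pow_succ']
              congr 1
              rw [Nat.pred_eq_sub_one]
              omega
            omega
        · have hN2 : N = 1 := by omega
          rw [hN2, Nat.clog_one_right] at b3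
          rw [← b3, hN2]
          norm_num
      have h4 := hX₁ (2 ^ k) hb1
      have h5 : (((Ioc 0 (2 ^ k)).filter (fun N : ℕ => Nat.clog 2 N = k ∧
          ¬ (N : ℝ) ^ h' ≤ count a r z h N)).card : ℝ) ≤ ((2 ^ k : ℕ) : ℝ) ^ (2 * t - h₁ + ε / 4) :=
        le_trans (by exact_mod_cast card_le_card hsub) h4
      refine h5.trans ?_
      have h6 : ((2 ^ k : ℕ) : ℝ) = (2 : ℝ) ^ k := by push_cast; rfl
      have h7 : (1 : ℝ) ≤ (2 : ℝ) ^ k := one_le_pow₀ (by norm_num)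
      rw [h6]
      have h8 : ((2 : ℝ) ^ k) ^ (2 * t - h₁ + ε / 4) ≤ ((2 : ℝ) ^ k) ^ s' :=
        Real.rpow_le_rpow_of_exponent_le h7 (by rw [hs']; linarith)
      have h9 : (0 : ℝ) ≤ 2 ^ k₀ := by positivity
      linarith
    · have hk' : k ≤ k₀ := by omega
      have h4 : ((Ioc 0 (2 ^ k)).filter (fun N : ℕ => Nat.clog 2 N = k ∧
          ¬ (N : ℝ) ^ h' ≤ count a r z h N)).card ≤ 2 ^ k₀ := by
        refine (card_filter_le _ _).trans ?_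
        rw [Nat.card_Ioc, Nat.sub_zero]
        exact Nat.pow_le_pow_right (by norm_num) hk'
      have h5 : (0 : ℝ) ≤ ((2 : ℝ) ^ k) ^ s' := by positivity
      have h6 : (((Ioc 0 (2 ^ k)).filter (fun N : ℕ => Nat.clog 2 N = k ∧
          ¬ (N : ℝ) ^ h' ≤ count a r z h N)).card : ℝ) ≤ 2 ^ k₀ := by exact_mod_cast h4
      linarith
  refine ⟨(4 / ε * 2 ^ ε / Real.log 2 + 1) * (2 ^ k₀ + 2 ^ s'), fun Y hY => ?_⟩
  have hYr : (1 : ℝ) ≤ Y := by exact_mod_cast hY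
  have hY0 : (0 : ℝ) < Y := by linarith
  obtain ⟨L, hL⟩ : ∃ L, L = Nat.clog 2 Y := ⟨_, rfl⟩
  have hL2 : (2 : ℝ) ^ L ≤ 2 * Y := by
    have h3 : 2 ^ L ≤ 2 * Y := by
      rcases Nat.lt_or_ge 1 Y with hY1 | hY1
      · have h5 := Nat.pow_pred_clog_lt_self (b := 2) (by norm_num) hY1
        rw [← hL] at h5
        rcases Nat.eq_zero_or_pos L with hk0 | hk0
        · rw [hk0]
          omega
        · have h6 : 2 ^ L = 2 * 2 ^ (L.pred) := by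
            rw [← pow_succ']
            congr 1
            rw [Nat.pred_eq_sub_one]
            omega
          omega
      · have hY2 : Y = 1 := by omega
        rw [hL, hY2, Nat.clog_one_right]
        norm_num
    exact_mod_cast h3
  have hsub : (Ioc 0 Y).filter (fun N : ℕ => N ∈ {N : ℕ | ¬ (N : ℝ) ^ h' ≤ count a r z h N}) ⊆
      (range (L + 1)).biUnion fun k => (Ioc 0 (2 ^ k)).filter (fun N : ℕ => Nat.clog 2 N = k ∧
        ¬ (N : ℝ) ^ h' ≤ count a r z h N) := by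
    intro N hN
    rw [mem_filter, mem_Ioc] at hN
    obtain ⟨⟨b1, b2⟩, b3⟩ := hN
    rw [mem_biUnion]
    refine ⟨Nat.clog 2 N, ?_, ?_⟩
    · rw [mem_range, hL]
      exact Nat.lt_succ_of_le (Nat.clog_mono_right 2 b2)
    · rw [mem_filter, mem_Ioc]
      exact ⟨⟨b1, Nat.le_pow_clog (by norm_num) N⟩, rfl, b3⟩
  have h3 : (((Ioc 0 Y).filter (fun N : ℕ =>
      N ∈ {N : ℕ | ¬ (N : ℝ) ^ h' ≤ count a r z h N})).card : ℝ) ≤
      ∑ k ∈ range (L + 1), (((Ioc 0 (2 ^ k)).filter (fun N : ℕ => Nat.clog 2 N = k ∧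
        ¬ (N : ℝ) ^ h' ≤ count a r z h N)).card : ℝ) := by
    exact_mod_cast (card_le_card hsub).trans card_biUnion_le
  have h4 : ∀ k ∈ range (L + 1), (((Ioc 0 (2 ^ k)).filter (fun N : ℕ => Nat.clog 2 N = k ∧
        ¬ (N : ℝ) ^ h' ≤ count a r z h N)).card : ℝ) ≤ (2 ^ k₀ + 2 ^ s') * (Y : ℝ) ^ s' := by
    intro k hk
    rw [mem_range] at hk
    refine (hscale k).trans ?_
    have h5 : (2 : ℝ) ^ k ≤ 2 * Y :=
      (pow_le_pow_right₀ (by norm_num) (by omega)).trans hL2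
    have h6 : ((2 : ℝ) ^ k) ^ s' ≤ 2 ^ s' * (Y : ℝ) ^ s' := by
      rw [← Real.mul_rpow (by norm_num) hY0.le]
      exact Real.rpow_le_rpow (by positivity) h5 hs'0.le
    have h7 : (1 : ℝ) ≤ (Y : ℝ) ^ s' := Real.one_le_rpow hYr hs'0.le
    have h8 : (2 : ℝ) ^ k₀ ≤ 2 ^ k₀ * (Y : ℝ) ^ s' := le_mul_of_one_le_right (by positivity) h7
    linarith
  have h5 := h3.trans (sum_le_sum h4)
  rw [sum_const, card_range, nsmul_eq_mul] at h5
  have hlog2 : 0 < Real.log 2 := Real.log_pos (by norm_num)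
  have h6 : (((L + 1 : ℕ) : ℕ) : ℝ) ≤ (4 / ε * 2 ^ ε / Real.log 2 + 1) * (Y : ℝ) ^ (ε / 2) := by
    have h7 : (L : ℝ) * Real.log 2 ≤ Real.log (2 * Y) := by
      rw [← Real.log_pow]
      exact Real.log_le_log (by positivity) hL2
    have h8 : Real.log (2 * Y) ≤ (2 * Y) ^ (ε / 2) / (ε / 2) :=
      Real.log_le_rpow_div (by positivity) (by positivity)
    have h9 : (2 * (Y : ℝ)) ^ (ε / 2) ≤ 2 ^ ε * (Y : ℝ) ^ (ε / 2) := by
      rw [Real.mul_rpow (by norm_num) hY0.le]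
      refine mul_le_mul_of_nonneg_right ?_ (by positivity)
      exact Real.rpow_le_rpow_of_exponent_le (by norm_num) (by linarith)
    have h10 : (1 : ℝ) ≤ (Y : ℝ) ^ (ε / 2) := Real.one_le_rpow hYr (by positivity)
    have h11 : (L : ℝ) ≤ 4 / ε * 2 ^ ε / Real.log 2 * (Y : ℝ) ^ (ε / 2) := by
      have h12 : (L : ℝ) * Real.log 2 ≤ 4 / ε * 2 ^ ε * (Y : ℝ) ^ (ε / 2) := by
        refine h7.trans (h8.trans ?_)
        rw [div_le_iff₀ (by positivity)]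
        refine h9.trans ?_
        have h13 : 4 / ε * 2 ^ ε * (Y : ℝ) ^ (ε / 2) * (ε / 2) = 2 * (2 ^ ε * (Y : ℝ) ^ (ε / 2)) := by
          field_simp
          ring
        rw [h13]
        have : (0 : ℝ) ≤ 2 ^ ε * (Y : ℝ) ^ (ε / 2) := by positivity
        linarith
      rw [div_mul_eq_mul_div, le_div_iff₀ hlog2]
      exact h12
    push_cast
    rw [add_mul, one_mul]
    linarith
  have hnn : (0 : ℝ) ≤ (2 ^ k₀ + 2 ^ s') * (Y : ℝ) ^ s' := by positivity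
  refine h5.trans ((mul_le_mul_of_nonneg_right h6 hnn).trans (le_of_eq ?_))
  have h7 : (Y : ℝ) ^ (2 * t - h + ε) = (Y : ℝ) ^ (ε / 2) * (Y : ℝ) ^ s' := by
    rw [← Real.rpow_add hY0, hs']
    ring_nf
  rw [h7]
  ring

end Pool.Agent.J4.H74.QuadShort
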