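import Pool.Agent.N733.TG.K
import Pool.Agent.N733.TG.M

set_option autoImplicit false

/-!
Tuples of integers near tuples of values of multiplicative functions avoid sets of tuples with a power saving
(helper74).
-/

namespace Pool.Agent.J4.H74.TupNear

open Finset Classical
open Pool.Agent.N733.TG (Expanding step_sum LM keep_tuples)

/-- the number of the `v ≤ X` with `G v` near a given number -/
lemma near_card {G : ℕ → ℝ} {a : ℝ} (ha : 0 < a) (hstep : ∀ v : ℕ, 1 ≤ v → a ≤ G (v + 1) - G v) {κ : ℝ}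
    (hκ : 0 ≤ κ) {X : ℕ} (hX : 1 ≤ X) (y : ℝ) :
    ((((Icc 1 X).filter (fun v : ℕ => |y - G v| ≤ (X : ℝ) ^ κ))).card : ℝ) ≤ (2 / a + 1) * (X : ℝ) ^ κ := by
  have hX1 : (1 : ℝ) ≤ X := by exact_mod_cast hX
  have hXκ : (1 : ℝ) ≤ (X : ℝ) ^ κ := Real.one_le_rpow hX1 hκ
  obtain ⟨W, hW⟩ : ∃ W, W = (Icc 1 X).filter (fun v : ℕ => |y - G v| ≤ (X : ℝ) ^ κ) := ⟨_, rfl⟩
  rw [← hW]
  have h0 : (0 : ℝ) ≤ 2 * (X : ℝ) ^ κ / a := by positivity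
  rcases W.eq_empty_or_nonempty with he | he
  · rw [he]
    simp only [card_empty, Nat.cast_zero]
    positivity
  · obtain ⟨v0, hv0⟩ : ∃ v0, v0 = W.min' he := ⟨_, rfl⟩
    have hv0m : v0 ∈ W := by rw [hv0]; exact min'_mem _ _
    have hs' : W ⊆ Icc v0 (v0 + ⌊2 * (X : ℝ) ^ κ / a⌋₊) := by
      intro v hv
      have h1 : v0 ≤ v := by rw [hv0]; exact min'_le _ _ hv
      rw [mem_Icc]
      refine ⟨h1, ?_⟩
      rw [hW, mem_filter, mem_Icc] at hv hv0m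
      have h2 := abs_le.1 hv.2
      have h3 := abs_le.1 hv0m.2
      have h4 : ((v - v0 : ℕ) : ℝ) ≤ 2 * (X : ℝ) ^ κ / a := by
        rw [le_div_iff₀ ha]
        have := step_sum hstep hv0m.1.1 h1
        linarith [h2.1, h3.2]
      have := Nat.le_floor h4
      omega
    have h5 := card_le_card hs'
    rw [Nat.card_Icc] at h5
    have h6 : ((W.card : ℕ) : ℝ) ≤ (⌊2 * (X : ℝ) ^ κ / a⌋₊ : ℝ) + 1 := by
      have : W.card ≤ ⌊2 * (X : ℝ) ^ κ / a⌋₊ + 1 := by omega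
      exact_mod_cast this
    have h7 := Nat.floor_le h0
    calc (W.card : ℝ) ≤ (⌊2 * (X : ℝ) ^ κ / a⌋₊ : ℝ) + 1 := h6
      _ ≤ 2 * (X : ℝ) ^ κ / a + (X : ℝ) ^ κ := by linarith
      _ = (2 / a + 1) * (X : ℝ) ^ κ := by ring

/-- the tuples near bad tuples -/
def NearBad {k : ℕ} (Bad : (Fin k → ℕ) → Prop) (G : Fin k → ℕ → ℝ) (κ : ℝ) : Set (Fin k → ℕ) :=
  {w | ∃ x : Fin k → ℕ, (∀ i, 1 ≤ x i ∧ |(x i : ℝ) - G i (w i)| ≤ (w i : ℝ) ^ κ) ∧ Bad x}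

/-- the box -/
def Bx (k Y : ℕ) : Finset (Fin k → ℕ) := Fintype.piFinset fun _ => Icc 1 Y

lemma mem_bx {k Y : ℕ} {x : Fin k → ℕ} : x ∈ Bx k Y ↔ ∀ i, 1 ≤ x i ∧ x i ≤ Y := by
  simp [Bx, Fintype.mem_piFinset]

theorem near_tuples {k : ℕ} (Bad : (Fin k → ℕ) → Prop) {s : ℝ} (hs : 0 ≤ s)
    (hB : ∃ C : ℝ, ∀ Y : ℕ, 1 ≤ Y → (((Bx k Y).filter (fun x => Bad x)).card : ℝ) ≤ C * (Y : ℝ) ^ s)
    {G : Fin k → ℕ → ℝ} {d : ℝ} (hG : ∀ i, Expanding (G i) d) (hd : 1 ≤ d) {κ : ℝ} (hκ : 0 ≤ κ)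
    (hκ1 : κ ≤ 1) : ∃ C : ℝ, ∀ X : ℕ, 1 ≤ X →
      ({w : Fin k → ℕ | w ∈ NearBad Bad G κ ∧ ∀ i, 1 ≤ w i ∧ w i ≤ X}.ncard : ℝ) ≤
        C * (X : ℝ) ^ (d * s + k * κ) := by
  obtain ⟨C, hC⟩ := hB
  choose a ha hstep using fun i => (hG i).step
  choose C₁ hC₁ using fun i => (hG i).growth
  obtain ⟨D, hD⟩ : ∃ D : ℝ, D = ∑ i, |C₁ i| + 2 := ⟨_, rfl⟩
  have hsum0 : 0 ≤ ∑ i, |C₁ i| := sum_nonneg fun i _ => abs_nonneg _
  have hD1 : 1 ≤ D := by rw [hD]; linarith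
  refine ⟨|C| * D ^ s * ∏ i, (2 / a i + 1), fun X hX => ?_⟩
  have hX1 : (1 : ℝ) ≤ X := by exact_mod_cast hX
  have hX0 : (0 : ℝ) < X := by linarith
  have hXd : (1 : ℝ) ≤ (X : ℝ) ^ d := Real.one_le_rpow hX1 (by linarith)
  have hXκd : (X : ℝ) ^ κ ≤ (X : ℝ) ^ d := Real.rpow_le_rpow_of_exponent_le hX1 (by linarith)
  obtain ⟨Y, hY⟩ : ∃ Y : ℕ, Y = ⌊D * (X : ℝ) ^ d⌋₊ := ⟨_, rfl⟩
  have hDX : 1 ≤ D * (X : ℝ) ^ d := one_le_mul_of_one_le_of_one_le hD1 hXd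
  have hY1 : 1 ≤ Y := by rw [hY]; exact Nat.le_floor (by exact_mod_cast hDX)
  have hYle : (Y : ℝ) ≤ D * (X : ℝ) ^ d := by rw [hY]; exact Nat.floor_le (by linarith)
  obtain ⟨P, hP⟩ : ∃ P, P = (Bx k Y).filter (fun x => Bad x) := ⟨_, rfl⟩
  have hPc : (P.card : ℝ) ≤ |C| * (D * (X : ℝ) ^ d) ^ s := by
    rw [hP]
    refine (hC Y hY1).trans ((mul_le_mul_of_nonneg_right (le_abs_self _) (by positivity)).trans ?_)
    exact mul_le_mul_of_nonneg_left (Real.rpow_le_rpow (Nat.cast_nonneg _) hYle hs) (abs_nonneg _)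
  obtain ⟨Q, hQ⟩ : ∃ Q : (Fin k → ℕ) → Finset (Fin k → ℕ), Q = fun x =>
      Fintype.piFinset fun i => (Icc 1 X).filter (fun v : ℕ => |(x i : ℝ) - G i v| ≤ (X : ℝ) ^ κ) := ⟨_, rfl⟩
  have hQc : ∀ x, ((Q x).card : ℝ) ≤ (∏ i, (2 / a i + 1)) * (X : ℝ) ^ (k * κ) := by
    intro x
    rw [hQ]
    simp only
    rw [Fintype.card_piFinset]
    push_cast
    refine (prod_le_prod (fun i _ => Nat.cast_nonneg _) fun i _ =>
      near_card (ha i) (hstep i) hκ hX (x i : ℝ)).trans (le_of_eq ?_)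
    rw [prod_mul_distrib, prod_const, card_univ, Fintype.card_fin, ← Real.rpow_natCast, ← Real.rpow_mul hX0.le,
      mul_comm κ]
  have hsub : {w : Fin k → ℕ | w ∈ NearBad Bad G κ ∧ ∀ i, 1 ≤ w i ∧ w i ≤ X} ⊆
      ((P.biUnion Q : Finset (Fin k → ℕ)) : Set _) := by
    rintro w ⟨⟨x, hx, hbad⟩, hw⟩
    have hle : ∀ i, (w i : ℝ) ^ κ ≤ (X : ℝ) ^ κ := fun i =>
      Real.rpow_le_rpow (Nat.cast_nonneg _) (by exact_mod_cast (hw i).2) hκ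
    rw [mem_coe, mem_biUnion]
    refine ⟨x, ?_, ?_⟩
    · rw [hP, mem_filter, mem_bx]
      refine ⟨fun i => ⟨(hx i).1, ?_⟩, hbad⟩
      have hw1 : (1 : ℝ) ≤ w i := by exact_mod_cast (hw i).1
      have hwX : (w i : ℝ) ≤ X := by exact_mod_cast (hw i).2
      have e2 := (abs_le.1 (hx i).2).2
      have e3 : G i (w i) ≤ |C₁ i| * (X : ℝ) ^ d := by
        calc G i (w i) ≤ C₁ i * (w i : ℝ) ^ d := hC₁ i _ (hw i).1
          _ ≤ |C₁ i| * (w i : ℝ) ^ d := mul_le_mul_of_nonneg_right (le_abs_self _) (by positivity)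
          _ ≤ |C₁ i| * (X : ℝ) ^ d := mul_le_mul_of_nonneg_left
              (Real.rpow_le_rpow (by linarith) hwX (by linarith)) (abs_nonneg _)
      have e4 : |C₁ i| * (X : ℝ) ^ d ≤ (∑ i, |C₁ i|) * (X : ℝ) ^ d :=
        mul_le_mul_of_nonneg_right (single_le_sum (f := fun i => |C₁ i|) (fun j _ => abs_nonneg _) (mem_univ i))
          (by positivity)
      have e5 := hle i
      rw [hY]
      apply Nat.le_floor
      rw [hD]
      nlinarith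
    · rw [hQ]
      simp only
      rw [Fintype.mem_piFinset]
      intro i
      rw [mem_filter, mem_Icc]
      exact ⟨hw i, (hx i).2.trans (hle i)⟩
  have h1 := Set.ncard_le_ncard hsub (finite_toSet _)
  rw [Set.ncard_coe_finset] at h1
  have h2 : (((P.biUnion Q).card : ℕ) : ℝ) ≤ ∑ p ∈ P, ((Q p).card : ℝ) := by exact_mod_cast card_biUnion_le
  have h3 : ∑ p ∈ P, ((Q p).card : ℝ) ≤ P.card * ((∏ i, (2 / a i + 1)) * (X : ℝ) ^ (k * κ)) := by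
    rw [← nsmul_eq_mul]
    exact sum_le_card_nsmul _ _ _ fun p _ => hQc p
  have hprod : 0 ≤ ∏ i, (2 / a i + 1) := prod_nonneg fun i _ => by
    have := ha i
    positivity
  have hK0 : 0 ≤ (∏ i, (2 / a i + 1)) * (X : ℝ) ^ (k * κ) := by positivity
  calc ({w : Fin k → ℕ | w ∈ NearBad Bad G κ ∧ ∀ i, 1 ≤ w i ∧ w i ≤ X}.ncard : ℝ)
      ≤ ((P.biUnion Q).card : ℝ) := by exact_mod_cast h1
    _ ≤ P.card * ((∏ i, (2 / a i + 1)) * (X : ℝ) ^ (k * κ)) := h2.trans h3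
    _ ≤ (|C| * (D * (X : ℝ) ^ d) ^ s) * ((∏ i, (2 / a i + 1)) * (X : ℝ) ^ (k * κ)) :=
        mul_le_mul_of_nonneg_right hPc hK0
    _ = |C| * D ^ s * (∏ i, (2 / a i + 1)) * (X : ℝ) ^ (d * s + k * κ) := by
        rw [Real.rpow_add hX0, Real.mul_rpow (by linarith) (by positivity), ← Real.rpow_mul hX0.le]
        ring

/-- **Tuples near tuples of values of multiplicative functions.** -/
theorem keep_near_tuples {k : ℕ} (Bad : (Fin k → ℕ) → Prop) {s : ℝ} (hs : 0 ≤ s)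
    (hB : ∃ C : ℝ, ∀ Y : ℕ, 1 ≤ Y → (((Bx k Y).filter (fun x => Bad x)).card : ℝ) ≤ C * (Y : ℝ) ^ s)
    {F : Fin k → ℕ → ℕ} (hF : ∀ i, LM (F i)) {G : Fin k → ℕ → ℝ} {d : ℝ} (hG : ∀ i, Expanding (G i) d)
    (hd : 1 ≤ d) {κ : ℝ} (hκ : 0 ≤ κ) (hκ1 : κ ≤ 1) (h1 : d * s + k * κ < k) (U : ℕ) :
    ∃ N₀ : ℕ, ∀ N : ℕ, N₀ ≤ N →
      ({m : Fin k → ℕ | (∀ i, 1 ≤ m i ∧ m i ≤ N) ∧ ¬ ∀ x : Fin k → ℕ,
        (∀ i, 1 ≤ x i ∧ |(x i : ℝ) - G i (F i (m i))| ≤ (F i (m i) : ℝ) ^ κ) → ¬ Bad x}.ncard : ℝ) ≤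
        (N : ℝ) ^ k / Real.log N ^ U := by
  obtain ⟨C, hC⟩ := near_tuples Bad hs hB hG hd hκ hκ1
  have hk0 : (0 : ℝ) ≤ k := Nat.cast_nonneg k
  obtain ⟨N₀, hN₀⟩ := keep_tuples (k := k) (F := F) hF (c := k - (d * s + k * κ)) (by linarith)
    (by
      have : 0 ≤ d * s := mul_nonneg (by linarith) hs
      have : 0 ≤ (k : ℝ) * κ := mul_nonneg hk0 hκ
      linarith) U C
  refine ⟨N₀, fun N hN => ?_⟩
  have h2 := hN₀ N hN (NearBad Bad G κ) (fun X hX => by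
    have h3 := hC X hX
    have h4 : (k : ℝ) - (k - (d * s + k * κ)) = d * s + k * κ := by ring
    rw [h4]
    exact h3)
  refine le_trans ?_ h2
  have hfin : {m : Fin k → ℕ | (∀ i, 1 ≤ m i ∧ m i ≤ N) ∧ (fun i => F i (m i)) ∈ NearBad Bad G κ}.Finite := by
    refine (Set.finite_Icc (fun _ : Fin k => 1) (fun _ => N)).subset ?_
    intro m hm
    exact ⟨fun i => (hm.1 i).1, fun i => (hm.1 i).2⟩
  have h3 : {m : Fin k → ℕ | (∀ i, 1 ≤ m i ∧ m i ≤ N) ∧ ¬ ∀ x : Fin k → ℕ,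
        (∀ i, 1 ≤ x i ∧ |(x i : ℝ) - G i (F i (m i))| ≤ (F i (m i) : ℝ) ^ κ) → ¬ Bad x} ⊆
      {m : Fin k → ℕ | (∀ i, 1 ≤ m i ∧ m i ≤ N) ∧ (fun i => F i (m i)) ∈ NearBad Bad G κ} := by
    rintro m ⟨h4, h5⟩
    push Not at h5
    obtain ⟨x, hx, hb⟩ := h5
    exact ⟨h4, x, hx, hb⟩
  exact_mod_cast Set.ncard_le_ncard h3 hfin

/-- rational numbers: the number of the pairs `p, q ≤ Y` with `p / q` or `-p / q` in a set with at most
`C B ^ s` elements of height at most `B`, `s > 1` -/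
theorem rat_pairs (E : Set ℚ) {s : ℝ} (hs : 1 < s)
    (hE : ∃ C : ℝ, ∀ B : ℕ, 1 ≤ B → ({t : ℚ | |t.num| ≤ B ∧ t.den ≤ B ∧ t ∈ E}.ncard : ℝ) ≤ C * (B : ℝ) ^ s) :
    ∃ C : ℝ, ∀ Y : ℕ, 1 ≤ Y → (((Bx 2 Y).filter (fun x =>
      ((x 0 : ℚ) / (x 1 : ℚ)) ∈ E ∨ (-(x 0 : ℚ) / (x 1 : ℚ)) ∈ E)).card : ℝ) ≤ C * (Y : ℝ) ^ s := by
  obtain ⟨C, hC⟩ := hE
  have hsum : Summable fun g : ℕ => 1 / (g : ℝ) ^ s := Real.summable_one_div_nat_rpow.2 hs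
  obtain ⟨Z, hZ⟩ : ∃ Z, Z = ∑' g : ℕ, 1 / (g : ℝ) ^ s := ⟨_, rfl⟩
  refine ⟨2 * |C| * Z, fun Y hY => ?_⟩
  have hY0 : (0 : ℝ) < Y := by exact_mod_cast hY
  obtain ⟨R, hR⟩ : ∃ R : ℕ → Set ℚ, R = fun B : ℕ => {t : ℚ | |t.num| ≤ (B : ℤ) ∧ t.den ≤ B ∧ t ∈ E} := ⟨_, rfl⟩
  have hRfin : ∀ B, (R B).Finite := by
    intro B
    have h1 : R B ⊆ (fun p : ℤ × ℕ => (p.1 : ℚ) / (p.2 : ℚ)) ''
        (((Icc (-(B : ℤ)) B ×ˢ range (B + 1)) : Finset (ℤ × ℕ)) : Set (ℤ × ℕ)) := by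
      rw [hR]
      rintro t ⟨h2, h3, -⟩
      refine ⟨(t.num, t.den), ?_, Rat.num_div_den t⟩
      rw [mem_coe, mem_product, mem_Icc, mem_range]
      exact ⟨⟨(abs_le.1 h2).1, (abs_le.1 h2).2⟩, by omega⟩
    exact ((finite_toSet _).image _).subset h1
  -- the pairs with a given common divisor and sign
  obtain ⟨T, hT⟩ : ∃ T : Bool × ℕ → Finset (Fin 2 → ℕ), T = fun p =>
      (hRfin (Y / p.2)).toFinset.image (fun t => ![p.2 * t.num.natAbs, p.2 * t.den]) := ⟨_, rfl⟩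
  have hTc : ∀ p : Bool × ℕ, 1 ≤ p.2 → p.2 ≤ Y → ((T p).card : ℝ) ≤ |C| * ((Y : ℝ) ^ s * (1 / (p.2 : ℝ) ^ s)) := by
    intro p hp1 hpY
    have hp0 : (0 : ℝ) < p.2 := by exact_mod_cast hp1
    have hB1 : 1 ≤ Y / p.2 := (Nat.le_div_iff_mul_le (by omega)).2 (by omega)
    have h1 : (T p).card ≤ (R (Y / p.2)).ncard := by
      rw [hT, Set.ncard_eq_toFinset_card _ (hRfin _)]
      exact card_image_le
    have h2 := hC (Y / p.2) hB1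
    have h3 : ((Y / p.2 : ℕ) : ℝ) ≤ (Y : ℝ) / p.2 := Nat.cast_div_le
    calc ((T p).card : ℝ) ≤ ((R (Y / p.2)).ncard : ℝ) := by exact_mod_cast h1
      _ ≤ C * ((Y / p.2 : ℕ) : ℝ) ^ s := by rw [hR]; exact h2
      _ ≤ |C| * ((Y / p.2 : ℕ) : ℝ) ^ s := mul_le_mul_of_nonneg_right (le_abs_self _) (by positivity)
      _ ≤ |C| * ((Y : ℝ) / p.2) ^ s :=
          mul_le_mul_of_nonneg_left (Real.rpow_le_rpow (Nat.cast_nonneg _) h3 (by linarith)) (abs_nonneg _)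
      _ = |C| * ((Y : ℝ) ^ s * (1 / (p.2 : ℝ) ^ s)) := by
          rw [Real.div_rpow hY0.le hp0.le]
          ring
  have hsub : (Bx 2 Y).filter (fun x => ((x 0 : ℚ) / (x 1 : ℚ)) ∈ E ∨ (-(x 0 : ℚ) / (x 1 : ℚ)) ∈ E) ⊆
      ((univ : Finset Bool) ×ˢ Icc 1 Y).biUnion T := by
    intro x hx
    rw [mem_filter, mem_bx] at hx
    obtain ⟨hx1, hx2⟩ := hx
    obtain ⟨g, hg⟩ : ∃ g, g = Nat.gcd (x 0) (x 1) := ⟨_, rfl⟩
    have hg0 : 0 < g := by rw [hg]; exact Nat.gcd_pos_of_pos_left _ (hx1 0).1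
    have hgY : g ≤ Y := by
      rw [hg]
      exact (Nat.le_of_dvd (hx1 0).1 (Nat.gcd_dvd_left _ _)).trans (hx1 0).2
    obtain ⟨u, hu⟩ : g ∣ x 0 := by rw [hg]; exact Nat.gcd_dvd_left _ _
    obtain ⟨v, hv⟩ : g ∣ x 1 := by rw [hg]; exact Nat.gcd_dvd_right _ _
    have hcop : Nat.Coprime u v := by
      have h1 : Nat.gcd (g * u) (g * v) = g := by rw [← hu, ← hv, ← hg]
      rw [Nat.gcd_mul_left] at h1
      exact Nat.eq_of_mul_eq_mul_left hg0 (by rw [h1, mul_one])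
    have hu0 : 0 < u := by
      rcases Nat.eq_zero_or_pos u with h | h
      · have := (hx1 0).1
        rw [hu, h] at this
        omega
      · exact h
    have hv0 : 0 < v := by
      rcases Nat.eq_zero_or_pos v with h | h
      · have := (hx1 1).1
        rw [hv, h] at this
        omega
      · exact h
    have huY : u ≤ Y / g := (Nat.le_div_iff_mul_le hg0).2 (by rw [mul_comm, ← hu]; exact (hx1 0).2)
    have hvY : v ≤ Y / g := (Nat.le_div_iff_mul_le hg0).2 (by rw [mul_comm, ← hv]; exact (hx1 1).2)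
    have hgq : (g : ℚ) ≠ 0 := by exact_mod_cast hg0.ne'
    have hfin : ∀ e : ℤ, (e = 1 ∨ e = -1) → ((e * x 0 : ℚ) / (x 1 : ℚ)) ∈ E →
        ∃ b : Bool, x ∈ T (b, g) := by
      intro e he hE
      have ht : ((e * x 0 : ℚ) / (x 1 : ℚ)) = ((e * u : ℤ) : ℚ) / ((v : ℤ) : ℚ) := by
        rw [hu, hv]
        have hvq : (v : ℚ) ≠ 0 := by exact_mod_cast hv0.ne'
        push_cast
        field_simp
      have hcop' : Nat.Coprime (e * (u : ℤ)).natAbs (v : ℤ).natAbs := by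
        rcases he with rfl | rfl
        · simpa using hcop
        · simpa using hcop
      have hnum : (((e * u : ℤ) : ℚ) / ((v : ℤ) : ℚ)).num = e * u :=
        Rat.num_div_eq_of_coprime (by exact_mod_cast hv0) hcop'
      have hden : ((((e * u : ℤ) : ℚ) / ((v : ℤ) : ℚ)).den : ℤ) = v :=
        Rat.den_div_eq_of_coprime (by exact_mod_cast hv0) hcop'
      have hden' : (((e * u : ℤ) : ℚ) / ((v : ℤ) : ℚ)).den = v := by exact_mod_cast hden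
      refine ⟨true, ?_⟩
      rw [hT]
      simp only
      rw [mem_image]
      refine ⟨((e * u : ℤ) : ℚ) / ((v : ℤ) : ℚ), ?_, ?_⟩
      · rw [Set.Finite.mem_toFinset, hR]
        refine ⟨?_, ?_, ?_⟩
        · rw [hnum]
          have h1 : |e * (u : ℤ)| = u := by
            rcases he with rfl | rfl
            · simp
            · simp
          rw [h1]
          exact_mod_cast huY
        · rw [hden']
          exact hvY
        · rw [← ht]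
          exact hE
      · rw [hnum, hden']
        have h1 : (e * (u : ℤ)).natAbs = u := by
          rcases he with rfl | rfl
          · simp
          · simp
        rw [h1, ← hu, ← hv]
        ext i
        fin_cases i <;> rfl
    rw [mem_biUnion]
    rcases hx2 with h | h
    · obtain ⟨b, hb⟩ := hfin 1 (Or.inl rfl) (by simpa using h)
      exact ⟨(b, g), mem_product.2 ⟨mem_univ _, mem_Icc.2 ⟨hg0, hgY⟩⟩, hb⟩
    · obtain ⟨b, hb⟩ := hfin (-1) (Or.inr rfl) (by simpa using h)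
      exact ⟨(b, g), mem_product.2 ⟨mem_univ _, mem_Icc.2 ⟨hg0, hgY⟩⟩, hb⟩
  have h1 := (card_le_card hsub).trans card_biUnion_le
  have h2 : ((((Bx 2 Y).filter (fun x =>
      ((x 0 : ℚ) / (x 1 : ℚ)) ∈ E ∨ (-(x 0 : ℚ) / (x 1 : ℚ)) ∈ E)).card : ℕ) : ℝ) ≤
      ∑ p ∈ (univ : Finset Bool) ×ˢ Icc 1 Y, ((T p).card : ℝ) := by exact_mod_cast h1
  refine h2.trans ?_
  have h3 : ∑ p ∈ (univ : Finset Bool) ×ˢ Icc 1 Y, ((T p).card : ℝ) ≤
      ∑ p ∈ (univ : Finset Bool) ×ˢ Icc 1 Y, |C| * ((Y : ℝ) ^ s * (1 / (p.2 : ℝ) ^ s)) := by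
    refine sum_le_sum fun p hp => ?_
    rw [mem_product, mem_Icc] at hp
    exact hTc p hp.2.1 hp.2.2
  refine h3.trans ?_
  rw [sum_product]
  simp only [sum_const, card_univ, Fintype.card_bool, nsmul_eq_mul]
  rw [← mul_sum, ← mul_sum]
  have h4 : ∑ g ∈ Icc 1 Y, 1 / (g : ℝ) ^ s ≤ Z := by
    rw [hZ]
    exact hsum.sum_le_tsum _ fun g _ => by positivity
  have h5 : 0 ≤ |C| * (Y : ℝ) ^ s := by positivity
  calc ((2 : ℕ) : ℝ) * (|C| * ((Y : ℝ) ^ s * ∑ g ∈ Icc 1 Y, 1 / (g : ℝ) ^ s))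
      = 2 * ((|C| * (Y : ℝ) ^ s) * ∑ g ∈ Icc 1 Y, 1 / (g : ℝ) ^ s) := by push_cast; ring
    _ ≤ 2 * ((|C| * (Y : ℝ) ^ s) * Z) :=
        mul_le_mul_of_nonneg_left (mul_le_mul_of_nonneg_left h4 h5) (by norm_num)
    _ = 2 * |C| * Z * (Y : ℝ) ^ s := by ring

end Pool.Agent.J4.H74.TupNear
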